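import Pool.Agent.W_68f289_h35.CoB

/-!
End points of paths with Calabi invariant zero.
-/

open Set Metric Topology Pool.Agent.W_MP_68f289_gt MeasureTheory Filter
open scoped NNReal ContDiff

namespace Pool.Agent.W_68f289_h35

variable {n : ℕ}

/-- displacement of a flow whose field is bounded by `δ` on `[0, 1]` -/
lemma AlA_disp {L : ℝ → E n → ℝ} {μ : ℝ → E n → E n} (h : HIso n L μ) {δ : ℝ} (hδ : 0 ≤ δ)
    (hb : ∀ t ∈ Icc (0 : ℝ) 1, ∀ x, ‖XH (L t) x‖ ≤ δ) {t : ℝ} (ht : t ∈ Icc (0 : ℝ) 1) (x : E n) :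
    dist (μ t x) x ≤ δ := by
  have h1 := norm_image_sub_le_of_norm_deriv_le_segment' (f := fun s => μ s x)
    (f' := fun s => XH (L s) (μ s x)) (C := δ) (a := 0) (b := 1)
    (fun s _ => (h.der s x).hasDerivWithinAt) (fun s hs => hb s ⟨hs.1, hs.2.le⟩ _) t ht
  rw [h.zero, sub_zero] at h1
  rw [dist_eq_norm]
  refine h1.trans ?_
  calc δ * t ≤ δ * 1 := mul_le_mul_of_nonneg_left ht.2 hδ
    _ = δ := mul_one δ

/-- End points of topological Hamiltonian paths with Calabi invariant zero are in `N`. Let `b` be the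
bump of `exists_bump`, `c k = cal (H k) → 0`, and `μ k` the flow of `-c k * b x`: it is small
(`small_of_C1`-type bounds), so by `TPath.of_small` and `TPath.mul` there is a topological Hamiltonian
path with the same end point, whose Hamiltonians have integral zero, so that its time-one maps are
in `N` by `zn_of_cal_zero`. -/
theorem mem_of_tendsto_zero (hn : 1 ≤ n) {N : Subgroup (Hm n)} (hN : N.Normal) (hN1 : N ≠ ⊥)
    (hNc : HClosed N) {K : Set (E n)} {H : ℕ → ℝ → E n → ℝ} {ψ : ℕ → ℝ → E n → E n}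
    {Φ : Icc (0 : ℝ) 1 → (E n ≃ₜ E n)} (h : TPath n K H ψ Φ)
    (h0 : Tendsto (fun k => cal (H k)) atTop (𝓝 0)) {u : Hm n}
    (hu : (u : E n ≃ₜ E n) = endp Φ) : u ∈ N := by
  obtain ⟨b, hbs, ⟨Kb, hKb, hKbB, hb0⟩, hb1⟩ := exists_bump n
  -- bounds for `b`
  have hA1 : Adm n (fun _ : ℝ => b) Kb :=
    ⟨hbs.comp contDiff_snd, hKb, hKbB, fun _ x hx => hb0 x hx⟩
  obtain ⟨M, hM⟩ : ∃ M : ℝ, ∀ x, |b x| ≤ M := by
    obtain ⟨M, hM⟩ := hKb.exists_bound_of_continuousOn hbs.continuous.continuousOn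
    refine ⟨max M 0, fun x => ?_⟩
    by_cases hx : x ∈ Kb
    · exact (hM x hx).trans (le_max_left _ _)
    · rw [hb0 x hx, abs_zero]
      exact le_max_right _ _
  obtain ⟨M', hM'⟩ : ∃ M' : ℝ, ∀ x, ‖XH b x‖ ≤ M' := by
    have hc : Continuous (fun x : E n => XH b x) :=
      hA1.XH_smooth.continuous.comp ((continuous_const (y := (0 : ℝ))).prodMk continuous_id)
    obtain ⟨M', hM'⟩ := hKb.exists_bound_of_continuousOn hc.continuousOn
    refine ⟨max M' 0, fun x => ?_⟩
    by_cases hx : x ∈ Kb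
    · exact (hM' x hx).trans (le_max_left _ _)
    · rw [show XH b x = 0 from hA1.XH_off 0 hx, norm_zero]
      exact le_max_right _ _
  have hM0 : 0 ≤ M := (abs_nonneg _).trans (hM 0)
  have hM'0 : 0 ≤ M' := (norm_nonneg _).trans (hM' 0)
  -- the correction
  set c : ℕ → ℝ := fun k => cal (H k) with hc
  let L : ℕ → ℝ → E n → ℝ := fun k _ x => -c k * b x
  have hLs : ∀ k, ContDiff ℝ ((⊤ : ℕ∞) : WithTop ℕ∞) (Function.uncurry (L k)) := fun k =>
    contDiff_const.mul (hbs.comp contDiff_snd)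
  have hL0 : ∀ k, ∀ t : ℝ, ∀ x, x ∉ Kb → L k t x = 0 := fun k t x hx => by
    change -c k * b x = 0
    rw [hb0 x hx, mul_zero]
  choose μ hμ using fun k => exists_flow (hLs k) hKb hKbB (hL0 k)
  set ε : ℕ → ℝ := fun k => |c k| * (2 * M + M') with hε
  have hεt : Tendsto ε atTop (𝓝 0) := by
    have h2 : Tendsto (fun k => |c k|) atTop (𝓝 0) := by
      have := h0.abs
      rwa [abs_zero] at this
    have h1 := h2.mul_const (2 * M + M')
    rwa [zero_mul] at h1
  have hsm : TPath n Kb L μ (fun _ => 1) := by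
    refine TPath.of_small hKb hKbB hμ hL0 hεt (fun k => ?_) (fun k t ht x => ?_)
    · have h1 := hofer_le_of_abs_le (H := L k) (hLs k).continuous hKb (hL0 k) (M := |c k| * M)
        (fun t _ x => by
          change |-c k * b x| ≤ |c k| * M
          rw [abs_mul, abs_neg]
          exact mul_le_mul_of_nonneg_left (hM x) (abs_nonneg _))
      refine h1.trans ?_
      have h2 : 0 ≤ |c k| * M' := mul_nonneg (abs_nonneg _) hM'0
      simp only [hε]
      linarith
    · have h1 := AlA_disp (hμ k) (δ := |c k| * M') (mul_nonneg (abs_nonneg _) hM'0)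
        (fun t _ x => by
          have h2 : XH (L k t) x = (-c k) • XH b x :=
            XH_const_mul (hbs.differentiable (by simp) x) (-c k)
          rw [h2, norm_smul, Real.norm_eq_abs, abs_neg]
          exact mul_le_mul_of_nonneg_left (hM' x) (abs_nonneg _)) ht x
      refine h1.trans ?_
      have h2 : 0 ≤ |c k| * M := mul_nonneg (abs_nonneg _) hM0
      simp only [hε]
      linarith
  have hcalL : ∀ k, cal (L k) = -c k := by
    intro k
    change (∫ t in (0 : ℝ)..1, ∫ x, -c k * b x) = -c k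
    rw [integral_const_mul, hb1]
    simp
  obtain ⟨K'', H'', ψ'', Φ'', hT, he, -, hcal⟩ := hsm.mul h
  have hcal0 : ∀ k, cal (H'' k) = 0 := by
    intro k
    rw [hcal k, hcalL k]
    simp [hc]
  have hmem : ∀ k, ∃ u ∈ N, ∀ x, (u : E n ≃ₜ E n) x = ψ'' k 1 x := by
    intro k
    have hAd : Ad (H'' k) := ⟨(hT.iso k).smooth, (hT.iso k).supp⟩
    have hZ := zn_of_cal_zero hn hN hN1 hNc hAd (hcal0 k)
    exact ⟨tm (hT.iso k), hZ.2 _ (hT.iso k), fun x => rfl⟩
  obtain ⟨u', hu', he'⟩ := hNc K'' H'' ψ'' Φ'' hT hmem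
  have h1 : u' = u := by
    apply Subtype.ext
    rw [he', he, hu]
    have h2 : endp (n := n) (fun _ => 1) = 1 := rfl
    rw [h2, one_mul]
  rwa [h1] at hu'

end Pool.Agent.W_68f289_h35
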