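import Pool.Agent.W_MP_68f289_gt.Crit

/-!
# Extension of homomorphisms to groups with a self-similarity

`G` is a group with a normal subgroup `M` and an endomorphism `σ` such that all commutators
`[σ a, σ b]` lie in `M`. Then homomorphisms to `ℝ` of a `σ`-invariant subgroup `H` which are
trivial on `M` and are multiplied by a constant `κ ≠ 0` by `σ` extend to `G`.
-/

open Set Metric Topology commutatorElement
open scoped Pointwise

namespace Pool.Agent.W_68f289_h35

/-! ### Extension to divisible groups -/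

section ext

/-- Homomorphisms to `ℝ` extend from subgroups of abelian groups. -/
theorem exists_extend_comm {A : Type*} [CommGroup A] (B : Subgroup A)
    (f : B →* Multiplicative ℝ) : ∃ g : A →* Multiplicative ℝ, ∀ b : B, g b = f b := by
  have hb : Module.Baer ℤ ℝ := Module.Baer.of_divisible ℝ
  obtain ⟨h, hh⟩ := hb.extension_property_addMonoidHom
    (M := Additive B) (N := Additive A) (MonoidHom.toAdditive B.subtype)
    (fun x y hxy => Subtype.ext hxy) (MonoidHom.toAdditiveLeft f)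
  refine ⟨AddMonoidHom.toMultiplicativeRight h, fun b => ?_⟩
  have := DFunLike.congr_fun hh (Additive.ofMul b)
  exact this

/-- The abstract extension lemma. -/
theorem exists_extend {G : Type*} [Group G] (M : Subgroup G) [M.Normal] (σ : G →* G)
    (hσ : ∀ a b, ⁅σ a, σ b⁆ ∈ M) (H : Subgroup G) (C : H →* Multiplicative ℝ)
    (hM : ∀ (x : G) (hx : x ∈ H), x ∈ M → C ⟨x, hx⟩ = 1) (hσH : ∀ h ∈ H, σ h ∈ H)
    (κ : ℝ) (hκ : κ ≠ 0)
    (hC : ∀ (h : G) (hh : h ∈ H), (C ⟨σ h, hσH h hh⟩).toAdd = κ * (C ⟨h, hh⟩).toAdd) :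
    ∃ D : G →* Multiplicative ℝ, ∀ (h : G) (hh : h ∈ H), D h = C ⟨h, hh⟩ := by
  -- the homomorphism `G → G / M`
  set τ : G →* G ⧸ M := (QuotientGroup.mk' M).comp σ with hτ
  have hcomm : ∀ a b : τ.range, a * b = b * a := by
    rintro ⟨_, a, rfl⟩ ⟨_, b, rfl⟩
    apply Subtype.ext
    change τ a * τ b = τ b * τ a
    rw [← commutatorElement_eq_one_iff_mul_comm, ← map_commutatorElement]
    have h1 : τ ⁅a, b⁆ = QuotientGroup.mk' M ⁅σ a, σ b⁆ := by
      rw [hτ, MonoidHom.comp_apply, map_commutatorElement]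
    rw [h1]
    exact (QuotientGroup.eq_one_iff _).2 (hσ a b)
  letI : CommGroup τ.range := { (inferInstance : Group τ.range) with mul_comm := hcomm }
  -- the image of `H`
  let ρ : H →* τ.range := τ.rangeRestrict.comp H.subtype
  -- `C ∘ σ` factors through the image of `H`
  let c : H →* Multiplicative ℝ :=
    { toFun := fun h => C ⟨σ h, hσH h h.2⟩
      map_one' := by
        have : (⟨σ ((1 : H) : G), hσH _ (1 : H).2⟩ : H) = 1 := Subtype.ext (by simp)
        rw [this, map_one]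
      map_mul' := fun x y => by
        rw [← map_mul]
        congr 1
        exact Subtype.ext (by simp) }
  have hker : ∀ h : H, ρ h = 1 → c h = 1 := by
    intro h hh
    have h1 : τ h = 1 := congrArg Subtype.val hh
    have h2 : σ h ∈ M := by
      rw [hτ, MonoidHom.comp_apply] at h1
      exact (QuotientGroup.eq_one_iff _).1 h1
    exact hM _ _ h2
  let f : ρ.range →* Multiplicative ℝ :=
    { toFun := fun x => c x.2.choose
      map_one' := by
        apply hker
        exact (1 : ρ.range).2.choose_spec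
      map_mul' := fun x y => by
        have h1 : ρ ((x * y).2.choose * (x.2.choose * y.2.choose)⁻¹) = 1 := by
          rw [map_mul, map_inv, map_mul, (x * y).2.choose_spec, x.2.choose_spec,
            y.2.choose_spec]
          change ((x : τ.range) * (y : τ.range)) * ((x : τ.range) * (y : τ.range))⁻¹ = 1
          rw [mul_inv_cancel]
        have h2 := hker _ h1
        rw [map_mul, map_inv, mul_inv_eq_one] at h2
        rw [h2, map_mul] }
  have hf : ∀ h : H, f ⟨ρ h, h, rfl⟩ = c h := by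
    intro h
    have hx : ∃ y, ρ y = ρ h := ⟨h, rfl⟩
    have h1 : ρ (hx.choose * h⁻¹) = 1 := by
      rw [map_mul, map_inv, hx.choose_spec, mul_inv_cancel]
    have h2 := hker _ h1
    rw [map_mul, map_inv, mul_inv_eq_one] at h2
    exact h2
  obtain ⟨g, hg⟩ := exists_extend_comm ρ.range f
  refine ⟨{ toFun := fun x => Multiplicative.ofAdd (κ⁻¹ * (g (τ.rangeRestrict x)).toAdd)
            map_one' := by simp
            map_mul' := fun x y => by
              rw [MonoidHom.map_mul τ.rangeRestrict, MonoidHom.map_mul g, toAdd_mul, mul_add,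
                ofAdd_add] }, fun h hh => ?_⟩
  change Multiplicative.ofAdd (κ⁻¹ * (g (τ.rangeRestrict h)).toAdd) = C ⟨h, hh⟩
  have h1 : g (τ.rangeRestrict h) = C ⟨σ h, hσH h hh⟩ := by
    have h2 := hg ⟨ρ ⟨h, hh⟩, ⟨h, hh⟩, rfl⟩
    rw [hf] at h2
    exact h2
  rw [h1, hC h hh, ← mul_assoc, inv_mul_cancel₀ hκ, one_mul]
  rfl

end ext

/-! ### Small elements commute modulo a normal subgroup -/

section small

open Pool.Agent.W_MP_68f289_gt

variable {Gr X : Type*} [Group Gr] [MetricSpace X] [MulAction Gr X] [ContinuousConstSMul Gr X]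
  [FaithfulSMul Gr X] {B : Set X}

/-- Commutators of elements with small support around a point lie in every nontrivial normal
subgroup. -/
theorem small_comm (S : Sys Gr B) {N : Subgroup Gr} (hN : N.Normal) (hN1 : N ≠ ⊥) {p : X}
    (hp : p ∈ B) : ∃ ε > 0, ∀ a b : Gr, Off a (ball p ε) → Off b (ball p ε) → ⁅a, b⁆ ∈ N := by
  have hLT := S.LT_of_norm hN1 (fun m _ l hl => hN.conj_mem l hl m) p hp
  obtain ⟨W, hW, h1⟩ := hLT B S.openB subset_rfl hp
  obtain ⟨q, hq, hqp⟩ := S.perf p hp W hW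
  obtain ⟨c, hc, _, hcp⟩ := h1 q hq
  obtain ⟨V, hV, _, hpV, hd⟩ := exists_disj (g := c) (by rw [hcp]; exact hqp) S.openB hp
  obtain ⟨ε, hε, hεV⟩ := Metric.isOpen_iff.1 hV p hpV
  refine ⟨ε, hε, fun a b ha hb => ?_⟩
  have h2 : Off (c * a⁻¹ * c⁻¹) (c • V) := (ha.mono hεV).inv.conj c
  have e := comm_comm (h2.commute (hb.mono hεV) hd)
  rw [← e]
  have hc1 : ⁅a, c⁆ ∈ N := by
    rw [commutatorElement_def]
    exact mul_mem (hN.conj_mem c hc a) (inv_mem hc)
  have e1 : ⁅⁅a, c⁆, b⁆ = ⁅a, c⁆ * (b * ⁅a, c⁆⁻¹ * b⁻¹) := by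
    rw [commutatorElement_def ⁅a, c⁆ b]; group
  rw [e1]
  exact mul_mem hc1 (hN.conj_mem _ (inv_mem hc1) b)

end small

/-! ### The group of Hamiltonian homeomorphisms -/

section ham

open Pool.Agent.W_MP_68f289_gt

variable {n : ℕ}

/-- Homotheties with small factor map `Ham-bar` into elements with small support. -/
theorem sc_off {r : ℝ} (h0 : 0 < r) (h1 : r ≤ 1) {ε : ℝ} (hr : r ≤ ε) (g : G n) :
    Off ((sc n r h0 h1).a g) (ball (0 : E n) ε) := by
  refine HT.a_off _ (off_Bl g) fun x hx => ?_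
  change (0 : E n) + r • x ∈ ball (0 : E n) ε
  rw [zero_add, mem_ball_zero_iff, norm_smul, Real.norm_eq_abs, abs_of_pos h0]
  have h2 : ‖x‖ < 1 := lt_of_le_of_lt (norm_le_en x) (mem_Bl.1 hx)
  calc r * ‖x‖ < r * 1 := by gcongr
    _ ≤ ε := by rw [mul_one]; exact hr

/-- For small `r`, the commutators of elements of the image of the homothety with factor `r` lie
in every nontrivial normal subgroup of `Ham-bar`. -/
theorem sc_comm (hn : 1 ≤ n) (N : Subgroup (G n)) (hN : N.Normal) (hN1 : N ≠ ⊥) :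
    ∃ ε > 0, ε ≤ 1 ∧ ∀ (r : ℝ) (h0 : 0 < r) (h1 : r ≤ 1), r ≤ ε → ∀ a b : G n,
      ⁅(sc n r h0 h1).a a, (sc n r h0 h1).a b⁆ ∈ N := by
  have h0B : (0 : E n) ∈ Bl n := by
    rw [mem_Bl, en_zero]
    norm_num
  obtain ⟨ε, hε, h⟩ := small_comm (sys hn) hN hN1 h0B
  refine ⟨min ε 1, lt_min hε one_pos, min_le_right _ _, fun r h0 h1 hr a b => h _ _ ?_ ?_⟩
  · exact sc_off h0 h1 (hr.trans (min_le_left _ _)) a
  · exact sc_off h0 h1 (hr.trans (min_le_left _ _)) b

/-- A homomorphism to `ℝ` of a subgroup `H` of `Ham-bar`, invariant under the homotheties, which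
is multiplied by a nonzero constant by each homothety and is trivial on the intersection of `H` with
some nontrivial normal subgroup `N` of `Ham-bar`, extends to `Ham-bar`. -/
theorem exists_extend_HamBar (hn : 1 ≤ n) (N : Subgroup (G n)) (hN : N.Normal) (hN1 : N ≠ ⊥)
    (H : Subgroup (G n)) (C : H →* Multiplicative ℝ)
    (hM : ∀ (x : G n) (hx : x ∈ H), x ∈ N → C ⟨x, hx⟩ = 1)
    (hσH : ∀ (r : ℝ) (h0 : 0 < r) (h1 : r ≤ 1), ∀ h ∈ H, (sc n r h0 h1).a h ∈ H)
    (κ : ℝ → ℝ) (hκ : ∀ r, 0 < r → r ≤ 1 → κ r ≠ 0)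
    (hC : ∀ (r : ℝ) (h0 : 0 < r) (h1 : r ≤ 1) (h : G n) (hh : h ∈ H),
      (C ⟨(sc n r h0 h1).a h, hσH r h0 h1 h hh⟩).toAdd = κ r * (C ⟨h, hh⟩).toAdd) :
    ∃ D : G n →* Multiplicative ℝ, ∀ (h : G n) (hh : h ∈ H), D h = C ⟨h, hh⟩ := by
  obtain ⟨ε, hε, hε1, h⟩ := sc_comm hn N hN hN1
  exact exists_extend N (sc n ε hε hε1).a (h ε hε hε1 le_rfl) H C hM (hσH ε hε hε1) (κ ε)
    (hκ ε hε hε1) (hC ε hε hε1)

end ham

/-! ### Subgroups of `ℝ` stable under `λ ^ k` -/

section scale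

/-- A subgroup of `ℝ` which is stable under multiplication with `lam ^ k` for all
`lam ∈ (0, 1]` (`k ≥ 1`) is `0` or `ℝ`. -/
theorem scale_subgroup (Λ : AddSubgroup ℝ) (k : ℕ) (hk : 1 ≤ k)
    (h : ∀ lam : ℝ, 0 < lam → lam ≤ 1 → ∀ x ∈ Λ, lam ^ k * x ∈ Λ) : Λ = ⊥ ∨ Λ = ⊤ := by
  by_cases h0 : Λ = ⊥
  · exact Or.inl h0
  right
  obtain ⟨⟨x, hx⟩, hx0'⟩ := AddSubgroup.ne_bot_iff_exists_ne_zero.1 h0
  have hx0 : x ≠ 0 := fun hcon => hx0' (Subtype.ext hcon)
  have h1 : ∀ s : ℝ, 0 < s → s ≤ 1 → s * x ∈ Λ := by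
    intro s hs hs1
    have h2 := h (s ^ ((k : ℝ)⁻¹)) (Real.rpow_pos_of_pos hs _)
      (Real.rpow_le_one hs.le hs1 (by positivity)) x hx
    rwa [Real.rpow_inv_natCast_pow hs.le (by omega)] at h2
  have h3 : ∀ s : ℝ, 0 < s → s * x ∈ Λ := by
    intro s hs
    obtain ⟨m, hm⟩ := exists_nat_ge s
    have hm0 : (0 : ℝ) < m := lt_of_lt_of_le hs hm
    have h4 := h1 (s / m) (by positivity) ((div_le_one hm0).2 hm)
    have h5 := Λ.nsmul_mem h4 m
    rw [nsmul_eq_mul] at h5
    have e : (m : ℝ) * (s / m * x) = s * x := by field_simp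
    rwa [e] at h5
  rw [eq_top_iff]
  intro y _
  rcases lt_trichotomy (y / x) 0 with hy | hy | hy
  · have h6 := Λ.neg_mem (h3 (-(y / x)) (by linarith))
    have e : -(-(y / x) * x) = y := by field_simp
    rwa [e] at h6
  · have : y = 0 := by
      rcases div_eq_zero_iff.1 hy with h7 | h7
      · exact h7
      · exact absurd h7 hx0
    rw [this]
    exact Λ.zero_mem
  · have h6 := h3 (y / x) hy
    have e : y / x * x = y := by field_simp
    rwa [e] at h6

end scale

end Pool.Agent.W_68f289_h35
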