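import Pool.Agent.W_68f289_h35.AlA
import Pool.Agent.W_68f289_h35.Ext

/-!
Calabi invariants of loops, the Calabi homomorphism.
-/

open Set Metric Topology Pool.Agent.W_MP_68f289_gt MeasureTheory Filter
open scoped NNReal ContDiff

namespace Pool.Agent.W_68f289_h35

variable {n : ℕ}

/-- topological Hamiltonian paths from the identity to `u` with Calabi invariant `c` -/
def HasCal (u : E n ≃ₜ E n) (c : ℝ) : Prop :=
  ∃ K H ψ Φ, TPath n K H ψ Φ ∧ endp Φ = u ∧ Tendsto (fun k => cal (H k)) atTop (𝓝 c)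

lemma HasCal.mul {u v : E n ≃ₜ E n} {c d : ℝ} (hu : HasCal u c) (hv : HasCal v d) :
    HasCal (u * v) (c + d) := by
  obtain ⟨K, H, ψ, Φ, h1, h2, h3⟩ := hu
  obtain ⟨K', H', ψ', Φ', h1', h2', h3'⟩ := hv
  obtain ⟨K'', H'', ψ'', Φ'', h, h4, -, h5⟩ := h1.mul h1'
  refine ⟨K'', H'', ψ'', Φ'', h, by rw [h4, h2, h2'], ?_⟩
  simp only [h5]
  exact h3.add h3'

lemma HasCal.inv {u : E n ≃ₜ E n} {c : ℝ} (hu : HasCal u c) : HasCal u⁻¹ (-c) := by
  obtain ⟨K, H, ψ, Φ, h1, h2, h3⟩ := hu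
  obtain ⟨H'', ψ'', Φ'', h, h4, -, h5⟩ := h1.inv
  refine ⟨K, H'', ψ'', Φ'', h, by rw [h4, h2], ?_⟩
  simp only [h5]
  exact h3.neg

lemma HasCal.conj {u : E n ≃ₜ E n} {c : ℝ} (hu : HasCal u c) {g : E n ≃ₜ E n}
    (hg : g ∈ HamBar n) : HasCal (g * u * g⁻¹) c := by
  obtain ⟨K, H, ψ, Φ, h1, h2, h3⟩ := hu
  obtain ⟨K'', H'', ψ'', Φ'', h, h4, h5⟩ := h1.conj hg
  refine ⟨K'', H'', ψ'', Φ'', h, by rw [h4, h2], ?_⟩
  simp only [h5]
  exact h3

lemma HasCal.homoth {u : E n ≃ₜ E n} {c : ℝ} (hu : HasCal u c) {r : ℝ} (h0 : 0 < r)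
    (h1 : r ≤ 1) : HasCal (aff 0 r h0.ne' * u * (aff 0 r h0.ne')⁻¹) (r ^ (2 * n + 2) * c) := by
  obtain ⟨K, H, ψ, Φ, h1', h2, h3⟩ := hu
  obtain ⟨K'', H'', ψ'', Φ'', h, h4, h5⟩ := h1'.homoth h0 h1
  refine ⟨K'', H'', ψ'', Φ'', h, by rw [h4, h2], ?_⟩
  simp only [h5]
  exact h3.const_mul _

lemma hasCal_one : HasCal (1 : E n ≃ₜ E n) 0 := by
  refine ⟨∅, fun _ _ _ => 0, fun _ _ x => x, fun _ => 1, ?_, rfl, ?_⟩
  · refine TPath.of_small isCompact_empty (empty_subset _) (fun _ => ⟨contDiff_const, ⟨∅,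
      isCompact_empty, empty_subset _, fun _ _ _ => rfl⟩, fun _ => rfl, fun t x => ?_⟩)
      (fun _ _ _ _ => rfl) (ε := fun _ => 0) tendsto_const_nhds (fun _ => ?_) (fun _ _ _ x => ?_)
    · rw [XH_zero]
      exact hasDerivAt_const _ _
    · rw [hofer_eq]
      simp [osc]
    · simp
  · unfold cal
    simp

lemma exists_hasCal (hn : 1 ≤ n) (u : Hm n) : ∃ c, HasCal (u : E n ≃ₜ E n) c := by
  obtain ⟨K, H, ψ, Φ, h1, h2⟩ := exists_TPath u
  obtain ⟨c, hc⟩ := h1.cal_tendsto hn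
  exact ⟨c, K, H, ψ, Φ, h1, h2, hc⟩

/-- flow of `c * b x` for the bump `b` of integral one -/
lemma exists_isHam_hasCal (n : ℕ) (c : ℝ) : ∃ u : Hm n, IsHam n (u : E n ≃ₜ E n) ∧
    HasCal (u : E n ≃ₜ E n) c := by
  obtain ⟨b, hb, ⟨K, hc, hKB, hK⟩, h1⟩ := exists_bump n
  have hs : ContDiff ℝ ((⊤ : ℕ∞) : WithTop ℕ∞)
      (Function.uncurry (fun (_ : ℝ) (x : E n) => c * b x)) :=
    contDiff_const.mul (hb.comp contDiff_snd)
  have h0 : ∀ t : ℝ, ∀ x, x ∉ K → (fun (_ : ℝ) (x : E n) => c * b x) t x = 0 :=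
    fun _ x hx => by simp [hK x hx]
  obtain ⟨ψ, hψ⟩ := exists_flow hs hc hKB h0
  refine ⟨tm hψ, tm_isHam hψ, K, _, _, _, TPath.of_HIso hψ hc hKB h0, rfl, ?_⟩
  have h2 : cal (fun (_ : ℝ) (x : E n) => c * b x) = c := by
    unfold cal
    simp [integral_const_mul, h1]
  simp only [h2]
  exact tendsto_const_nhds

/-- the Calabi invariants of loops are all `0`, or everything: they form a subgroup of `ℝ` stable
under multiplication by `r ^ (2 n + 2)`, `0 < r ≤ 1` -/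
theorem loops_alt (n : ℕ) : (∀ c : ℝ, HasCal (1 : E n ≃ₜ E n) c → c = 0) ∨
    ∀ c : ℝ, HasCal (1 : E n ≃ₜ E n) c := by
  set Λ : AddSubgroup ℝ :=
    { carrier := {c | HasCal (1 : E n ≃ₜ E n) c}
      add_mem' := fun {a b} ha hb => by
        have h := HasCal.mul (show HasCal (1 : E n ≃ₜ E n) a from ha) hb
        rw [one_mul] at h
        exact h
      zero_mem' := hasCal_one
      neg_mem' := fun {a} ha => by
        have h := HasCal.inv (show HasCal (1 : E n ≃ₜ E n) a from ha)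
        rw [inv_one] at h
        exact h } with hΛ
  have hmem : ∀ c : ℝ, c ∈ Λ ↔ HasCal (1 : E n ≃ₜ E n) c := fun c => Iff.rfl
  have h : ∀ lam : ℝ, 0 < lam → lam ≤ 1 → ∀ x ∈ Λ, lam ^ (2 * n + 2) * x ∈ Λ := by
    intro lam h0 h1 x hx
    rw [hmem] at hx ⊢
    have h2 := hx.homoth h0 h1
    rw [mul_one, mul_inv_cancel] at h2
    exact h2
  rcases scale_subgroup Λ (2 * n + 2) (by omega) h with h1 | h1
  · left
    intro c hc
    have h2 : c ∈ Λ := (hmem c).2 hc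
    rw [h1] at h2
    exact AddSubgroup.mem_bot.1 h2
  · right
    intro c
    rw [← hmem, h1]
    exact AddSubgroup.mem_top c

/-- uniqueness if loops have invariant zero -/
lemma HasCal.unique (h : ∀ c : ℝ, HasCal (1 : E n ≃ₜ E n) c → c = 0) {u : E n ≃ₜ E n}
    {c d : ℝ} (hc : HasCal u c) (hd : HasCal u d) : c = d := by
  have := hc.mul hd.inv
  rw [mul_inv_cancel] at this
  linarith [h _ this]

/-- the Calabi homomorphism on hameomorphisms -/
theorem exists_hom (hn : 1 ≤ n) (h : ∀ c : ℝ, HasCal (1 : E n ≃ₜ E n) c → c = 0) :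
    ∃ C : Hm n →* Multiplicative ℝ, ∀ (u : Hm n) (c : ℝ),
      HasCal (u : E n ≃ₜ E n) c ↔ (C u).toAdd = c := by
  choose f hf using fun u : Hm n => exists_hasCal hn u
  refine ⟨⟨⟨fun u => Multiplicative.ofAdd (f u), ?_⟩, ?_⟩, ?_⟩
  · exact congrArg Multiplicative.ofAdd (HasCal.unique h (hf 1) hasCal_one)
  · intro u v
    exact congrArg Multiplicative.ofAdd (HasCal.unique h (hf (u * v)) ((hf u).mul (hf v)))
  · intro u c
    constructor
    · intro hc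
      exact HasCal.unique h (hf u) hc
    · rintro rfl
      exact hf u

end Pool.Agent.W_68f289_h35
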