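import Pool.Agent.W_MP_68f289_gt.Ham

/-!
Symplectic linear algebra.
-/

open Set Metric Topology Pool.Agent.W_MP_68f289_gt
open scoped NNReal ContDiff

namespace Pool.Agent.W_68f289_h35

variable {n : ℕ}

/-- the standard symplectic form -/
def om {n : ℕ} (v w : E n) : ℝ := ∑ i, (v.1 i * w.2 i - v.2 i * w.1 i)

/-- linear maps preserving the symplectic form -/
def Symp {n : ℕ} (A : E n →L[ℝ] E n) : Prop := ∀ v w, om (A v) (A w) = om v w

lemma om_add_left (u v w : E n) : om (u + v) w = om u w + om v w := by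
  unfold om
  rw [← Finset.sum_add_distrib]
  refine Finset.sum_congr rfl fun i _ => ?_
  simp only [Prod.fst_add, Prod.snd_add, Pi.add_apply]
  ring

lemma om_smul_left (c : ℝ) (v w : E n) : om (c • v) w = c * om v w := by
  unfold om
  rw [Finset.mul_sum]
  refine Finset.sum_congr rfl fun i _ => ?_
  simp only [Prod.smul_fst, Prod.smul_snd, Pi.smul_apply, smul_eq_mul]
  ring

lemma om_swap (v w : E n) : om v w = -om w v := by
  unfold om
  rw [← Finset.sum_neg_distrib]
  refine Finset.sum_congr rfl fun i _ => ?_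
  ring

/-- nondegeneracy: test against `(uv i, 0)` and `(0, uv i)` -/
lemma om_nondeg {v : E n} (h : ∀ w, om v w = 0) : v = 0 := by
  have h1 : ∀ i, v.1 i = 0 := by
    intro i
    have h2 := h ((0 : Fin n → ℝ), uv i)
    unfold om uv at h2
    simpa [Pi.single_apply] using h2
  have h3 : ∀ i, v.2 i = 0 := by
    intro i
    have h2 := h (uv i, (0 : Fin n → ℝ))
    unfold om uv at h2
    simpa [Pi.single_apply] using h2
  exact Prod.ext (funext h1) (funext h3)

/-- `om` is smooth (it is a polynomial); stated as a continuous bilinear map. -/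
lemma exists_om_clm (n : ℕ) : ∃ B : E n →L[ℝ] E n →L[ℝ] ℝ, ∀ v w, B v w = om v w := by
  let B : E n →ₗ[ℝ] E n →ₗ[ℝ] ℝ := LinearMap.mk₂ ℝ om om_add_left om_smul_left
    (fun u v w => by rw [om_swap, om_add_left, om_swap v, om_swap w]; ring)
    (fun c v w => by rw [om_swap, om_smul_left, om_swap w, smul_eq_mul]; ring)
  refine ⟨LinearMap.toContinuousLinearMap
    ((LinearMap.toContinuousLinearMap : (E n →ₗ[ℝ] ℝ) ≃ₗ[ℝ] (E n →L[ℝ] ℝ)).toLinearMap.comp B), ?_⟩
  intro v w
  rfl

/-- the defining property of the Hamiltonian vector field: decompose `w` as the sum of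
`w.1 i • (uv i, 0)` and `w.2 i • (0, uv i)` -/
lemma om_XH (h : E n → ℝ) (z w : E n) : om (XH h z) w = fderiv ℝ h z w := by
  have hw : w = ∑ i, (w.1 i • ((uv i, 0) : E n) + w.2 i • ((0, uv i) : E n)) := by
    refine Prod.ext (funext fun j => ?_) (funext fun j => ?_)
    · rw [Prod.fst_sum, Finset.sum_apply]
      simp [uv, Pi.single_apply]
    · rw [Prod.snd_sum, Finset.sum_apply]
      simp [uv, Pi.single_apply]
  conv_rhs => rw [hw]
  rw [map_sum]
  unfold om XH dd
  refine Finset.sum_congr rfl fun i _ => ?_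
  rw [map_add, map_smul, map_smul, smul_eq_mul, smul_eq_mul]
  ring

/-- symplectic linear maps are injective, hence bijective: `A v = 0` gives `om v w = 0` for all `w` -/
lemma Symp.bijective {A : E n →L[ℝ] E n} (hA : Symp A) : Function.Bijective A := by
  have hinj : Function.Injective A := by
    rw [injective_iff_map_eq_zero]
    intro v hv
    refine om_nondeg fun w => ?_
    rw [← hA, hv]
    unfold om
    simp
  refine ⟨hinj, ?_⟩
  exact (LinearMap.injective_iff_surjective (f := (A : E n →ₗ[ℝ] E n))).1 hinj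

lemma Symp.comp {A B : E n →L[ℝ] E n} (hA : Symp A) (hB : Symp B) : Symp (A.comp B) := by
  intro v w
  rw [ContinuousLinearMap.comp_apply, ContinuousLinearMap.comp_apply, hA, hB]

/-- if `A` is symplectic and `A (B v) = v` then `B` is symplectic -/
lemma Symp.of_right_inv {A B : E n →L[ℝ] E n} (hA : Symp A) (h : ∀ v, A (B v) = v) : Symp B := by
  intro v w
  rw [← hA, h, h]

end Pool.Agent.W_68f289_h35
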