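import Pool.Agent.W_68f289_h35.ApA
import Pool.Agent.W_68f289_h35.SyA

/-!
Hamiltonian translations.
-/

open Set Metric Topology Pool.Agent.W_MP_68f289_gt MeasureTheory Filter
open scoped NNReal ContDiff

namespace Pool.Agent.W_68f289_h35

variable {n : ℕ}

/-- Hamiltonian translations. The set `S = {x + s (q - p) : x ∈ closedBall p ρ, 0 ≤ s ≤ 1}` is compact
and contained in the open convex set `Bl n`. Take the linear function `l x = om (q - p) x` written out
(so that `XH l = q - p` up to sign), a smooth cut-off `ζ` with compact support in `Bl n`, equal to `1` near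
`S` (`exists_contDiff_tsupport_subset` or `exists_smooth_one_nhds_of_interior`-type lemmas), and the
library flow of `ζ * l` (`Adm.ev`, `isHam_ev`); for `x ∈ closedBall p ρ` the curve `x + s (q - p)` is the
integral curve (`Good.sol_eq`). The library has similar moves in `Swindle.lean`/`Twist.lean`. -/
theorem exists_translation {p q : E n} {ρ : ℝ} (hρ : 0 < ρ) (hp : closedBall p ρ ⊆ Bl n)
    (hq : closedBall q ρ ⊆ Bl n) :
    ∃ g : E n ≃ₜ E n, IsHam n g ∧ ∀ x ∈ closedBall p ρ, g x = x + (q - p) := by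
  obtain ⟨B, hB⟩ := exists_om_clm n
  set v : E n := q - p with hv
  -- the linear Hamiltonian
  have hXl : ∀ z : E n, XH (fun x => B v x) z = v := by
    intro z
    have h1 : ∀ w, om (XH (fun x => B v x) z + (-1 : ℝ) • v) w = 0 := by
      intro w
      rw [om_add_left, om_smul_left, om_XH, ← hB v w]
      have h2 : fderiv ℝ (fun x => B v x) z = B v := (B v).fderiv
      rw [h2]
      ring
    have h3 := om_nondeg h1
    rw [neg_one_smul, add_neg_eq_zero] at h3
    exact h3
  -- the compact set of the translates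
  set S : Set (E n) := (fun y : E n × ℝ => y.1 + y.2 • v) '' (closedBall p ρ ×ˢ Icc (0 : ℝ) 1)
    with hS
  have hSc : IsCompact S :=
    ((isCompact_closedBall p ρ).prod isCompact_Icc).image (by fun_prop)
  have hSB : S ⊆ Bl n := by
    rintro _ ⟨⟨x, s⟩, ⟨hx, hs⟩, rfl⟩
    have hx1 : en x < 1 := mem_Bl.1 (hp hx)
    have hx2 : en (x + v) < 1 := by
      refine mem_Bl.1 (hq ?_)
      rw [mem_closedBall, dist_eq_norm] at hx ⊢
      have e : x + v - q = x - p := by rw [hv]; abel
      rw [e]; exact hx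
    change x + s • v ∈ Bl n
    rw [mem_Bl]
    have e : x + s • v = (1 - s) • x + s • (x + v) := by module
    rw [e]
    refine lt_of_le_of_lt (en_add _ _) ?_
    rw [en_smul, en_smul, abs_of_nonneg (by linarith [hs.2]), abs_of_nonneg hs.1]
    have hs1 := hs.1
    have hs2 := hs.2
    rcases eq_or_lt_of_le hs1 with h | h
    · have hs0 : s = 0 := h.symm
      subst hs0
      simpa using hx1
    · have h1 : s * en (x + v) < s * 1 := mul_lt_mul_of_pos_left hx2 h
      have h2 : (1 - s) * en x ≤ (1 - s) * 1 := mul_le_mul_of_nonneg_left hx1.le (by linarith)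
      linarith
  obtain ⟨r, hr0, hr1, hSr⟩ := exists_CB hSc hSB
  -- the cut-off function
  set a : ℝ := (1 + r ^ 2) / 2 with ha
  have hr2 : r ^ 2 < 1 := pow_lt_one₀ hr0.le hr1 two_ne_zero
  set R : ℝ := Real.sqrt ((1 + a) / 2) with hR
  have hRa : R ^ 2 = (1 + a) / 2 := Real.sq_sqrt (by rw [ha]; positivity)
  have ha1 : a < 1 := by rw [ha]; linarith
  have hra : r ^ 2 < a := by rw [ha]; linarith
  have hR0 : 0 ≤ R := Real.sqrt_nonneg _
  have hR1 : R < 1 := by
    have : R ^ 2 < 1 := by rw [hRa]; linarith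
    by_contra hcon
    push Not at hcon
    have := one_le_pow₀ (n := 2) hcon
    linarith
  set ζ : E n → ℝ := fun x => Real.smoothTransition ((R ^ 2 - qf x) / (R ^ 2 - a)) with hζ
  have hRapos : 0 < R ^ 2 - a := by rw [hRa]; linarith
  have hζs : ContDiff ℝ ((⊤ : ℕ∞) : WithTop ℕ∞) ζ :=
    Real.smoothTransition.contDiff.comp ((contDiff_const.sub qf_smooth).div_const _)
  have hζ1 : ∀ x, qf x < a → ζ x = 1 := by
    intro x hx
    simp only [hζ]
    apply Real.smoothTransition.one_of_one_le
    rw [one_le_div hRapos]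
    linarith
  have hζ0 : ∀ x, x ∉ CB n R → ζ x = 0 := by
    intro x hx
    simp only [hζ]
    apply Real.smoothTransition.zero_of_nonpos
    refine div_nonpos_of_nonpos_of_nonneg ?_ hRapos.le
    have : R ^ 2 < qf x := not_le.1 hx
    linarith
  have hA : Adm n (fun (_ : ℝ) x => ζ x * B v x) (CB n R) := by
    refine ⟨?_, isCompact_CB R, CB_sub hR0 hR1, ?_⟩
    · exact (hζs.comp contDiff_snd).mul ((B v).contDiff.comp contDiff_snd)
    · intro _ x hx
      rw [hζ0 x hx, zero_mul]
  have hXS : ∀ z ∈ S, XH (fun x => ζ x * B v x) z = v := by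
    intro z hz
    refine Eq.trans (XH_congr ?_) (hXl z)
    have hz1 : qf z ≤ r ^ 2 := hSr hz
    have ho : IsOpen {x : E n | qf x < a} := isOpen_lt qf_smooth.continuous continuous_const
    filter_upwards [ho.mem_nhds (show z ∈ {x : E n | qf x < a} from lt_of_le_of_lt hz1 hra)] with y hy
    rw [hζ1 y hy, one_mul]
  refine ⟨hA.ev ⟨0, by simp⟩ ⟨1, by simp⟩, isHam_ev hA _ _, fun x hx => ?_⟩
  have hIC : IC (fun t => XH ((fun (_ : ℝ) x => ζ x * B v x) t)) (fun s => x + s • v) := by
    intro s hs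
    have h1 : XH (fun x => ζ x * B v x) (x + s • v) = v := hXS _ ⟨(x, s), ⟨hx, hs⟩, rfl⟩
    change HasDerivWithinAt (fun s : ℝ => x + s • v) (XH (fun x => ζ x * B v x) (x + s • v))
      (Icc 0 1) s
    rw [h1]
    have h2 : HasDerivAt (fun s : ℝ => x + s • v) ((1 : ℝ) • v) s :=
      ((hasDerivAt_id s).smul_const v).const_add x
    rw [one_smul] at h2
    exact h2.hasDerivWithinAt
  have h3 := hA.good.sol_eq (s := ⟨0, by simp⟩) (x := x) hIC (by simp) (t := 1) (by simp)
  change hA.good.sol ⟨0, by simp⟩ x ((⟨1, by simp⟩ : Icc (0 : ℝ) 1) : ℝ) = x + v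
  rw [h3, one_smul]

end Pool.Agent.W_68f289_h35
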