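import Pool.Agent.W_68f289_h35.ApB

/-!
Bump functions.
-/

open Set Metric Topology Pool.Agent.W_MP_68f289_gt MeasureTheory Filter
open scoped NNReal ContDiff

namespace Pool.Agent.W_68f289_h35

variable {n : ℕ}

/-- a bump function with integral one -/
theorem exists_bump (n : ℕ) : ∃ b : E n → ℝ, ContDiff ℝ ((⊤ : ℕ∞) : WithTop ℕ∞) b ∧
    (∃ K : Set (E n), IsCompact K ∧ K ⊆ Bl n ∧ ∀ x, x ∉ K → b x = 0) ∧ ∫ x, b x = 1 := by
  have h0 : (0 : E n) ∈ Bl n := by rw [mem_Bl, en_zero]; norm_num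
  obtain ⟨r, hr, hrB⟩ := Metric.nhds_basis_closedBall.mem_iff.1 (isOpen_Bl.mem_nhds h0)
  let f : ContDiffBump (0 : E n) := ⟨r / 2, r, by positivity, by linarith⟩
  refine ⟨f.normed volume, f.contDiff_normed, ⟨closedBall 0 r, isCompact_closedBall _ _, hrB, ?_⟩,
    f.integral_normed⟩
  intro x hx
  have h1 : x ∉ Function.support (f.normed volume) := by
    rw [f.support_normed_eq]
    exact fun h => hx (ball_subset_closedBall h)
  simpa using h1

end Pool.Agent.W_68f289_h35
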