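import Pool.Agent.W_MP_68f289_gt.Flow

/-!
Bounds for compactly supported smooth fields.
-/

open Set Metric Topology Pool.Agent.W_MP_68f289_gt
open scoped NNReal ContDiff

namespace Pool.Agent.W_68f289_h35

/-- smooth time dependent vector fields supported in the compact set `K` -/
structure CField {V : Type} [NormedAddCommGroup V] [NormedSpace ℝ V] (X : ℝ → V → V)
    (K : Set V) : Prop where
  smooth : ContDiff ℝ ((⊤ : ℕ∞) : WithTop ℕ∞) (Function.uncurry X)
  comp : IsCompact K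
  supp : ∀ (t : ℝ) (x : V), x ∉ K → X t x = 0

variable {V : Type} [NormedAddCommGroup V] [NormedSpace ℝ V] {X : ℝ → V → V} {K : Set V}

/-- The space derivative is jointly smooth. Proof: `ContDiff.fderiv` as in `Adm.exists_good` (library
`Pool/Agent/W_MP_68f289_gt/Ham.lean`). -/
lemma CField.contDiff_fderiv (hX : CField X K) : ContDiff ℝ ((⊤ : ℕ∞) : WithTop ℕ∞)
    (fun p : ℝ × V => fderiv ℝ (X p.1) p.2) := by
  have h1 : ContDiff ℝ ((⊤ : ℕ∞) : WithTop ℕ∞) (fun q : (ℝ × V) × V => X q.1.1 q.2) :=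
    hX.smooth.comp ((contDiff_fst.comp contDiff_fst).prodMk contDiff_snd)
  exact ContDiff.fderiv (𝕜 := ℝ) (f := fun (p : ℝ × V) (y : V) => X p.1 y)
      (g := fun p => p.2) (m := ((⊤ : ℕ∞) : WithTop ℕ∞)) (n := ((⊤ : ℕ∞) : WithTop ℕ∞))
      h1 contDiff_snd (by simp)

lemma CField.CF_cont2 (hX : CField X K) :
    Continuous (fun p : ℝ × V => fderiv ℝ (fderiv ℝ (X p.1)) p.2) := by
  have h1 : ContDiff ℝ ((⊤ : ℕ∞) : WithTop ℕ∞)
      (fun q : (ℝ × V) × V => fderiv ℝ (X q.1.1) q.2) :=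
    hX.contDiff_fderiv.comp ((contDiff_fst.comp contDiff_fst).prodMk contDiff_snd)
  exact (ContDiff.fderiv (𝕜 := ℝ) (f := fun (p : ℝ × V) (y : V) => fderiv ℝ (X p.1) y)
      (g := fun p => p.2) (m := ((⊤ : ℕ∞) : WithTop ℕ∞)) (n := ((⊤ : ℕ∞) : WithTop ℕ∞))
      h1 contDiff_snd (by simp)).continuous

/-- Off `K` the space derivative vanishes (`K` is closed, so `X t` vanishes near `x`). -/
lemma CField.fderiv_off (hX : CField X K) (t : ℝ) {x : V} (hx : x ∉ K) :
    fderiv ℝ (X t) x = 0 := by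
  have e : X t =ᶠ[𝓝 x] fun _ => (0 : V) := by
    filter_upwards [hX.comp.isClosed.isOpen_compl.mem_nhds hx] with y hy
    exact hX.supp t y hy
  rw [e.fderiv_eq, fderiv_fun_const]
  rfl

lemma CField.CF_off2 (hX : CField X K) (t : ℝ) {x : V} (hx : x ∉ K) :
    fderiv ℝ (fderiv ℝ (X t)) x = 0 := by
  have e : fderiv ℝ (X t) =ᶠ[𝓝 x] fun _ => (0 : V →L[ℝ] V) := by
    filter_upwards [hX.comp.isClosed.isOpen_compl.mem_nhds hx] with y hy
    exact hX.fderiv_off t hy
  rw [e.fderiv_eq, fderiv_fun_const]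
  rfl

/-- A compactly supported smooth field is bounded and Lipschitz on `[0, 1]`, with bounds on the
derivative and on the second order Taylor remainder. Proof: `X`, its space derivative and the space
derivative of that are continuous, hence bounded by some constants on the compact set `[0,1] × K`, and
vanish off `K`; then the mean value inequality (`lipschitzWith_of_nnnorm_fderiv_le`) for `X t` and for
`fderiv ℝ (X t)`; for the last item apply the mean value inequality on the segment to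
`w ↦ X t (x + w) - fderiv ℝ (X t) x w` (`Convex.norm_image_sub_le_of_norm_fderiv_le`, the derivative
at a point `x + s w` is `fderiv ℝ (X t) (x + s w) - fderiv ℝ (X t) x`, of norm at most `C ‖w‖`). See
`Adm.exists_good` in the library for the first part. -/
lemma CField.exists_bounds (hX : CField X K) : ∃ C : ℝ≥0, Good X C ∧
    (∀ t ∈ Icc (0 : ℝ) 1, ∀ x, ‖fderiv ℝ (X t) x‖ ≤ C) ∧
    ∀ t ∈ Icc (0 : ℝ) 1, ∀ x w, ‖X t (x + w) - X t x - fderiv ℝ (X t) x w‖ ≤ C * ‖w‖ ^ 2 := by
  have hc : Continuous (fun p : ℝ × V => X p.1 p.2) := hX.smooth.continuous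
  have hK : IsCompact (Icc (0 : ℝ) 1 ×ˢ K) := isCompact_Icc.prod hX.comp
  have hfd : Continuous (fun p : ℝ × V => fderiv ℝ (X p.1) p.2) := hX.contDiff_fderiv.continuous
  obtain ⟨C1, hC1⟩ := hK.exists_bound_of_continuousOn hc.continuousOn
  obtain ⟨C2, hC2⟩ := hK.exists_bound_of_continuousOn hfd.continuousOn
  obtain ⟨C3, hC3⟩ := hK.exists_bound_of_continuousOn hX.CF_cont2.continuousOn
  have hXd : ∀ t, Differentiable ℝ (X t) := fun t =>
    (hX.smooth.comp (contDiff_const.prodMk contDiff_id)).differentiable (by simp)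
  have hXd2 : ∀ t, Differentiable ℝ (fderiv ℝ (X t)) := fun t =>
    (hX.contDiff_fderiv.comp (contDiff_const.prodMk contDiff_id)).differentiable (by simp)
  set C : ℝ≥0 := max (Real.toNNReal C1) (max (Real.toNNReal C2) (Real.toNNReal C3)) with hC
  have hCC1 : C1 ≤ (C : ℝ) :=
    (Real.le_coe_toNNReal C1).trans (NNReal.coe_le_coe.2 (le_max_left _ _))
  have hCC2 : C2 ≤ (C : ℝ) := (Real.le_coe_toNNReal C2).trans
    (NNReal.coe_le_coe.2 ((le_max_left _ _).trans (le_max_right _ _)))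
  have hCC3 : C3 ≤ (C : ℝ) := (Real.le_coe_toNNReal C3).trans
    (NNReal.coe_le_coe.2 ((le_max_right _ _).trans (le_max_right _ _)))
  have hb1 : ∀ t ∈ Icc (0 : ℝ) 1, ∀ x, ‖fderiv ℝ (X t) x‖ ≤ C := by
    intro t ht x
    by_cases hx : x ∈ K
    · exact (hC2 (t, x) ⟨ht, hx⟩).trans hCC2
    · rw [hX.fderiv_off t hx, norm_zero]
      exact C.2
  have hb2 : ∀ t ∈ Icc (0 : ℝ) 1, ∀ x, ‖fderiv ℝ (fderiv ℝ (X t)) x‖ ≤ C := by
    intro t ht x
    by_cases hx : x ∈ K
    · exact (hC3 (t, x) ⟨ht, hx⟩).trans hCC3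
    · rw [hX.CF_off2 t hx, norm_zero]
      exact C.2
  refine ⟨C, ⟨fun x => ?_, fun t ht => ?_, fun t ht x => ?_⟩, hb1, ?_⟩
  · exact (hc.comp (continuous_id.prodMk continuous_const)).continuousOn
  · refine lipschitzWith_of_nnnorm_fderiv_le (𝕜 := ℝ) (hXd t) fun x => ?_
    rw [← NNReal.coe_le_coe, coe_nnnorm]
    exact hb1 t ht x
  · by_cases hx : x ∈ K
    · exact (hC1 (t, x) ⟨ht, hx⟩).trans hCC1
    · rw [hX.supp t x hx, norm_zero]
      exact C.2
  · intro t ht x w
    have hL : LipschitzWith C (fderiv ℝ (X t)) := by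
      refine lipschitzWith_of_nnnorm_fderiv_le (𝕜 := ℝ) (hXd2 t) fun x => ?_
      rw [← NNReal.coe_le_coe, coe_nnnorm]
      exact hb2 t ht x
    have h1 : ∀ y ∈ closedBall x ‖w‖, HasFDerivWithinAt
        (fun y => X t y - fderiv ℝ (X t) x y) (fderiv ℝ (X t) y - fderiv ℝ (X t) x)
        (closedBall x ‖w‖) y := by
      intro y _
      exact ((hXd t y).hasFDerivAt.sub (fderiv ℝ (X t) x).hasFDerivAt).hasFDerivWithinAt
    have h2 : ∀ y ∈ closedBall x ‖w‖, ‖fderiv ℝ (X t) y - fderiv ℝ (X t) x‖ ≤ C * ‖w‖ := by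
      intro y hy
      rw [← dist_eq_norm]
      refine (hL.dist_le_mul y x).trans ?_
      exact mul_le_mul_of_nonneg_left (mem_closedBall.1 hy) C.2
    have h3 := Convex.norm_image_sub_le_of_norm_hasFDerivWithin_le h1 h2
      (convex_closedBall x ‖w‖) (mem_closedBall_self (norm_nonneg w))
      (show x + w ∈ closedBall x ‖w‖ by
        rw [mem_closedBall, dist_eq_norm, add_sub_cancel_left])
    have h4 : X t (x + w) - X t x - fderiv ℝ (X t) x w =
        (X t (x + w) - fderiv ℝ (X t) x (x + w)) - (X t x - fderiv ℝ (X t) x x) := by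
      rw [map_add]
      abel
    rw [h4]
    refine h3.trans (le_of_eq ?_)
    rw [add_sub_cancel_left]
    ring

end Pool.Agent.W_68f289_h35
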