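import Pool.Agent.W_68f289_h35.ZnE
import Pool.Agent.W_68f289_h35.ApC

/-!
Moving bumps, finite sums.
-/

open Set Metric Topology Pool.Agent.W_MP_68f289_gt MeasureTheory Filter
open scoped NNReal ContDiff

namespace Pool.Agent.W_68f289_h35

variable {n : ℕ}

lemma CoA_ad {β : E n → ℝ} (hβ : ContDiff ℝ ((⊤ : ℕ∞) : WithTop ℕ∞) β) {ρ : ℝ}
    (h0 : ∀ x, x ∉ closedBall 0 ρ → β x = 0) {p : E n} (hp : closedBall p ρ ⊆ Bl n)
    {a : ℝ → ℝ} (ha : ContDiff ℝ ((⊤ : ℕ∞) : WithTop ℕ∞) a) :
    Ad (fun t x => a t * β (x - p)) := by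
  refine ⟨?_, closedBall p ρ, isCompact_closedBall p ρ, hp, ?_⟩
  · exact (ha.comp contDiff_fst).mul (hβ.comp (contDiff_snd.sub contDiff_const))
  · intro t x hx
    have h1 : x - p ∉ closedBall 0 ρ := by
      rw [mem_closedBall, dist_zero_right]
      rw [mem_closedBall, dist_eq_norm] at hx
      exact hx
    change a t * β (x - p) = 0
    rw [h0 _ h1, mul_zero]

section

variable (hn : 1 ≤ n) {N : Subgroup (Hm n)} (hN : N.Normal) (hN1 : N ≠ ⊥) (hNc : HClosed N)

include hn hN hN1 hNc

/-- moving a bump: `a t * (β (x - p) - β (x - q))` is in `Zn N`. Take `g` from `exists_translation`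
(from `closedBall q ρ`... to `closedBall p ρ`): `β (g x - p) = β (x - q)` for all `x`, on the ball
because `g` is the translation, off the ball because then `g x ∉ closedBall p ρ`; `Zn.conj`. -/
lemma zn_move {β : E n → ℝ} (hβ : ContDiff ℝ ((⊤ : ℕ∞) : WithTop ℕ∞) β) {ρ : ℝ} (hρ : 0 < ρ)
    (h0 : ∀ x, x ∉ closedBall 0 ρ → β x = 0) {p q : E n} (hp : closedBall p ρ ⊆ Bl n)
    (hq : closedBall q ρ ⊆ Bl n) {a : ℝ → ℝ} (ha : ContDiff ℝ ((⊤ : ℕ∞) : WithTop ℕ∞) a) :
    Zn N (fun t x => a t * β (x - p) - a t * β (x - q)) := by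
  obtain ⟨g, hg, hgx⟩ := exists_translation hρ hq hp
  have h1 := Zn.conj hn hN hN1 hNc (CoA_ad hβ h0 hp ha) hg
  have h2 : ∀ x, β (g x - p) = β (x - q) := by
    intro x
    by_cases hx : x ∈ closedBall q ρ
    · rw [hgx x hx]
      congr 1
      abel
    · have h3 : x - q ∉ closedBall (0 : E n) ρ := by
        rw [mem_closedBall, dist_zero_right]
        rw [mem_closedBall, dist_eq_norm] at hx
        exact hx
      have h4 : g x - p ∉ closedBall (0 : E n) ρ := by
        intro h5
        apply hx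
        have h6 : g x - (p - q) ∈ closedBall q ρ := by
          rw [mem_closedBall, dist_zero_right] at h5
          rw [mem_closedBall, dist_eq_norm]
          have e : g x - (p - q) - q = g x - p := by abel
          rw [e]
          exact h5
        have h7 := hgx _ h6
        rw [sub_add_cancel] at h7
        have h8 := g.injective h7
        rwa [h8] at h6
      rw [h0 _ h3, h0 _ h4]
  have h3 : (fun t x => a t * β (x - p) - a t * β (x - q)) =
      fun t x => (fun t x => a t * β (x - p)) t x - (fun t x => a t * β (x - p)) t (g x) := by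
    funext t x
    change a t * β (x - p) - a t * β (x - q) = a t * β (x - p) - a t * β (g x - p)
    rw [h2]
  rw [h3]
  exact h1

/-- finite sums -/
lemma zn_sum {m : ℕ} {F : Fin m → ℝ → E n → ℝ} (hF : ∀ j, Zn N (F j)) :
    Zn N (fun t x => ∑ j, F j t x) := by
  induction m with
  | zero =>
    have hb : Ad (fun _ : ℝ => fun _ : E n => (0 : ℝ)) :=
      ⟨contDiff_const, ∅, isCompact_empty, empty_subset _, fun _ _ _ => rfl⟩
    have h1 := Zn.time (N := N) (a := fun _ => (0 : ℝ)) contDiff_const (by simp) hb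
    have h2 : (fun (t : ℝ) (x : E n) => ∑ j : Fin 0, F j t x) =
        fun t x => (fun _ => (0 : ℝ)) t * (fun _ : E n => (0 : ℝ)) x := by
      funext t x
      simp
    rw [h2]
    exact h1
  | succ m ih =>
    have h1 := Zn.add hn hN hN1 hNc (hF 0) (ih (F := fun j => F j.succ) fun j => hF j.succ)
    have h2 : (fun (t : ℝ) (x : E n) => ∑ j : Fin (m + 1), F j t x) =
        fun t x => F 0 t x + (fun t x => ∑ j : Fin m, F j.succ t x) t x := by
      funext t x
      rw [Fin.sum_univ_succ]
    rw [h2]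
    exact h1

end

end Pool.Agent.W_68f289_h35
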