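import Pool.Agent.W_68f289_h35.CoA

/-!
Hamiltonians with integral zero.
-/

open Set Metric Topology Pool.Agent.W_MP_68f289_gt MeasureTheory Filter
open scoped NNReal ContDiff

namespace Pool.Agent.W_68f289_h35

variable {n : ℕ}

section

variable (hn : 1 ≤ n) {N : Subgroup (Hm n)} (hN : N.Normal) (hN1 : N ≠ ⊥) (hNc : HClosed N)

include hn hN hN1 hNc

/-- Hamiltonians with integral zero. By `approx`, `H` is `C¹`-close to
`∑ a j t β (x - p j)`, which is the sum of the `a j t β (x - p j) - a j t β (x - q)` (`zn_move`), of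
`(∑ a j t - s) β (x - q)`, `s = ∫ ∑ a j`, (`Zn.time`), and of `s β (x - q)`, which is `C¹`-small.
Conclude by `Zn.closed`. -/
theorem zn_of_cal_zero {H : ℝ → E n → ℝ} (hH : Ad H) (h0 : cal H = 0) : Zn N H := by
  obtain ⟨hH1, K, hc, hKB, hK⟩ := hH
  obtain ⟨K', hc', hKB', hKK', happ⟩ := approx hH1 hc hKB hK h0
  refine Zn.closed hn hN hN1 hNc hH1 hc' hKB' (fun t x hx => hK t x (fun h => hx (hKK' h))) ?_
  intro ε hε
  obtain ⟨m, β, ρ, p, q, a, hρ, hβ, hβ0, hq, hp, ha, h1, h2, h3, h4⟩ := happ (ε / 2) (by linarith)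
  set s : ℝ := ∫ t in (0 : ℝ)..1, ∑ j, a j t with hs
  have hsum : ContDiff ℝ ((⊤ : ℕ∞) : WithTop ℕ∞) (fun t => ∑ j, a j t) :=
    ContDiff.sum fun j _ => ha j
  have hβq : ContDiff ℝ ((⊤ : ℕ∞) : WithTop ℕ∞) (fun x : E n => β (x - q)) :=
    hβ.comp (contDiff_id.sub contDiff_const)
  have hvan : ∀ c : E n, closedBall c ρ ⊆ K' → ∀ x, x ∉ K' → β (x - c) = 0 := by
    intro c hcK x hx
    apply hβ0
    intro hx'
    apply hx
    apply hcK
    rw [mem_closedBall, dist_zero_right] at hx'
    rw [mem_closedBall, dist_eq_norm]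
    exact hx'
  have hmove : Zn N (fun t x => ∑ j, (a j t * β (x - p j) - a j t * β (x - q))) :=
    zn_sum hn hN hN1 hNc (F := fun j t x => a j t * β (x - p j) - a j t * β (x - q))
      fun j => zn_move hn hN hN1 hNc hβ hρ hβ0 ((hp j).trans hKB') (hq.trans hKB') (ha j)
  have htime : Zn N (fun t x => ((∑ j, a j t) - s) * β (x - q)) := by
    refine Zn.time (a := fun t => (∑ j, a j t) - s) (b := fun x => β (x - q))
      (hsum.sub contDiff_const) ?_ ?_
    · rw [intervalIntegral.integral_sub (hsum.continuous.intervalIntegrable _ _)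
        intervalIntegrable_const, ← hs]
      simp
    · refine ⟨?_, K', hc', hKB', fun t x hx => hvan q hq x hx⟩
      exact hβq.comp contDiff_snd
  have hadd := Zn.add hn hN hN1 hNc hmove htime
  have hform : ∀ t x, (∑ j, (a j t * β (x - p j) - a j t * β (x - q))) +
      ((∑ j, a j t) - s) * β (x - q) = (∑ j, a j t * β (x - p j)) - s * β (x - q) := by
    intro t x
    rw [Finset.sum_sub_distrib, ← Finset.sum_mul]
    ring
  refine ⟨_, hadd, ?_, ?_, ?_⟩
  · intro t x hx
    rw [hform, hvan q hq x hx, mul_zero, sub_zero]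
    exact Finset.sum_eq_zero fun j _ => by rw [hvan (p j) (hp j) x hx, mul_zero]
  · intro t ht x
    rw [hform]
    have e1 : H t x - ((∑ j, a j t * β (x - p j)) - s * β (x - q)) =
        (H t x - ∑ j, a j t * β (x - p j)) + s * β (x - q) := by ring
    rw [e1]
    calc |(H t x - ∑ j, a j t * β (x - p j)) + s * β (x - q)|
        ≤ |H t x - ∑ j, a j t * β (x - p j)| + |s * β (x - q)| := abs_add_le _ _
      _ ≤ ε / 2 + ε / 2 := add_le_add (h1 t ht x) (h3 (x - q))
      _ = ε := by ring
  · intro t ht x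
    have e1 : (fun x => H t x - ((∑ j, (a j t * β (x - p j) - a j t * β (x - q))) +
        ((∑ j, a j t) - s) * β (x - q))) =
        fun x => (H t x - ∑ j, a j t * β (x - p j)) + s * β (x - q) := by
      funext x
      rw [hform]
      ring
    have hHt : Differentiable ℝ (fun x => H t x) := by
      have h5 : ContDiff ℝ ((⊤ : ℕ∞) : WithTop ℕ∞) (fun x => H t x) :=
        hH1.comp (contDiff_const.prodMk contDiff_id)
      exact h5.differentiable (by simp)
    have hd1 : DifferentiableAt ℝ (fun x => H t x - ∑ j, a j t * β (x - p j)) x := by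
      refine (hHt x).sub ?_
      refine DifferentiableAt.fun_sum fun j _ => ?_
      have h6 : ContDiff ℝ ((⊤ : ℕ∞) : WithTop ℕ∞) (fun x : E n => β (x - p j)) :=
        hβ.comp (contDiff_id.sub contDiff_const)
      exact ((h6.differentiable (by simp)) x).const_mul _
    have hd2 : DifferentiableAt ℝ (fun x : E n => β (x - q)) x :=
      (hβq.differentiable (by simp)) x
    have e2 : fderiv ℝ (fun x => (H t x - ∑ j, a j t * β (x - p j)) + s * β (x - q)) x =
        fderiv ℝ (fun x => H t x - ∑ j, a j t * β (x - p j)) x + s • fderiv ℝ β (x - q) := by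
      rw [fderiv_fun_add hd1 (hd2.const_mul s), fderiv_const_mul hd2, fderiv_comp_sub]
    rw [e1, e2]
    calc ‖fderiv ℝ (fun x => H t x - ∑ j, a j t * β (x - p j)) x + s • fderiv ℝ β (x - q)‖
        ≤ ‖fderiv ℝ (fun x => H t x - ∑ j, a j t * β (x - p j)) x‖ +
          ‖s • fderiv ℝ β (x - q)‖ := norm_add_le _ _
      _ ≤ ε / 2 + ε / 2 := add_le_add (h2 t ht x) (h4 (x - q))
      _ = ε := by ring

end

end Pool.Agent.W_68f289_h35
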