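import Pool.Agent.W_68f289_h35.AlB
import Pool.Agent.W_68f289_h35.Ext

/-!
Abstract extension.
-/

open Set Metric Topology Pool.Agent.W_MP_68f289_gt MeasureTheory Filter
open scoped NNReal ContDiff

namespace Pool.Agent.W_68f289_h35

/-- Abstract extension. `M` is a normal subgroup of `Γ` contained in `S`, `σ` an endomorphism of `Γ` with
`σ S ⊆ S` whose image commutes modulo `M`, and `C : S → ℝ` a homomorphism, trivial on `M`, with
`C (σ u) = κ C u`, `κ ≠ 0`. Then `C` extends to `Γ`. Proof: the image `A` of `Γ → Γ ⧸ M`,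
`g ↦ σ g M`, is commutative, `σ u M ↦ C (σ u)`, `u ∈ S`, is a well defined homomorphism on the image of
`S`, it extends to `A` because `ℝ` is divisible (injective `ℤ`-module, `Module.Baer`, or
`AddCommGrp.injective_of_divisible`; helper29's folder W_68f289_t6 has the extension lemma), and
`g ↦ κ⁻¹` times the extension at `σ g M` extends `C`. -/
theorem extend_hom {Γ : Type} [Group Γ] (S M : Subgroup Γ) (hM : M.Normal) (hMS : M ≤ S)
    (σ : Γ →* Γ) (hσS : ∀ u ∈ S, σ u ∈ S) (hσ : ∀ a b : Γ, σ a * σ b * (σ a)⁻¹ * (σ b)⁻¹ ∈ M)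
    (C : S →* Multiplicative ℝ) (hCM : ∀ u : S, (u : Γ) ∈ M → C u = 1) {κ : ℝ} (hκ : κ ≠ 0)
    (hCσ : ∀ u : S, (C ⟨σ u, hσS u u.2⟩).toAdd = κ * (C u).toAdd) :
    ∃ D : Γ →* Multiplicative ℝ, ∀ u : S, D (u : Γ) = C u := by
  obtain ⟨D, hD⟩ := exists_extend M σ (fun a b => hσ a b) S C (fun x hx hxM => hCM ⟨x, hx⟩ hxM)
    hσS κ hκ (fun h hh => hCσ ⟨h, hh⟩)
  exact ⟨D, fun u => hD u u.2⟩

end Pool.Agent.W_68f289_h35
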