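import Pool.Agent.W_68f289_h35.ExA

/-!
Commutators of homothetic copies.
-/

open Set Metric Topology Pool.Agent.W_MP_68f289_gt MeasureTheory Filter
open scoped NNReal ContDiff

namespace Pool.Agent.W_68f289_h35

/-- the smallest nontrivial normal subgroup of `G n`: library (`sysL`, `Mo`), or the statement of
`Results/MP_68f289_gt/Monolith.lean`. For `r` small (`r = 1/2` is small enough?) the homothetic copies
of two elements, supported in the closed ball of radius `r`, have their commutator in it: if `h` is a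
Hamiltonian diffeo with `h (CB n r)` disjoint from `CB n r` (`exists_displace` below) then
`[α, β] = [[α, h], β]`, because `h α⁻¹ h⁻¹` commutes with `β`, and `[α, h] ∈ M`. -/
theorem exists_small_comm {n : ℕ} (hn : 1 ≤ n) :
    ∃ (r : ℝ) (h0 : 0 < r) (h1 : r ≤ 1), ∀ M : Subgroup (G n), M.Normal → M ≠ ⊥ →
      ∀ a b : G n, (sc n r h0 h1).a a * (sc n r h0 h1).a b * ((sc n r h0 h1).a a)⁻¹ *
        ((sc n r h0 h1).a b)⁻¹ ∈ M := by
  have S := sys (n := n) hn
  obtain ⟨ε, hε, hε1, h⟩ := sc_comm hn (Mo (HamBar n) (Bl n)) S.Mo_normal S.Mo_ne_bot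
  refine ⟨ε, hε, hε1, fun M hM hM1 a b => ?_⟩
  exact S.Mo_le hM1 (fun m _ l hl => hM.conj_mem l hl m) (h ε hε hε1 le_rfl a b)

end Pool.Agent.W_68f289_h35
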