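import Pool.Agent.W_68f289_h35.ExB

/-!
Extension of the Calabi homomorphism.
-/

open Set Metric Topology Pool.Agent.W_MP_68f289_gt MeasureTheory Filter commutatorElement
open scoped NNReal ContDiff

namespace Pool.Agent.W_68f289_h35

/-- elements with a Calabi invariant are hameomorphisms -/
lemma HasCal.mem {n : ℕ} {u : E n ≃ₜ E n} {c : ℝ} (h : HasCal u c) : u ∈ Hameo n := by
  obtain ⟨K, H, ψ, Φ, h1, h2, -⟩ := h
  rw [← h2]
  exact h1.endp_mem

/-- Hameomorphisms as a subgroup of the group of Hamiltonian homeomorphisms. It is normal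
(`HasCal.conj`), invariant under homotheties (`HasCal.homoth`), contains the smallest nontrivial
normal subgroup, and so does the kernel of `C`, which is normal in `G n` because `C` is invariant
under conjugation by elements of `G n` (`HasCal.conj`), and nontrivial (it contains the commutators
of Hamiltonian diffeos, some of which are nontrivial). Apply `extend_hom` with `Γ = G n`,
`S = Hameo n` in `G n`, `M` = kernel of `C`, `σ` = homothety by `r`, `κ = r ^ (2 n + 2)`. -/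
theorem exists_extension {n : ℕ} (hn : 1 ≤ n) {C : Hm n →* Multiplicative ℝ}
    (hC : ∀ (u : Hm n) (c : ℝ), HasCal (u : E n ≃ₜ E n) c ↔ (C u).toAdd = c) :
    ∃ D : G n →* Multiplicative ℝ, ∀ (u : Hm n) (v : G n), (v : E n ≃ₜ E n) = u → D v = C u := by
  let S : Subgroup (G n) := (Hameo n).subgroupOf (HamBar n)
  let C' : S →* Multiplicative ℝ :=
    { toFun := fun x => C ⟨((x : G n) : E n ≃ₜ E n), x.2⟩
      map_one' := C.map_one
      map_mul' := fun x y => C.map_mul ⟨((x : G n) : E n ≃ₜ E n), x.2⟩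
        ⟨((y : G n) : E n ≃ₜ E n), y.2⟩ }
  have hC' : ∀ (x : G n) (hx : x ∈ S) (c : ℝ),
      HasCal (x : E n ≃ₜ E n) c ↔ (C' ⟨x, hx⟩).toAdd = c := fun x hx c => hC ⟨x, hx⟩ c
  have hS : ∀ (x : G n) (c : ℝ), HasCal (x : E n ≃ₜ E n) c → x ∈ S := fun x c h => h.mem
  let N : Subgroup (G n) := C'.ker.map S.subtype
  have hNmem : ∀ x : G n, x ∈ N ↔ HasCal (x : E n ≃ₜ E n) 0 := by
    intro x
    constructor
    · rintro ⟨y, hy, rfl⟩
      refine (hC' (y : G n) y.2 0).2 ?_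
      have h1 : C' y = 1 := hy
      exact congrArg Multiplicative.toAdd h1
    · intro h
      refine ⟨⟨x, hS x 0 h⟩, ?_, rfl⟩
      have h1 := (hC' x (hS x 0 h) 0).1 h
      exact congrArg Multiplicative.ofAdd h1
  have hN : N.Normal := by
    refine ⟨fun m hm g => ?_⟩
    rw [hNmem] at hm ⊢
    exact hm.conj g.2
  have hN1 : N ≠ ⊥ := by
    intro h
    apply (sysL hn (big_Hameo (n := n))).Mo_ne_bot
    rw [eq_bot_iff]
    unfold Mo
    rw [Subgroup.commutator_le]
    intro a _ b _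
    have h1 : C ⁅a, b⁆ = 1 := by
      rw [map_commutatorElement]
      exact commutatorElement_eq_one_iff_mul_comm.2 (mul_comm _ _)
    have h2 : HasCal ((⁅a, b⁆ : Hm n) : E n ≃ₜ E n) 0 :=
      (hC ⁅a, b⁆ 0).2 (congrArg Multiplicative.toAdd h1)
    have h3 : (⟨((⁅a, b⁆ : Hm n) : E n ≃ₜ E n), Hameo_le (⁅a, b⁆ : Hm n).2⟩ : G n) ∈ N :=
      (hNmem _).2 h2
    rw [h, Subgroup.mem_bot] at h3
    rw [Subgroup.mem_bot]
    exact Subtype.ext (congrArg (fun x : G n => (x : E n ≃ₜ E n)) h3)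
  have hhom : ∀ (r : ℝ) (h0 : 0 < r) (h1 : r ≤ 1) (h : G n) (hh : h ∈ S),
      HasCal ((((sc n r h0 h1).a h : G n)) : E n ≃ₜ E n)
        (r ^ (2 * n + 2) * (C' ⟨h, hh⟩).toAdd) := by
    intro r h0 h1 h hh
    exact ((hC' h hh _).2 rfl).homoth h0 h1
  have hσH : ∀ (r : ℝ) (h0 : 0 < r) (h1 : r ≤ 1), ∀ h ∈ S, (sc n r h0 h1).a h ∈ S :=
    fun r h0 h1 h hh => hS _ _ (hhom r h0 h1 h hh)
  obtain ⟨D, hD⟩ := exists_extend_HamBar hn N hN hN1 S C'
    (fun x hx hxN => congrArg Multiplicative.ofAdd ((hC' x hx 0).1 ((hNmem x).1 hxN))) hσH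
    (fun r => r ^ (2 * n + 2)) (fun r h0 _ => (pow_pos h0 _).ne')
    (fun r h0 h1 h hh => (hC' _ (hσH r h0 h1 h hh) _).1 (hhom r h0 h1 h hh))
  refine ⟨D, fun u v huv => ?_⟩
  have hv : v ∈ S := by
    change (v : E n ≃ₜ E n) ∈ Hameo n
    rw [huv]
    exact u.2
  rw [hD v hv]
  exact congrArg C (Subtype.ext huv)

end Pool.Agent.W_68f289_h35
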