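import Pool.Agent.W_68f289_h35.FinB

/-!
The Calabi alternative.
-/

open Set Metric Topology Pool.Agent.W_MP_68f289_gt MeasureTheory Filter
open scoped NNReal ContDiff

namespace Pool.Agent.W_68f289_h35

variable {n : ℕ}

theorem alternative (hn : 1 ≤ n) : Xor' (Canonical n) (Flexible n) := by
  have hex : ¬ (Canonical n ∧ Flexible n) := by
    rintro ⟨⟨C, hC, -⟩, h, -⟩
    obtain ⟨K, H, ψ, Φ, h1, h2, h3⟩ := h 1
    have h4 := hC K H ψ Φ h1 1 h2.symm
    have h5 := tendsto_nhds_unique h3 h4
    rw [map_one] at h5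
    exact one_ne_zero h5
  have key : Canonical n ∨ Flexible n := by
    rcases loops_alt n with h | h
    · left
      obtain ⟨C, hC⟩ := exists_hom hn h
      obtain ⟨D, hD⟩ := exists_extension hn hC
      have hC1 : C ≠ 1 := by
        rintro rfl
        obtain ⟨u, -, hu⟩ := exists_isHam_hasCal n 1
        have := (hC u 1).1 hu
        exact zero_ne_one this
      refine ⟨C, ?_, ⟨D, hD⟩, fun N hN => closed_normal_iff hn hC N hN, not_simple hn hC1,
        not_simple' hn (D := D) ?_⟩
      · intro K H ψ Φ h1 u hu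
        obtain ⟨c, hc⟩ := h1.cal_tendsto hn
        have : (C u).toAdd = c := (hC u c).1 ⟨K, H, ψ, Φ, h1, hu.symm, hc⟩
        rw [this]
        exact hc
      · rintro rfl
        apply hC1
        ext u
        exact congrArg Multiplicative.toAdd (hD u ⟨u, Hameo_le u.2⟩ rfl).symm
    · right
      refine ⟨fun c => h c, fun N hN hN1 hNc => ?_⟩
      rw [eq_top_iff]
      intro u _
      obtain ⟨c, hc⟩ := exists_hasCal hn u
      have := hc.mul (h (-c))
      rw [mul_one, add_neg_cancel] at this
      obtain ⟨K, H, ψ, Φ, h1, h2, h3⟩ := this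
      exact mem_of_tendsto_zero hn hN hN1 hNc h1 h3 h2.symm
  rcases key with h | h
  · exact Or.inl ⟨h, fun h' => hex ⟨h, h'⟩⟩
  · exact Or.inr ⟨h, fun h' => hex ⟨h', h⟩⟩

end Pool.Agent.W_68f289_h35
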