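import Pool.Agent.W_68f289_h35.FinA

/-!
Not simple.
-/

open Set Metric Topology Pool.Agent.W_MP_68f289_gt MeasureTheory Filter
open scoped NNReal ContDiff

namespace Pool.Agent.W_68f289_h35

variable {n : ℕ}

theorem FinB_aux (hn : 1 ≤ n) {L : Subgroup (E n ≃ₜ E n)} (hL : Big L)
    {D : L →* Multiplicative ℝ} (hD : D ≠ 1) : ¬ IsSimpleGroup L := by
  intro hs
  have S := sysL hn hL
  rcases hs.eq_bot_or_eq_top_of_normal D.ker inferInstance with h | h
  · apply S.Mo_ne_bot
    rw [eq_bot_iff, ← h, Mo, Subgroup.commutator_le]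
    intro a _ b _
    rw [MonoidHom.mem_ker, map_commutatorElement, commutatorElement_eq_one_iff_mul_comm]
    exact mul_comm _ _
  · apply hD
    ext x
    have hx : x ∈ D.ker := by
      rw [h]
      exact Subgroup.mem_top _
    rw [MonoidHom.mem_ker] at hx
    rw [hx]
    rfl

/-- a group with a nontrivial real character with nontrivial kernel is not simple; `G n` and `Hm n`
have noncommuting elements (library: `comm_mem` for the trivial... or `Mo ≠ ⊥`), so the kernel is not
trivial -/
theorem not_simple (hn : 1 ≤ n) {C : Hm n →* Multiplicative ℝ} (hC1 : C ≠ 1) :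
    ¬ IsSimpleGroup (Hm n) :=
  FinB_aux hn big_Hameo hC1

theorem not_simple' (hn : 1 ≤ n) {D : G n →* Multiplicative ℝ} (hD : D ≠ 1) :
    ¬ IsSimpleGroup (G n) :=
  FinB_aux hn big_HamBar hD

end Pool.Agent.W_68f289_h35
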