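import Pool.Agent.W_68f289_h35.AlB
import Pool.Agent.W_MP_68f289_gt.Inf
import Pool.Agent.W_68f289_t6.Haar

/-!
If the Calabi homomorphism extends canonically to the hameomorphisms, then there is a Hamiltonian
homeomorphism of the ball which is not a hameomorphism: a self-similar twist.
-/

open Set Metric Topology Pool.Agent.W_MP_68f289_gt MeasureTheory Filter
open scoped NNReal ContDiff

namespace Pool.Agent.W_68f289_h35

variable {n : ℕ}

/-- spherical shells -/
def shell (n k : ℕ) : Set (E n) := {z | (1 / 2 : ℝ) ^ (k + 1) < en z ∧ en z < (1 / 2 : ℝ) ^ k}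

lemma shell_dis : Dis (shell n) where
  disj j k hjk := by
    rw [Set.disjoint_left]
    rintro x ⟨h1, h2⟩ ⟨h3, h4⟩
    have key : ∀ a b : ℕ, a < b → (1 / 2 : ℝ) ^ (a + 1) < en x → en x < (1 / 2 : ℝ) ^ b →
        False := by
      intro a b hab h5 h6
      have : (1 / 2 : ℝ) ^ b ≤ (1 / 2 : ℝ) ^ (a + 1) :=
        pow_le_pow_of_le_one (by norm_num) (by norm_num) hab
      linarith
    rcases lt_or_gt_of_ne hjk with h | h
    · exact key j k h h1 h4
    · exact key k j h h3 h2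
  small ε hε := by
    obtain ⟨N, hN⟩ := exists_pow_lt_of_lt_one (show 0 < ε / 2 by positivity)
      (show (1 / 2 : ℝ) < 1 by norm_num)
    refine ⟨N, fun k hk x hx y hy => ?_⟩
    have h1 : (1 / 2 : ℝ) ^ k ≤ (1 / 2 : ℝ) ^ N :=
      pow_le_pow_of_le_one (by norm_num) (by norm_num) hk
    have h2 := norm_le_en x
    have h3 := norm_le_en y
    have h4 := hx.2
    have h5 := hy.2
    rw [dist_eq_norm]
    linarith [norm_sub_le x y]

lemma continuous_en : Continuous (en : E n → ℝ) :=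
  Real.continuous_sqrt.comp qf_smooth.continuous

lemma isOpen_shell (k : ℕ) : IsOpen (shell n k) :=
  (isOpen_lt continuous_const continuous_en).inter (isOpen_lt continuous_en continuous_const)

lemma smul_mem_shell {k : ℕ} {x : E n} : (1 / 2 : ℝ) • x ∈ shell n (k + 1) ↔ x ∈ shell n k := by
  unfold shell
  simp only [mem_ofPred_eq, en_smul, abs_of_pos (show (0 : ℝ) < 1 / 2 by norm_num), pow_succ]
  constructor
  · rintro ⟨h1, h2⟩
    constructor <;> linarith
  · rintro ⟨h1, h2⟩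
    constructor <;> linarith

/-- a smooth bump with integral one and support in the outermost shell -/
lemma exists_bump_shell (hn : 1 ≤ n) : ∃ b : E n → ℝ,
    ContDiff ℝ ((⊤ : ℕ∞) : WithTop ℕ∞) b ∧ (∃ K : Set (E n), IsCompact K ∧ K ⊆ shell n 0 ∧
      ∀ x, x ∉ K → b x = 0) ∧ ∫ x, b x = 1 := by
  obtain ⟨i⟩ : Nonempty (Fin n) := ⟨⟨0, hn⟩⟩
  set p : E n := (Pi.single i (3 / 4 : ℝ), 0) with hp
  have hen : en p = 3 / 4 := by
    have h1 : qf p = (3 / 4) ^ 2 := by
      unfold qf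
      rw [Finset.sum_eq_single i]
      · simp [hp]
      · intro j _ hj
        simp [hp, Pi.single_eq_of_ne hj]
      · simp
    rw [en, h1, Real.sqrt_sq (by norm_num)]
  have hps : p ∈ shell n 0 := by
    unfold shell
    rw [mem_ofPred_eq, hen]
    norm_num
  obtain ⟨ρ, hρ, hρs⟩ := Metric.isOpen_iff.1 (isOpen_shell (n := n) 0) p hps
  let f : ContDiffBump p := ⟨ρ / 4, ρ / 2, by positivity, by linarith⟩
  refine ⟨f.normed volume, f.contDiff_normed, ⟨closedBall p (ρ / 2), isCompact_closedBall _ _,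
    (closedBall_subset_ball (by linarith)).trans hρs, fun x hx => ?_⟩, f.integral_normed⟩
  have h1 : tsupport (f.normed volume) = closedBall p (ρ / 2) := f.tsupport_normed_eq
  rw [← h1] at hx
  exact image_eq_zero_of_notMem_tsupport hx

/-- a Hamiltonian diffeomorphism supported in the outermost shell with Calabi invariant one -/
lemma exists_shell_hasCal (hn : 1 ≤ n) : ∃ u : Hm n, IsHam n (u : E n ≃ₜ E n) ∧
    HasCal (u : E n ≃ₜ E n) 1 ∧ ∀ x, x ∉ shell n 0 → (u : E n ≃ₜ E n) x = x := by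
  obtain ⟨b, hb, ⟨K, hc, hKs, hK⟩, h1⟩ := exists_bump_shell hn
  have hKB : K ⊆ Bl n := by
    intro x hx
    rw [mem_Bl]
    have := (hKs hx).2
    simpa using this
  have hs : ContDiff ℝ ((⊤ : ℕ∞) : WithTop ℕ∞)
      (Function.uncurry (fun (_ : ℝ) (x : E n) => b x)) := hb.comp contDiff_snd
  have h0 : ∀ t : ℝ, ∀ x, x ∉ K → (fun (_ : ℝ) (x : E n) => b x) t x = 0 :=
    fun _ x hx => hK x hx
  obtain ⟨ψ, hψ⟩ := exists_flow hs hc hKB h0
  have hT := TPath.of_HIso hψ hc hKB h0
  refine ⟨tm hψ, tm_isHam hψ, ⟨K, _, _, _, hT, rfl, ?_⟩, fun x hx => ?_⟩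
  · have h2 : cal (fun (_ : ℝ) (x : E n) => b x) = 1 := by
      unfold cal
      simp [h1]
    simp only [h2]
    exact tendsto_const_nhds
  · have h3 := hT.off ⟨1, by simp⟩ (x := x) (fun h => hx (hKs h))
    exact h3

lemma HasCal.pow {u : E n ≃ₜ E n} {c : ℝ} (hu : HasCal u c) (m : ℕ) :
    HasCal (u ^ m) (m * c) := by
  induction m with
  | zero => simpa using hasCal_one
  | succ m ih =>
    have := ih.mul hu
    rw [pow_succ]
    have e : ((m + 1 : ℕ) : ℝ) * c = m * c + c := by push_cast; ring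
    rw [e]
    exact this

/-- scaling by `1 / 2` -/
noncomputable def hf (n : ℕ) : G n →* HamBar n :=
  (sc n (1 / 2) (by norm_num) (by norm_num)).a

lemma hf_smul (g : G n) (x : E n) : hf n g • x = (1 / 2 : ℝ) • (g • ((1 / 2 : ℝ)⁻¹ • x)) :=
  sc_smul _ _ g x

lemma hf_smul' (g : G n) (x : E n) : hf n g • ((1 / 2 : ℝ) • x) = (1 / 2 : ℝ) • (g • x) := by
  rw [hf_smul, inv_smul_smul₀ (by norm_num)]

lemma hf_pow_smul' (g : G n) (m : ℕ) (x : E n) :
    (hf n g) ^ m • ((1 / 2 : ℝ) • x) = (1 / 2 : ℝ) • (g ^ m • x) := by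
  rw [← map_pow, hf_smul']

lemma pow_fix {g : G n} {x : E n} (h : g • x = x) (m : ℕ) : g ^ m • x = x := by
  induction m with
  | zero => rw [pow_zero, one_smul]
  | succ m ih => rw [pow_succ, mul_smul, h, ih]

lemma pow_eq_on {g h : G n} {W : Set (E n)} (hg : Off g W) (e : ∀ x ∈ W, h • x = g • x) (m : ℕ)
    {x : E n} (hx : x ∈ W) : h ^ m • x = g ^ m • x := by
  induction m generalizing x with
  | zero => rw [pow_zero, pow_zero]
  | succ m ih => rw [pow_succ, mul_smul, e x hx, ih (hg.smul_mem hx), pow_succ, mul_smul]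

/-- the self-similar twist -/
lemma exists_twist (u : G n) (hu : Off u (shell n 0)) (m : ℕ) :
    ∃ h : G n, h = (hf n h) ^ m * u := by
  obtain ⟨R, hR0, hR1, huR⟩ := exists_Gn u
  -- the factors
  set g : ℕ → G n := fun k => Nat.rec u (fun _ v => (hf n v) ^ m) k with hg
  have g0 : g 0 = u := rfl
  have gs : ∀ k, g (k + 1) = (hf n (g k)) ^ m := fun k => rfl
  have hmem : g ∈ Sg (shell n) R := by
    intro k
    induction k with
    | zero => exact ⟨huR, hu⟩
    | succ k ih =>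
      rw [gs]
      refine ⟨pow_mem (sc_Gn _ _ hR0.le ih.1) m, ?_⟩
      have h1 : Off (hf n (g k)) (shell n (k + 1)) := by
        intro x hx
        rw [hf_smul]
        have h2 : (1 / 2 : ℝ)⁻¹ • x ∉ shell n k := by
          intro h
          apply hx
          rw [← smul_mem_shell, smul_inv_smul₀ (by norm_num)] at h
          exact h
        rw [ih.2 _ h2, smul_inv_smul₀ (by norm_num)]
      exact fun x hx => pow_fix (h1 x hx) m
  obtain ⟨h, hhR, hin, hout⟩ := exists_ip shell_dis hR0.le hR1 ⟨g, hmem⟩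
  refine ⟨h, ext_smul fun x => ?_⟩
  rw [mul_smul]
  have half : ∀ y : E n, (1 / 2 : ℝ) • ((1 / 2 : ℝ)⁻¹ • y) = y := fun y =>
    smul_inv_smul₀ (by norm_num) y
  by_cases hx : ∃ k, x ∈ shell n k
  · obtain ⟨k, hk⟩ := hx
    rcases k with _ | k
    · -- outermost shell
      have h1 : u • x ∈ shell n 0 := hu.smul_mem hk
      rw [hin 0 x hk]
      change u • x = _
      have h2 : h ^ m • ((1 / 2 : ℝ)⁻¹ • (u • x)) = (1 / 2 : ℝ)⁻¹ • (u • x) := by
        apply pow_fix
        apply hout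
        intro k hk'
        rw [← smul_mem_shell, half] at hk'
        have := shell_dis.eq h1 hk'
        omega
      rw [← half (u • x), hf_pow_smul', h2]
    · have h1 : x ∉ shell n 0 := by
        intro h0
        have := shell_dis.eq h0 hk
        omega
      rw [hu x h1, hin (k + 1) x hk]
      change g (k + 1) • x = _
      rw [gs]
      have h2 : (1 / 2 : ℝ)⁻¹ • x ∈ shell n k := by
        rw [← smul_mem_shell, half]; exact hk
      rw [← half x, hf_pow_smul', hf_pow_smul',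
        pow_eq_on (hmem k).2 (fun y hy => hin k y hy) m h2]
  · push Not at hx
    rw [hout x hx, hu x (hx 0)]
    have h2 : h ^ m • ((1 / 2 : ℝ)⁻¹ • x) = (1 / 2 : ℝ)⁻¹ • x := by
      apply pow_fix
      apply hout
      intro k hk'
      rw [← smul_mem_shell, half] at hk'
      exact hx _ hk'
    rw [← half x, hf_pow_smul', h2]

/-- if the Calabi homomorphism extends canonically, there are Hamiltonian homeomorphisms which are
not hameomorphisms -/
theorem hameo_ne (hn : 1 ≤ n) {C : Hm n →* Multiplicative ℝ}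
    (hC : ∀ (u : Hm n) (c : ℝ), HasCal (u : E n ≃ₜ E n) c ↔ (C u).toAdd = c) :
    Hameo n ≠ HamBar n := by
  intro e
  obtain ⟨u, hu, hu1, huo⟩ := exists_shell_hasCal hn
  obtain ⟨h, hh⟩ := exists_twist (n := n) ⟨u, Hameo_le u.2⟩ huo (4 ^ (n + 1))
  have hx : (h : E n ≃ₜ E n) ∈ Hameo n := by
    rw [e]; exact h.2
  obtain ⟨c, hc⟩ := exists_hasCal hn ⟨h, hx⟩
  have h1 : HasCal (hf n h : E n ≃ₜ E n) ((1 / 2) ^ (2 * n + 2) * c) :=
    hc.homoth (show (0 : ℝ) < 1 / 2 by norm_num) (by norm_num)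
  have h2 := (h1.pow (4 ^ (n + 1))).mul hu1
  have e1 : (((hf n h : E n ≃ₜ E n)) ^ (4 ^ (n + 1)) * (u : E n ≃ₜ E n)) = h := by
    conv_rhs => rw [hh]
    rfl
  rw [e1] at h2
  have h3 := (hC ⟨h, hx⟩ _).1 hc
  have h4 := (hC ⟨h, hx⟩ _).1 h2
  rw [h3] at h4
  have h5 : ((4 ^ (n + 1) : ℕ) : ℝ) * ((1 / 2) ^ (2 * n + 2) * c) = c := by
    have e2 : (4 : ℝ) ^ (n + 1) = 2 ^ (2 * n + 2) := by
      rw [show (4 : ℝ) = 2 ^ 2 by norm_num, ← pow_mul]; ring_nf
    push_cast
    rw [e2, one_div, inv_pow, ← mul_assoc, mul_inv_cancel₀ (by positivity), one_mul]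
  rw [h5] at h4
  linarith

end Pool.Agent.W_68f289_h35
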