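import Pool.Agent.W_68f289_h35.FinB
import Pool.Agent.W_68f289_h35.Wt

/-!
Closed subgroups normalised by the commutator subgroup, and the final form of the alternative.
-/

open Set Metric Topology Pool.Agent.W_MP_68f289_gt MeasureTheory Filter
open scoped NNReal ContDiff

namespace Pool.Agent.W_68f289_h35

variable {n : ℕ}

/-- the normal core of a closed subgroup is closed -/
lemma HClosed.core {N : Subgroup (Hm n)} (hN : HClosed N) : HClosed N.normalCore := by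
  intro K H ψ Φ h hu
  refine ⟨⟨endp Φ, h.endp_mem⟩, fun g => ?_, rfl⟩
  obtain ⟨g', K'', H'', ψ'', Φ'', hg', h1, h2, h3, -⟩ := h.conj_strong (Hameo_le g.2)
  obtain ⟨w, hw, hw2⟩ := hN K'' H'' ψ'' Φ'' h1 (by
    intro k
    obtain ⟨u, hu, huk⟩ := hu k
    have hgm : g' k ∈ Hameo n := Subgroup.subset_closure (isHam_hameos (hg' k))
    refine ⟨⟨g' k, hgm⟩ * u * (⟨g' k, hgm⟩ : Hm n)⁻¹, hu _, fun x => ?_⟩
    rw [h3]
    change g' k ((u : E n ≃ₜ E n) ((g' k).symm x)) = _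
    rw [huk])
  have e : g * ⟨endp Φ, h.endp_mem⟩ * g⁻¹ = w := by
    apply Subtype.ext
    rw [hw2, h2]
    rfl
  rw [e]
  exact hw

/-- subgroups normalised by the commutator subgroup -/
lemma core_ne_bot (hn : 1 ≤ n) {N : Subgroup (Hm n)} (hN1 : N ≠ ⊥)
    (hc : ∀ g ∈ commutator (Hm n), ∀ u ∈ N, g * u * g⁻¹ ∈ N) : N.normalCore ≠ ⊥ := by
  have S := sysL hn (big_Hameo (n := n))
  have h1 : Mo (Hameo n) (Bl n) ≤ commutator (Hm n) := by
    rw [S.Mo_eq, commutator_def]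
    exact Subgroup.commutator_mono le_top le_rfl
  have h2 : Mo (Hameo n) (Bl n) ≤ N := S.Mo_le hN1 (fun m hm g hg => hc m (h1 hm) g hg)
  have h3 := S.Mo_normal
  have h4 : Mo (Hameo n) (Bl n) ≤ N.normalCore := Subgroup.normal_le_normalCore.2 h2
  intro h
  rw [h, le_bot_iff] at h4
  exact S.Mo_ne_bot h4

theorem closed_iff (hn : 1 ≤ n) {C : Hm n →* Multiplicative ℝ}
    (hC : ∀ (u : Hm n) (c : ℝ), HasCal (u : E n ≃ₜ E n) c ↔ (C u).toAdd = c)
    (N : Subgroup (Hm n)) (hN1 : N ≠ ⊥) :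
    ((∀ g ∈ commutator (Hm n), ∀ u ∈ N, g * u * g⁻¹ ∈ N) ∧ HClosed N) ↔
      ∃ Λ : AddSubgroup ℝ, IsClosed (Λ : Set ℝ) ∧ ∀ u : Hm n, u ∈ N ↔ (C u).toAdd ∈ Λ := by
  constructor
  · rintro ⟨hc, hN⟩
    obtain ⟨Λ, hΛ, h1⟩ := (closed_normal_iff hn hC N.normalCore (core_ne_bot hn hN1 hc)).1
      ⟨Subgroup.normalCore_normal N, hN.core⟩
    have hker : ∀ u : Hm n, C u = 1 → u ∈ N := by
      intro u hu
      apply Subgroup.normalCore_le N
      rw [h1, hu]
      exact Λ.zero_mem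
    refine (closed_normal_iff hn hC N hN1).1 ⟨⟨fun u hu g => ?_⟩, hN⟩
    have e : g * u * g⁻¹ = (g * u * g⁻¹ * u⁻¹) * u := by group
    rw [e]
    refine mul_mem (hker _ ?_) hu
    rw [map_mul, map_mul, map_mul, map_inv, map_inv, mul_comm (C g) (C u)]
    group
  · intro h
    obtain ⟨h1, h2⟩ := (closed_normal_iff hn hC N hN1).2 h
    exact ⟨fun g _ u hu => h1.conj_mem u hu g, h2⟩

/-- the closed subgroups in the first case, and the alternative -/
theorem alternative_final (hn : 1 ≤ n) :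
    Xor'
      (∃ C : Hm n →* Multiplicative ℝ,
        (∀ K H ψ Φ, TPath n K H ψ Φ → ∀ u : Hm n, (u : E n ≃ₜ E n) = endp Φ →
          Filter.Tendsto (fun k => cal (H k)) Filter.atTop (nhds (C u).toAdd)) ∧
        (∃ D : G n →* Multiplicative ℝ, ∀ (u : Hm n) (v : G n),
          (v : E n ≃ₜ E n) = u → D v = C u) ∧
        (∀ N : Subgroup (Hm n), N ≠ ⊥ →
          ((∀ g ∈ commutator (Hm n), ∀ u ∈ N, g * u * g⁻¹ ∈ N) ∧ HClosed N ↔
            ∃ Λ : AddSubgroup ℝ, IsClosed (Λ : Set ℝ) ∧ ∀ u : Hm n, u ∈ N ↔ (C u).toAdd ∈ Λ)) ∧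
        Hameo n ≠ HamBar n ∧ ¬ IsSimpleGroup (Hm n) ∧ ¬ IsSimpleGroup (G n))
      ((∀ c : ℝ, ∃ K H ψ Φ, TPath n K H ψ Φ ∧ endp Φ = 1 ∧
          Filter.Tendsto (fun k => cal (H k)) Filter.atTop (nhds c)) ∧
        ∀ N : Subgroup (Hm n), N ≠ ⊥ →
          (∀ g ∈ commutator (Hm n), ∀ u ∈ N, g * u * g⁻¹ ∈ N) → HClosed N → N = ⊤) := by
  have hex : ∀ P Q : Prop, (P ∨ Q) → ¬ (P ∧ Q) → Xor' P Q := by
    intro P Q h1 h2
    rcases h1 with h | h
    · exact Or.inl ⟨h, fun h' => h2 ⟨h, h'⟩⟩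
    · exact Or.inr ⟨h, fun h' => h2 ⟨h', h⟩⟩
  apply hex
  · rcases loops_alt n with h | h
    · left
      obtain ⟨C, hC⟩ := exists_hom hn h
      obtain ⟨D, hD⟩ := exists_extension hn hC
      have hC1 : C ≠ 1 := by
        rintro rfl
        obtain ⟨u, -, hu⟩ := exists_isHam_hasCal n 1
        have := (hC u 1).1 hu
        exact zero_ne_one this
      refine ⟨C, ?_, ⟨D, hD⟩, fun N hN => closed_iff hn hC N hN, hameo_ne hn hC,
        not_simple hn hC1, not_simple' hn (D := D) ?_⟩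
      · intro K H ψ Φ h1 u hu
        obtain ⟨c, hc⟩ := h1.cal_tendsto hn
        have : (C u).toAdd = c := (hC u c).1 ⟨K, H, ψ, Φ, h1, hu.symm, hc⟩
        rw [this]
        exact hc
      · rintro rfl
        apply hC1
        ext u
        exact congrArg Multiplicative.toAdd (hD u ⟨u, Hameo_le u.2⟩ rfl).symm
    · right
      refine ⟨fun c => h c, fun N hN1 hc hNc => ?_⟩
      have h1 : N.normalCore = ⊤ := by
        rw [eq_top_iff]
        intro u _
        obtain ⟨c, hc'⟩ := exists_hasCal hn u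
        have := hc'.mul (h (-c))
        rw [mul_one, add_neg_cancel] at this
        obtain ⟨K, H, ψ, Φ, h1, h2, h3⟩ := this
        exact mem_of_tendsto_zero hn (Subgroup.normalCore_normal N) (core_ne_bot hn hN1 hc)
          hNc.core h1 h3 h2.symm
      exact top_le_iff.1 (h1 ▸ Subgroup.normalCore_le N)
  · rintro ⟨⟨C, hC, -⟩, h, -⟩
    obtain ⟨K, H, ψ, Φ, h1, h2, h3⟩ := h 1
    have h4 := hC K H ψ Φ h1 1 h2.symm
    have h5 := tendsto_nhds_unique h3 h4
    rw [map_one] at h5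
    exact one_ne_zero h5

end Pool.Agent.W_68f289_h35
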