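import Pool.Agent.W_68f289_h35.NzC

/-!
Bounds for the comparison of flows.
-/

open Set Metric Topology Pool.Agent.W_MP_68f289_gt MeasureTheory Filter
open scoped NNReal ContDiff

namespace Pool.Agent.W_68f289_h35

variable {n : ℕ}

/-- the maps of a flow are Hamiltonian diffeos: `HIso.reparam` with `s τ = t * τ` -/
lemma HIso.isHam_homeo {H : ℝ → E n → ℝ} {ψ : ℝ → E n → E n} (h : HIso n H ψ) (t : ℝ) :
    IsHam n (HIso.homeo h t) := by
  have hs : ContDiff ℝ ((⊤ : ℕ∞) : WithTop ℕ∞) (fun τ : ℝ => t * τ) :=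
    contDiff_const.mul contDiff_id
  refine ⟨_, _, HIso.reparam h hs, fun x => ?_⟩
  have h0 : HIso.inv h 0 x = x := by
    have h1 := HIso.inv_apply h 0 x
    rwa [h.zero] at h1
  change ψ t x = ψ (t * 1) (HIso.inv h (t * 0) x)
  rw [mul_one, mul_zero, h0]

/-- the maps of a flow, as hameomorphisms -/
noncomputable def fl {H : ℝ → E n → ℝ} {ψ : ℝ → E n → E n} (h : HIso n H ψ) (t : ℝ) : Hm n :=
  ⟨HIso.homeo h t, Subgroup.subset_closure (isHam_hameos (HIso.isHam_homeo h t))⟩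

lemma fl_isHam {H : ℝ → E n → ℝ} {ψ : ℝ → E n → E n} (h : HIso n H ψ) (t : ℝ) :
    IsHam n (fl h t : E n ≃ₜ E n) := HIso.isHam_homeo h t

lemma fl_one {H : ℝ → E n → ℝ} {ψ : ℝ → E n → E n} (h : HIso n H ψ) : fl h 1 = tm h := rfl

lemma fl_zero {H : ℝ → E n → ℝ} {ψ : ℝ → E n → E n} (h : HIso n H ψ) : fl h 0 = 1 := by
  apply Subtype.ext
  apply Homeomorph.ext
  exact h.zero

lemma fl_apply {H : ℝ → E n → ℝ} {ψ : ℝ → E n → E n} (h : HIso n H ψ) (t : ℝ) (x : E n) :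
    (fl h t : E n ≃ₜ E n) x = ψ t x := rfl

/-- the inverse flow is the identity off the support -/
lemma HIso.inv_off {H : ℝ → E n → ℝ} {ψ : ℝ → E n → E n} (h : HIso n H ψ) {K : Set (E n)}
    (hc : IsCompact K) (hK : ∀ t, ∀ x, x ∉ K → H t x = 0) (t : ℝ) {x : E n} (hx : x ∉ K) :
    HIso.inv h t x = x := by
  have h1 := HIso.inv_apply h t x
  rwa [HIso.off h hc hK t hx] at h1

/-- Smooth functions of `(t, a, x)` which vanish for `x` off `K` are Lipschitz in `a`. -/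
lemma lip_param {W : Type*} [NormedAddCommGroup W] [NormedSpace ℝ W] {D : ℝ × ℝ × E n → W}
    (hD : ContDiff ℝ ((⊤ : ℕ∞) : WithTop ℕ∞) D) {K : Set (E n)} (hc : IsCompact K)
    (hK : ∀ t a x, x ∉ K → D (t, a, x) = 0) :
    ∃ M : ℝ, 0 ≤ M ∧ ∀ t ∈ Icc (0 : ℝ) 1, ∀ a ∈ Icc (0 : ℝ) 1, ∀ b ∈ Icc (0 : ℝ) 1, ∀ x,
      ‖D (t, b, x) - D (t, a, x)‖ ≤ M * |b - a| := by
  have hfd : Continuous (fun p : ℝ × ℝ × E n => fderiv ℝ D p) := hD.continuous_fderiv (by simp)
  obtain ⟨C, hC⟩ := ((isCompact_Icc (a := (0 : ℝ)) (b := 1)).prod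
    ((isCompact_Icc (a := (0 : ℝ)) (b := 1)).prod hc)).exists_bound_of_continuousOn
      hfd.continuousOn
  refine ⟨max C 0, le_max_right _ _, fun t ht a ha b hb x => ?_⟩
  by_cases hx : x ∈ K
  · have h1 : ∀ s ∈ Icc (0 : ℝ) 1, HasDerivWithinAt (fun s => D (t, s, x))
        (fderiv ℝ D (t, s, x) (0, 1, 0)) (Icc 0 1) s := by
      intro s _
      have h2 : HasFDerivAt D (fderiv ℝ D (t, s, x)) (t, s, x) :=
        (hD.differentiable (by simp) _).hasFDerivAt
      have h3 : HasDerivAt (fun s : ℝ => ((t, s, x) : ℝ × ℝ × E n)) (0, 1, 0) s :=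
        (hasDerivAt_const s t).prodMk ((hasDerivAt_id s).prodMk (hasDerivAt_const s x))
      exact (h2.comp_hasDerivAt s h3).hasDerivWithinAt
    have h4 := (convex_Icc (0 : ℝ) 1).norm_image_sub_le_of_norm_hasDerivWithin_le
      (C := max C 0) h1 (fun s hs => ?_) ha hb
    · rwa [Real.norm_eq_abs] at h4
    · calc ‖fderiv ℝ D (t, s, x) (0, 1, 0)‖
          ≤ ‖fderiv ℝ D (t, s, x)‖ * ‖((0, 1, 0) : ℝ × ℝ × E n)‖ :=
            ContinuousLinearMap.le_opNorm _ _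
        _ ≤ max C 0 * 1 := by
            gcongr
            · exact (hC _ ⟨ht, hs, hx⟩).trans (le_max_left _ _)
            · simp [Prod.norm_def]
        _ = _ := mul_one _
  · rw [hK _ _ _ hx, hK _ _ _ hx, sub_zero, norm_zero]
    positivity

/-- Analytic bounds. All functions involved are jointly smooth in the real parameters and `x`; those
in (1), (2) vanish for `x` off `K` and in (3) the map is the identity off `K`, so derivatives are
bounded for parameters in `[0, 1]` (compactness).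
(1) `|H t (χ t x) - H t (χ a x)| ≤ M |t - a|`: mean value inequality in the second time variable for
`(t, a, x) ↦ H t (χ a x)`. (2) the same for the space derivative. (3) the space derivative of
`P = (χ a)⁻¹ ∘ ψ t ∘ (ψ a)⁻¹ ∘ χ a`. -/
lemma inc_bounds {H L : ℝ → E n → ℝ} {ψ χ : ℝ → E n → E n} (h : HIso n H ψ) (hL : HIso n L χ)
    {K : Set (E n)} (hc : IsCompact K) (hK : ∀ t, ∀ x, x ∉ K → H t x = 0)
    (hK' : ∀ t, ∀ x, x ∉ K → L t x = 0) : ∃ M : ℝ, 0 ≤ M ∧
      ∀ t ∈ Icc (0 : ℝ) 1, ∀ a ∈ Icc (0 : ℝ) 1, ∀ x,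
        |H t (χ t x) - H t (χ a x)| ≤ M * |t - a| ∧
        ‖fderiv ℝ (fun x => H t (χ t x) - H t (χ a x)) x‖ ≤ M * |t - a| ∧
        ‖fderiv ℝ (fun x => HIso.inv hL a (ψ t (HIso.inv h a (χ a x)))) x‖ ≤ M := by
  -- the three functions
  have hF : ContDiff ℝ ((⊤ : ℕ∞) : WithTop ℕ∞)
      (fun p : ℝ × ℝ × E n => H p.1 (χ p.2.1 p.2.2)) :=
    h.smooth.comp (contDiff_fst.prodMk ((HIso.contDiff hL).comp
      ((contDiff_fst.comp contDiff_snd).prodMk (contDiff_snd.comp contDiff_snd))))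
  have hF0 : ∀ t a x, x ∉ K → H t (χ a x) = 0 := by
    intro t a x hx
    rw [HIso.off hL hc hK' a hx]
    exact hK t x hx
  have hD : ContDiff ℝ ((⊤ : ℕ∞) : WithTop ℕ∞)
      (fun p : ℝ × ℝ × E n => fderiv ℝ (fun y => H p.1 (χ p.2.1 y)) p.2.2) := by
    refine ContDiff.fderiv (𝕜 := ℝ) (f := fun (p : ℝ × ℝ × E n) (y : E n) => H p.1 (χ p.2.1 y))
      (g := fun p => p.2.2) (m := ((⊤ : ℕ∞) : WithTop ℕ∞)) (n := ((⊤ : ℕ∞) : WithTop ℕ∞))
      ?_ (contDiff_snd.comp contDiff_snd) (by simp)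
    exact hF.comp ((contDiff_fst.comp contDiff_fst).prodMk
      (((contDiff_fst.comp contDiff_snd).comp contDiff_fst).prodMk contDiff_snd))
  have hD0 : ∀ t a x, x ∉ K → fderiv ℝ (fun y => H t (χ a y)) x = 0 := by
    intro t a x hx
    have e : (fun y => H t (χ a y)) =ᶠ[𝓝 x] fun _ => (0 : ℝ) := by
      filter_upwards [hc.isClosed.isOpen_compl.mem_nhds hx] with y hy
      exact hF0 t a y hy
    rw [e.fderiv_eq, fderiv_fun_const]
    rfl
  have hP : ContDiff ℝ ((⊤ : ℕ∞) : WithTop ℕ∞)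
      (fun p : ℝ × ℝ × E n => HIso.inv hL p.2.1 (ψ p.1 (HIso.inv h p.2.1 (χ p.2.1 p.2.2)))) := by
    have ha : ContDiff ℝ ((⊤ : ℕ∞) : WithTop ℕ∞) (fun p : ℝ × ℝ × E n => p.2.1) :=
      contDiff_fst.comp contDiff_snd
    have hx : ContDiff ℝ ((⊤ : ℕ∞) : WithTop ℕ∞) (fun p : ℝ × ℝ × E n => p.2.2) :=
      contDiff_snd.comp contDiff_snd
    exact (HIso.inv_contDiff hL).comp (ha.prodMk ((HIso.contDiff h).comp (contDiff_fst.prodMk
      ((HIso.inv_contDiff h).comp (ha.prodMk ((HIso.contDiff hL).comp (ha.prodMk hx)))))))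
  have hQ : Continuous
      (fun p : ℝ × ℝ × E n => fderiv ℝ
        (fun y => HIso.inv hL p.2.1 (ψ p.1 (HIso.inv h p.2.1 (χ p.2.1 y)))) p.2.2) := by
    have := ContDiff.fderiv (𝕜 := ℝ) (f := fun (p : ℝ × ℝ × E n) (y : E n) =>
        HIso.inv hL p.2.1 (ψ p.1 (HIso.inv h p.2.1 (χ p.2.1 y))))
      (g := fun p => p.2.2) (m := ((⊤ : ℕ∞) : WithTop ℕ∞)) (n := ((⊤ : ℕ∞) : WithTop ℕ∞))
      (hP.comp ((contDiff_fst.comp contDiff_fst).prodMk
        (((contDiff_fst.comp contDiff_snd).comp contDiff_fst).prodMk contDiff_snd)))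
      (contDiff_snd.comp contDiff_snd) (by simp)
    exact this.continuous
  have hQ0 : ∀ t a x, x ∉ K →
      fderiv ℝ (fun y => HIso.inv hL a (ψ t (HIso.inv h a (χ a y)))) x =
        ContinuousLinearMap.id ℝ (E n) := by
    intro t a x hx
    have e : (fun y => HIso.inv hL a (ψ t (HIso.inv h a (χ a y)))) =ᶠ[𝓝 x] fun y => y := by
      filter_upwards [hc.isClosed.isOpen_compl.mem_nhds hx] with y hy
      rw [HIso.off hL hc hK' a hy, HIso.inv_off h hc hK a hy, HIso.off h hc hK t hy,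
        HIso.inv_off hL hc hK' a hy]
    rw [e.fderiv_eq]
    exact fderiv_fun_id
  obtain ⟨M1, hM1, h1⟩ := lip_param hF hc hF0
  obtain ⟨M2, hM2, h2⟩ := lip_param hD hc hD0
  obtain ⟨M3, h3⟩ := ((isCompact_Icc (a := (0 : ℝ)) (b := 1)).prod
    ((isCompact_Icc (a := (0 : ℝ)) (b := 1)).prod hc)).exists_bound_of_continuousOn
      hQ.continuousOn
  refine ⟨M1 + M2 + |M3| + 1, by positivity, fun t ht a ha x => ⟨?_, ?_, ?_⟩⟩
  · refine (h1 t ht a ha t ht x).trans ?_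
    have := abs_nonneg M3
    gcongr
    linarith
  · have hd : ∀ b, DifferentiableAt ℝ (fun y => H t (χ b y)) x := fun b =>
      (hF.comp (contDiff_const.prodMk (contDiff_const.prodMk contDiff_id))).differentiable
        (by simp) x
    have e : fderiv ℝ (fun x => H t (χ t x) - H t (χ a x)) x =
        fderiv ℝ (fun y => H t (χ t y)) x - fderiv ℝ (fun y => H t (χ a y)) x :=
      fderiv_fun_sub (hd t) (hd a)
    rw [e]
    refine (h2 t ht a ha t ht x).trans ?_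
    have := abs_nonneg M3
    gcongr
    linarith
  · by_cases hx : x ∈ K
    · have := h3 (t, a, x) ⟨ht, ha, hx⟩
      refine this.trans ?_
      have := le_abs_self M3
      linarith
    · rw [hQ0 t a x hx]
      refine ContinuousLinearMap.norm_id_le.trans ?_
      have := abs_nonneg M3
      linarith

end Pool.Agent.W_68f289_h35
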