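import Pool.Agent.W_68f289_h35.IcA

/-!
Comparison of flows on short time intervals.
-/

open Set Metric Topology Pool.Agent.W_MP_68f289_gt MeasureTheory Filter
open scoped NNReal ContDiff

namespace Pool.Agent.W_68f289_h35

variable {n : ℕ}

/-- Let `η` be the flow of `H t ∘ χ t` and let `0 ≤ a ≤ b ≤ 1`. Then `η b (η a)⁻¹` is the product of the
conjugate `(χ a)⁻¹ ψ b (ψ a)⁻¹ χ a` and a diffeo which is small of order `(b - a)²`. Proof: let
`r τ = a + (b - a) th τ`, `th` the smooth transition. By `HIso.reparam`, `η (r τ) (η a)⁻¹` is generated by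
`r' (H (r τ) ∘ χ (r τ))` and `ψ (r τ) (ψ a)⁻¹` by `r' H (r τ)`; by `HIso.conj` with `g = (χ a)⁻¹` the isotopy
`P τ = (χ a)⁻¹ ψ (r τ) (ψ a)⁻¹ χ a` is generated by `r' H (r τ) ∘ χ a`. By `HIso.diff` the isotopy
`(P τ)⁻¹ η (r τ) (η a)⁻¹` is generated by `r' (H (r τ) ∘ χ (r τ) - H (r τ) ∘ χ a) ∘ P τ`. By
`inc_bounds` and `0 ≤ r' ≤ C (b - a)`, `|r τ - a| ≤ b - a` this Hamiltonian and its space derivative
are bounded by `C' (b - a)²`, so `small_of_C1` applies. -/
theorem inc {H L : ℝ → E n → ℝ} {ψ χ η : ℝ → E n → E n} (h : HIso n H ψ) (hL : HIso n L χ)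
    (hη : HIso n (fun t x => H t (χ t x)) η) {K : Set (E n)} (hc : IsCompact K) (hKB : K ⊆ Bl n)
    (hK : ∀ t, ∀ x, x ∉ K → H t x = 0) (hK' : ∀ t, ∀ x, x ∉ K → L t x = 0) :
    ∃ M : ℝ, 0 ≤ M ∧ ∀ a b : ℝ, 0 ≤ a → a ≤ b → b ≤ 1 → ∃ v : Hm n,
      Small K (M * (b - a) ^ 2) v ∧
      fl hη b * (fl hη a)⁻¹ = (fl hL a)⁻¹ * (fl h b * (fl h a)⁻¹) * fl hL a * v := by
  obtain ⟨M0, hM0, hB⟩ := inc_bounds h hL hc hK hK'
  have hths : ContDiff ℝ ((⊤ : ℕ∞) : WithTop ℕ∞) th := th_smooth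
  have hthd : ContDiff ℝ ((⊤ : ℕ∞) : WithTop ℕ∞) (deriv th) :=
    (contDiff_infty_iff_deriv.1 hths).2
  obtain ⟨C, hC⟩ := (isCompact_Icc (a := (0 : ℝ)) (b := 1)).exists_bound_of_continuousOn
    hthd.continuous.continuousOn
  have hC0 : 0 ≤ C := (norm_nonneg _).trans (hC 0 (by simp))
  refine ⟨2 * (C * M0 * (1 + M0)), by positivity, fun a b ha hab hb => ?_⟩
  -- the change of time
  set r : ℝ → ℝ := fun τ => a + (b - a) * th τ with hr
  have hrs : ContDiff ℝ ((⊤ : ℕ∞) : WithTop ℕ∞) r :=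
    contDiff_const.add (contDiff_const.mul hths)
  have hr0 : r 0 = a := by simp [hr, th]
  have hr1 : r 1 = b := by simp [hr, th]
  have hrd : ∀ τ, deriv r τ = (b - a) * deriv th τ := by
    intro τ
    have h2 : HasDerivAt th (deriv th τ) τ := (hths.differentiable (by simp) τ).hasDerivAt
    have h3 : HasDerivAt r ((b - a) * deriv th τ) τ := by
      simpa [hr] using (h2.const_mul (b - a)).const_add a
    exact h3.deriv
  have hth0 : ∀ τ, 0 ≤ th τ := fun τ => Real.smoothTransition.nonneg τ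
  have hth1 : ∀ τ, th τ ≤ 1 := fun τ => Real.smoothTransition.le_one τ
  have hba : 0 ≤ b - a := by linarith
  have hra : ∀ τ, |r τ - a| ≤ b - a := by
    intro τ
    have e : r τ - a = (b - a) * th τ := by simp [hr]
    rw [e, abs_of_nonneg (mul_nonneg hba (hth0 τ))]
    exact mul_le_of_le_one_right hba (hth1 τ)
  have hr01 : ∀ τ, r τ ∈ Icc (0 : ℝ) 1 := by
    intro τ
    have h2 := mul_nonneg hba (hth0 τ)
    have h3 := mul_le_of_le_one_right hba (hth1 τ)
    simp only [hr]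
    constructor <;> linarith
  have hrb : ∀ τ ∈ Icc (0 : ℝ) 1, |deriv r τ| ≤ C * (b - a) := by
    intro τ hτ
    rw [hrd, abs_mul, abs_of_nonneg hba, mul_comm]
    have := hC τ hτ
    rw [Real.norm_eq_abs] at this
    gcongr
  have ha01 : a ∈ Icc (0 : ℝ) 1 := ⟨ha, hab.trans hb⟩
  -- the flows
  have hgs : ContDiff ℝ ((⊤ : ℕ∞) : WithTop ℕ∞) (HIso.homeo hL a).symm :=
    (HIso.inv_contDiff hL).comp (contDiff_const.prodMk contDiff_id)
  have hgi : ContDiff ℝ ((⊤ : ℕ∞) : WithTop ℕ∞) (HIso.homeo hL a).symm.symm :=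
    (HIso.contDiff hL).comp (contDiff_const.prodMk contDiff_id)
  have hgB : ∀ x ∈ Bl n, (HIso.homeo hL a).symm x ∈ Bl n := by
    intro x hx
    change HIso.inv hL a x ∈ Bl n
    by_cases hxK : x ∈ K
    · apply hKB
      rw [← HIso.mem_iff hL hc hK' a, HIso.apply_inv hL]
      exact hxK
    · rw [HIso.inv_off hL hc hK' a hxK]
      exact hx
  set P : ℝ → E n → E n := fun τ x => HIso.inv hL a (ψ (r τ) (HIso.inv h a (χ a x))) with hPdef
  have h2 : HIso n (fun τ x => deriv r τ * H (r τ) (χ (r τ) x))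
      (fun τ x => η (r τ) (HIso.inv hη a x)) := by
    have e := HIso.reparam hη hrs
    rw [hr0] at e
    exact e
  have h3 : HIso n (fun τ x => deriv r τ * H (r τ) (χ a x)) P := by
    have e := HIso.reparam h hrs
    rw [hr0] at e
    exact HIso.conj e (g := (HIso.homeo hL a).symm) hgs hgi (HIso.inv_symp hL a) hgB
  have h4 := HIso.diff h3 h2
  have hPs : ∀ τ, ContDiff ℝ ((⊤ : ℕ∞) : WithTop ℕ∞) (P τ) := by
    intro τ
    exact ((HIso.inv_contDiff hL).comp (contDiff_const.prodMk ((HIso.contDiff h).comp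
      (contDiff_const.prodMk ((HIso.inv_contDiff h).comp (contDiff_const.prodMk
        ((HIso.contDiff hL).comp (contDiff_const.prodMk contDiff_id))))))))
  have hPoff : ∀ τ x, x ∉ K → P τ x = x := by
    intro τ x hx
    simp only [hPdef]
    rw [HIso.off hL hc hK' a hx, HIso.inv_off h hc hK a hx, HIso.off h hc hK _ hx,
      HIso.inv_off hL hc hK' a hx]
  -- the Hamiltonian of the difference
  have hH : ∀ τ, (fun x => deriv r τ * H (r τ) (χ (r τ) (P τ x)) -
      deriv r τ * H (r τ) (χ a (P τ x))) = fun x =>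
      deriv r τ * (H (r τ) (χ (r τ) (P τ x)) - H (r τ) (χ a (P τ x))) := by
    intro τ
    ext x
    ring
  have hv := small_of_C1 h4 (K := K) hc (δ := C * M0 * (1 + M0) * (b - a) ^ 2) ?_ ?_ ?_
  · refine ⟨tm h4, ?_, ?_⟩
    · have e : 2 * (C * M0 * (1 + M0)) * (b - a) ^ 2 = 2 * (C * M0 * (1 + M0) * (b - a) ^ 2) := by
        ring
      rw [e]
      exact hv
    · apply Subtype.ext
      apply Homeomorph.ext
      intro x
      have e1 := HIso.apply_inv h3 1 (η (r 1) (HIso.inv hη a x))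
      change η b (HIso.inv hη a x) = HIso.inv hL a (ψ b (HIso.inv h a (χ a
        (HIso.inv h3 1 (η (r 1) (HIso.inv hη a x))))))
      simp only [hPdef, hr1] at e1
      rw [hr1]
      exact e1.symm
  · intro τ x hx
    rw [hPoff τ x hx, HIso.off hL hc hK' _ hx, HIso.off hL hc hK' _ hx, sub_self]
  · intro τ hτ x
    rw [← mul_sub, abs_mul]
    have h5 := (hB (r τ) (hr01 τ) a ha01 (P τ x)).1
    have h6 : 0 ≤ C * M0 * (b - a) ^ 2 := by positivity
    calc |deriv r τ| * |H (r τ) (χ (r τ) (P τ x)) - H (r τ) (χ a (P τ x))|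
        ≤ (C * (b - a)) * (M0 * (b - a)) := by
          gcongr
          · exact hrb τ hτ
          · exact h5.trans (by gcongr; exact hra τ)
      _ = C * M0 * (b - a) ^ 2 := by ring
      _ ≤ _ := by nlinarith
  · intro τ hτ x
    rw [hH τ]
    have hG : ContDiff ℝ ((⊤ : ℕ∞) : WithTop ℕ∞)
        (fun y => H (r τ) (χ (r τ) y) - H (r τ) (χ a y)) := by
      have h7 : ∀ s, ContDiff ℝ ((⊤ : ℕ∞) : WithTop ℕ∞) (fun y => H (r τ) (χ s y)) := fun s =>
        h.smooth.comp (contDiff_const.prodMk ((HIso.contDiff hL).comp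
          (contDiff_const.prodMk contDiff_id)))
      exact (h7 _).sub (h7 _)
    have hGd : DifferentiableAt ℝ (fun y => H (r τ) (χ (r τ) y) - H (r τ) (χ a y)) (P τ x) :=
      hG.differentiable (by simp) _
    have hPd : DifferentiableAt ℝ (P τ) x := (hPs τ).differentiable (by simp) _
    have e : fderiv ℝ (fun x => deriv r τ *
        (H (r τ) (χ (r τ) (P τ x)) - H (r τ) (χ a (P τ x)))) x = deriv r τ •
        ((fderiv ℝ (fun y => H (r τ) (χ (r τ) y) - H (r τ) (χ a y)) (P τ x)).comp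
          (fderiv ℝ (P τ) x)) := by
      have e1 := fderiv_comp x hGd hPd
      rw [← e1]
      exact fderiv_const_mul (hGd.comp x hPd) (deriv r τ)
    rw [e, norm_smul, Real.norm_eq_abs]
    have h5 := (hB (r τ) (hr01 τ) a ha01 (P τ x)).2.1
    have h8 := (hB (r τ) (hr01 τ) a ha01 x).2.2
    have h6 : 0 ≤ C * M0 * (b - a) ^ 2 := by positivity
    calc |deriv r τ| * ‖(fderiv ℝ (fun y => H (r τ) (χ (r τ) y) - H (r τ) (χ a y)) (P τ x)).comp
          (fderiv ℝ (P τ) x)‖
        ≤ (C * (b - a)) * ((M0 * (b - a)) * M0) := by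
          gcongr
          · exact hrb τ hτ
          · refine (ContinuousLinearMap.opNorm_comp_le _ _).trans ?_
            gcongr
            exact h5.trans (by gcongr; exact hra τ)
      _ = C * M0 * (b - a) ^ 2 * M0 := by ring
      _ ≤ _ := by nlinarith

end Pool.Agent.W_68f289_h35
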