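import Pool.Agent.W_68f289_h35.TqG

/-!
Small Hamiltonian diffeos.
-/

open Set Metric Topology Pool.Agent.W_MP_68f289_gt MeasureTheory Filter
open scoped NNReal ContDiff

namespace Pool.Agent.W_68f289_h35

variable {n : ℕ}

/-- time-one maps of flows supported in `K`, of Hofer length at most `ε`, which stay within `ε` of
the identity -/
def Small (K : Set (E n)) (ε : ℝ) (v : Hm n) : Prop :=
  ∃ (L : ℝ → E n → ℝ) (μ : ℝ → E n → E n), HIso n L μ ∧ (∀ t, ∀ x, x ∉ K → L t x = 0) ∧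
    hofer L ≤ ε ∧ (∀ t ∈ Icc (0 : ℝ) 1, ∀ x, dist (μ t x) x ≤ ε) ∧
    ∀ x, (v : E n ≃ₜ E n) x = μ 1 x

/-- the time changes of `isHam_mul` are monotone -/
lemma NzA_mono (b : ℝ) (t : ℝ) : 0 ≤ deriv (fun t : ℝ => th (3 * t - b)) t := by
  have h : Monotone (fun t : ℝ => th (3 * t - b)) := by
    intro s t hst
    exact Real.smoothTransition.monotone (by linarith)
  exact h.deriv_nonneg

/-- concatenation of flows, see `isHam_mul` -/
lemma NzA_concat {Hu Hv : ℝ → E n → ℝ} {pu pv : ℝ → E n → E n} (hu : HIso n Hu pu)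
    (hv : HIso n Hv pv) :
    HIso n (fun t x => deriv (fun t : ℝ => th (3 * t - 0)) t * Hv (th (3 * t - 0)) x +
      deriv (fun t : ℝ => th (3 * t - 2)) t * Hu (th (3 * t - 2)) x)
      (fun t x => pu (th (3 * t - 2)) (pv (th (3 * t - 0)) x)) := by
  set r1 : ℝ → ℝ := fun t => th (3 * t - 0) with hr1
  set r2 : ℝ → ℝ := fun t => th (3 * t - 2) with hr2
  have hr1s : ContDiff ℝ ((⊤ : ℕ∞) : WithTop ℕ∞) r1 := th_comp_smooth 3 0
  have hr2s : ContDiff ℝ ((⊤ : ℕ∞) : WithTop ℕ∞) r2 := th_comp_smooth 3 2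
  have hr1d : ContDiff ℝ ((⊤ : ℕ∞) : WithTop ℕ∞) (deriv r1) := (contDiff_infty_iff_deriv.1 hr1s).2
  have hr2d : ContDiff ℝ ((⊤ : ℕ∞) : WithTop ℕ∞) (deriv r2) := (contDiff_infty_iff_deriv.1 hr2s).2
  have h1 : ∀ t : ℝ, 1 / 3 < t → r1 =ᶠ[𝓝 t] fun _ => 1 := by
    intro t ht
    filter_upwards [Ioi_mem_nhds ht] with s hs
    exact Real.smoothTransition.one_of_one_le (by have : 1 / 3 < s := hs; linarith)
  have h2 : ∀ t : ℝ, t < 2 / 3 → r2 =ᶠ[𝓝 t] fun _ => 0 := by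
    intro t ht
    filter_upwards [Iio_mem_nhds ht] with s hs
    exact Real.smoothTransition.zero_of_nonpos (by have : s < 2 / 3 := hs; linarith)
  have hd1 : ∀ t, HasDerivAt r1 (deriv r1 t) t := fun t =>
    (hr1s.differentiable (by simp) t).hasDerivAt
  have hd2 : ∀ t, HasDerivAt r2 (deriv r2 t) t := fun t =>
    (hr2s.differentiable (by simp) t).hasDerivAt
  refine ⟨?_, ?_, ?_, ?_⟩
  · refine ContDiff.add ?_ ?_
    · exact (hr1d.comp contDiff_fst).mul (hv.smooth.comp ((hr1s.comp contDiff_fst).prodMk contDiff_snd))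
    · exact (hr2d.comp contDiff_fst).mul (hu.smooth.comp ((hr2s.comp contDiff_fst).prodMk contDiff_snd))
  · obtain ⟨K, hK, hKB, hKs⟩ := hu.supp
    obtain ⟨K', hK', hKB', hKs'⟩ := hv.supp
    refine ⟨K ∪ K', hK.union hK', union_subset hKB hKB', fun t x hx => ?_⟩
    rw [mem_union, not_or] at hx
    show deriv r1 t * Hv (r1 t) x + deriv r2 t * Hu (r2 t) x = 0
    rw [hKs _ _ hx.1, hKs' _ _ hx.2]; ring
  · intro x
    have e1 : r1 0 = 0 := Real.smoothTransition.zero_of_nonpos (by norm_num)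
    have e2 : r2 0 = 0 := Real.smoothTransition.zero_of_nonpos (by norm_num)
    show pu (r2 0) (pv (r1 0) x) = x
    rw [e1, e2, hu.zero, hv.zero]
  · intro t x
    show HasDerivAt (fun s => pu (r2 s) (pv (r1 s) x))
      (XH (fun x => deriv r1 t * Hv (r1 t) x + deriv r2 t * Hu (r2 t) x)
        (pu (r2 t) (pv (r1 t) x))) t
    rcases lt_or_ge t (2 / 3) with ht | ht
    · have e0 : r2 t = 0 := (h2 t ht).eq_of_nhds
      have e1 : deriv r2 t = 0 := by rw [(h2 t ht).deriv_eq, deriv_const]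
      have e2 : (fun s => pu (r2 s) (pv (r1 s) x)) =ᶠ[𝓝 t] fun s => pv (r1 s) x := by
        filter_upwards [h2 t ht] with s hs
        rw [hs, hu.zero]
      refine HasDerivAt.congr_of_eventuallyEq ?_ e2
      have e3 : (fun x => deriv r1 t * Hv (r1 t) x + deriv r2 t * Hu (r2 t) x) =
          fun x => deriv r1 t * Hv (r1 t) x := by
        funext y; rw [e1]; ring
      rw [e3, XH_const_mul (HIso.smooth_t hv _ _), e0, hu.zero]
      exact (hv.der (r1 t) x).scomp t (hd1 t)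
    · have ht' : 1 / 3 < t := by linarith
      have e0 : r1 t = 1 := (h1 t ht').eq_of_nhds
      have e1 : deriv r1 t = 0 := by rw [(h1 t ht').deriv_eq, deriv_const]
      have e2 : (fun s => pu (r2 s) (pv (r1 s) x)) =ᶠ[𝓝 t] fun s => pu (r2 s) (pv 1 x) := by
        filter_upwards [h1 t ht'] with s hs
        rw [hs]
      refine HasDerivAt.congr_of_eventuallyEq ?_ e2
      have e3 : (fun x => deriv r1 t * Hv (r1 t) x + deriv r2 t * Hu (r2 t) x) =
          fun x => deriv r2 t * Hu (r2 t) x := by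
        funext y; rw [e1]; ring
      rw [e3, XH_const_mul (HIso.smooth_t hu _ _), e0]
      exact (hu.der (r2 t) (pv 1 x)).scomp t (hd2 t)

/-- concatenate as in `isHam_mul` (`r1 t = th (3 t)`, `r2 t = th (3 t - 2)`) -/
lemma Small.mul {K : Set (E n)} (hc : IsCompact K) {ε δ : ℝ} {v w : Hm n}
    (hv : Small K ε v) (hw : Small K δ w) : Small K (ε + δ) (v * w) := by
  obtain ⟨Lv, μv, hv1, hv2, hv3, hv4, hv5⟩ := hv
  obtain ⟨Lw, μw, hw1, hw2, hw3, hw4, hw5⟩ := hw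
  set r1 : ℝ → ℝ := fun t => th (3 * t - 0) with hr1
  set r2 : ℝ → ℝ := fun t => th (3 * t - 2) with hr2
  have hr1s : ContDiff ℝ ((⊤ : ℕ∞) : WithTop ℕ∞) r1 := th_comp_smooth 3 0
  have hr2s : ContDiff ℝ ((⊤ : ℕ∞) : WithTop ℕ∞) r2 := th_comp_smooth 3 2
  have hr1d : ContDiff ℝ ((⊤ : ℕ∞) : WithTop ℕ∞) (deriv r1) := (contDiff_infty_iff_deriv.1 hr1s).2
  have hr2d : ContDiff ℝ ((⊤ : ℕ∞) : WithTop ℕ∞) (deriv r2) := (contDiff_infty_iff_deriv.1 hr2s).2
  have hr1m : ∀ t, r1 t ∈ Icc (0 : ℝ) 1 := fun t =>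
    ⟨Real.smoothTransition.nonneg _, Real.smoothTransition.le_one _⟩
  have hr2m : ∀ t, r2 t ∈ Icc (0 : ℝ) 1 := fun t =>
    ⟨Real.smoothTransition.nonneg _, Real.smoothTransition.le_one _⟩
  refine ⟨fun t x => deriv r1 t * Lw (r1 t) x + deriv r2 t * Lv (r2 t) x,
    fun t x => μv (r2 t) (μw (r1 t) x), NzA_concat hv1 hw1, ?_, ?_, ?_, ?_⟩
  · intro t x hx
    show deriv r1 t * Lw (r1 t) x + deriv r2 t * Lv (r2 t) x = 0
    rw [hv2 _ x hx, hw2 _ x hx]
    ring
  · have c1 : Continuous (Function.uncurry (fun (t : ℝ) (x : E n) => deriv r1 t * Lw (r1 t) x)) :=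
      ((hr1d.comp contDiff_fst).mul
        (hw1.smooth.comp ((hr1s.comp contDiff_fst).prodMk contDiff_snd))).continuous
    have c2 : Continuous (Function.uncurry (fun (t : ℝ) (x : E n) => deriv r2 t * Lv (r2 t) x)) :=
      ((hr2d.comp contDiff_fst).mul
        (hv1.smooth.comp ((hr2s.comp contDiff_fst).prodMk contDiff_snd))).continuous
    have a1 := hofer_add_le c1 c2 hc
      (fun t x hx => by show deriv r1 t * Lw (r1 t) x = 0; rw [hw2 _ x hx, mul_zero])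
      (fun t x hx => by show deriv r2 t * Lv (r2 t) x = 0; rw [hv2 _ x hx, mul_zero])
    have a2 := hofer_reparam_le hw1.smooth.continuous hc hw2 hr1s (NzA_mono 0) (hr1m 0).1 (hr1m 1).2
    have a3 := hofer_reparam_le hv1.smooth.continuous hc hv2 hr2s (NzA_mono 2) (hr2m 0).1 (hr2m 1).2
    calc hofer (fun t x => deriv r1 t * Lw (r1 t) x + deriv r2 t * Lv (r2 t) x)
        ≤ hofer (fun t x => deriv r1 t * Lw (r1 t) x) +
          hofer (fun t x => deriv r2 t * Lv (r2 t) x) := a1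
      _ ≤ hofer Lw + hofer Lv := add_le_add a2 a3
      _ ≤ ε + δ := by linarith
  · intro t ht x
    calc dist (μv (r2 t) (μw (r1 t) x)) x
        ≤ dist (μv (r2 t) (μw (r1 t) x)) (μw (r1 t) x) + dist (μw (r1 t) x) x := dist_triangle _ _ _
      _ ≤ ε + δ := add_le_add (hv4 _ (hr2m t) _) (hw4 _ (hr1m t) _)
  · intro x
    have e1 : r1 1 = 1 := Real.smoothTransition.one_of_one_le (by norm_num)
    have e2 : r2 1 = 1 := Real.smoothTransition.one_of_one_le (by norm_num)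
    show (v : E n ≃ₜ E n) ((w : E n ≃ₜ E n) x) = μv (r2 1) (μw (r1 1) x)
    rw [e1, e2, ← hw5, ← hv5]

/-- the zero Hamiltonian -/
lemma Small.one (K : Set (E n)) {ε : ℝ} (hε : 0 ≤ ε) : Small K ε (1 : Hm n) := by
  refine ⟨fun _ _ => 0, fun _ x => x, ⟨contDiff_const, ⟨∅, isCompact_empty, empty_subset _,
    fun _ _ _ => rfl⟩, fun _ => rfl, fun t x => ?_⟩, fun _ _ _ => rfl, ?_, ?_, fun _ => rfl⟩
  · rw [XH_zero]
    exact hasDerivAt_const _ _
  · have : hofer (fun (_ : ℝ) (_ : E n) => (0 : ℝ)) = 0 := by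
      unfold Pool.Agent.W_MP_68f289_gt.hofer
      simp
    rw [this]
    exact hε
  · intro t _ x
    simpa using hε

lemma Small.mono {K : Set (E n)} {ε δ : ℝ} (h : ε ≤ δ) {v : Hm n} (hv : Small K ε v) :
    Small K δ v := by
  obtain ⟨L, μ, h1, h2, h3, h4, h5⟩ := hv
  exact ⟨L, μ, h1, h2, h3.trans h, fun t ht x => (h4 t ht x).trans h, h5⟩

lemma Small.isHam {K : Set (E n)} {ε : ℝ} {v : Hm n} (hv : Small K ε v) :
    IsHam n (v : E n ≃ₜ E n) := by
  obtain ⟨L, μ, h1, -, -, -, h5⟩ := hv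
  exact ⟨L, μ, h1, h5⟩

end Pool.Agent.W_68f289_h35
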