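import Pool.Agent.W_68f289_h35.NzA

/-!
Commutators; closed normal subgroups.
-/

open Set Metric Topology Pool.Agent.W_MP_68f289_gt MeasureTheory Filter
open scoped NNReal ContDiff

namespace Pool.Agent.W_68f289_h35

variable {n : ℕ}

/-- the time-one map of a flow, as a hameomorphism -/
noncomputable def tm {H : ℝ → E n → ℝ} {ψ : ℝ → E n → E n} (h : HIso n H ψ) : Hm n :=
  ⟨HIso.homeo h 1, Subgroup.subset_closure (isHam_hameos ⟨H, ψ, h, fun _ => rfl⟩)⟩

lemma tm_apply {H : ℝ → E n → ℝ} {ψ : ℝ → E n → E n} (h : HIso n H ψ) (x : E n) :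
    (tm h : E n ≃ₜ E n) x = ψ 1 x := rfl

lemma tm_isHam {H : ℝ → E n → ℝ} {ψ : ℝ → E n → E n} (h : HIso n H ψ) :
    IsHam n (tm h : E n ≃ₜ E n) := ⟨H, ψ, h, fun _ => rfl⟩

/-- commutators of Hamiltonian diffeos are in every nontrivial normal subgroup: library, `sysL`,
`Sys.Mo_le` and `isHam_memL` as in the proof of `dense_Mo`, or the statement of
`Results/MP_68f289_gt/Monolith.lean` -/
lemma comm_mem (hn : 1 ≤ n) {N : Subgroup (Hm n)} (hN : N.Normal) (hN1 : N ≠ ⊥) {u v : Hm n}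
    (hu : IsHam n (u : E n ≃ₜ E n)) (hv : IsHam n (v : E n ≃ₜ E n)) :
    u * v * u⁻¹ * v⁻¹ ∈ N := by
  have S := sysL hn (big_Hameo (n := n))
  have h1 : Mo (Hameo n) (Bl n) ≤ N := S.Mo_le hN1 (fun m _ l hl => hN.conj_mem l hl m)
  exact h1 (Subgroup.commutator_mem_commutator (isHam_memL big_Hameo hu) (Subgroup.mem_top v))

/-- If `u` is a Hamiltonian diffeo, and for every `ε > 0` there is a small `v` with `v * u ∈ N`, then
`u ∈ N`, for `N` closed. Proof: take `v k` for `ε = 1 / (k + 1)`, the topological Hamiltonian path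
`TPath.of_small` of the `v k`, the constant sequence `TPath.of_HIso` of `u`, and their concatenation
`TPath.mul`: its time-one maps are the `v k * u ∈ N` and its end point is `u`. -/
lemma HClosed.mem_of_small {N : Subgroup (Hm n)} (hN : HClosed N) {u : Hm n}
    (hu : IsHam n (u : E n ≃ₜ E n)) {K : Set (E n)} (hc : IsCompact K) (hKB : K ⊆ Bl n)
    (h : ∀ ε : ℝ, 0 < ε → ∃ v : Hm n, Small K ε v ∧ v * u ∈ N) : u ∈ N := by
  obtain ⟨G, χ, hG, hu1⟩ := hu
  obtain ⟨K', hK', hK'B, hsupp⟩ := hG.supp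
  have hpos : ∀ k : ℕ, (0 : ℝ) < 1 / ((k : ℝ) + 1) := fun k => by positivity
  choose v hv using fun k : ℕ => h (1 / ((k : ℝ) + 1)) (hpos k)
  choose L μ hL hLs hLh hLd hLv using fun k : ℕ => (hv k).1
  have hT1 : TPath n K L μ (fun _ => 1) :=
    TPath.of_small hc hKB hL hLs tendsto_one_div_add_atTop_nhds_zero_nat hLh hLd
  have hT2 := TPath.of_HIso hG hK' hK'B hsupp
  obtain ⟨K'', H'', ψ'', Φ'', hT, he, hψ, -⟩ := hT1.mul hT2
  obtain ⟨u', hu', hu'e⟩ := hN K'' H'' ψ'' Φ'' hT (fun k => ⟨v k * u, (hv k).2, fun x => by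
    rw [hψ k x]
    change (v k : E n ≃ₜ E n) ((u : E n ≃ₜ E n) x) = _
    rw [hLv k, hu1]⟩)
  have hfin : u' = u := by
    apply Subtype.ext
    rw [hu'e, he]
    apply Homeomorph.ext
    intro x
    change χ 1 x = (u : E n ≃ₜ E n) x
    exact (hu1 x).symm
  rwa [hfin] at hu'

end Pool.Agent.W_68f289_h35
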