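import Pool.Agent.W_68f289_h35.NzB

/-!
C1-small Hamiltonians generate small diffeos.
-/

open Set Metric Topology Pool.Agent.W_MP_68f289_gt MeasureTheory Filter
open scoped NNReal ContDiff

namespace Pool.Agent.W_68f289_h35

variable {n : ℕ}

/-- a Hamiltonian which is `C¹`-small generates a small diffeo: displacement at most
`∫ ‖XH‖ ≤ δ` by `norm_XH_le` and the mean value inequality -/
lemma small_of_C1 {H : ℝ → E n → ℝ} {ψ : ℝ → E n → E n} (h : HIso n H ψ) {K : Set (E n)}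
    (hc : IsCompact K) (hK : ∀ t, ∀ x, x ∉ K → H t x = 0) {δ : ℝ}
    (h0 : ∀ t ∈ Icc (0 : ℝ) 1, ∀ x, |H t x| ≤ δ)
    (h1 : ∀ t ∈ Icc (0 : ℝ) 1, ∀ x, ‖fderiv ℝ (H t) x‖ ≤ δ) : Small K (2 * δ) (tm h) := by
  have hδ : 0 ≤ δ := (abs_nonneg _).trans (h0 0 (left_mem_Icc.2 zero_le_one) 0)
  refine ⟨H, ψ, h, hK, ?_, ?_, fun x => tm_apply h x⟩
  · rw [hofer_eq]
    have h2 : ∀ t ∈ Set.uIoc (0 : ℝ) 1, ‖osc (H t)‖ ≤ 2 * δ := by
      intro t ht
      rw [uIoc_of_le zero_le_one] at ht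
      have ht' := Ioc_subset_Icc_self ht
      rw [Real.norm_eq_abs, abs_of_nonneg (osc_nonneg ⟨δ, h0 t ht'⟩)]
      exact osc_le (h0 t ht')
    have h3 := intervalIntegral.norm_integral_le_of_norm_le_const h2
    rw [sub_zero, abs_one, mul_one] at h3
    exact (le_abs_self _).trans h3
  · intro t ht x
    have h2 : ∀ s ∈ Icc (0 : ℝ) 1, HasDerivWithinAt (fun s : ℝ => ψ s x) (XH (H s) (ψ s x))
        (Icc 0 1) s := fun s _ => (h.der s x).hasDerivWithinAt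
    have h3 : ∀ s ∈ Ico (0 : ℝ) 1, ‖XH (H s) (ψ s x)‖ ≤ δ := fun s hs =>
      (norm_XH_le _ _).trans (h1 s (Ico_subset_Icc_self hs) _)
    have h4 := norm_image_sub_le_of_norm_deriv_le_segment' h2 h3 t ht
    simp only [h.zero x, sub_zero] at h4
    rw [dist_eq_norm]
    refine h4.trans ?_
    nlinarith [ht.1, ht.2]

end Pool.Agent.W_68f289_h35
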