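import Pool.Agent.W_68f289_h35.SfD

/-!
Composition of Hamiltonian flows.
-/

open Set Metric Topology Pool.Agent.W_MP_68f289_gt MeasureTheory
open scoped NNReal ContDiff

namespace Pool.Agent.W_68f289_h35

variable {n : ℕ} {H H' : ℝ → E n → ℝ} {ψ ψ' : ℝ → E n → E n}

/-- chain rule for a jointly smooth map along a curve -/
theorem OpA_chain {F : ℝ → E n → E n}
    (hF : ContDiff ℝ ((⊤ : ℕ∞) : WithTop ℕ∞) (Function.uncurry F)) {t : ℝ} {c : ℝ → E n}
    {v a : E n} (hc : HasDerivAt c v t) (ha : HasDerivAt (fun s => F s (c t)) a t) :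
    HasDerivAt (fun s => F s (c s)) (a + fderiv ℝ (F t) (c t) v) t := by
  have hd : HasFDerivAt (Function.uncurry F) (fderiv ℝ (Function.uncurry F) (t, c t)) (t, c t) :=
    (hF.differentiable (by simp) (t, c t)).hasFDerivAt
  have h1 : HasDerivAt (fun s : ℝ => (s, c s)) ((1 : ℝ), v) t := (hasDerivAt_id t).prodMk hc
  have h2 : HasDerivAt (fun s => F s (c s))
      (fderiv ℝ (Function.uncurry F) (t, c t) ((1 : ℝ), v)) t :=
    HasFDerivAt.comp_hasDerivAt (f := fun s : ℝ => (s, c s)) t hd h1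
  have h3 : HasDerivAt (fun s : ℝ => (s, c t)) ((1 : ℝ), (0 : E n)) t :=
    (hasDerivAt_id t).prodMk (hasDerivAt_const t (c t))
  have h4 : HasDerivAt (fun s => F s (c t))
      (fderiv ℝ (Function.uncurry F) (t, c t) ((1 : ℝ), (0 : E n))) t :=
    HasFDerivAt.comp_hasDerivAt (f := fun s : ℝ => (s, c t)) t hd h3
  have h5 : HasFDerivAt (F t)
      ((fderiv ℝ (Function.uncurry F) (t, c t)).comp (ContinuousLinearMap.inr ℝ ℝ (E n))) (c t) := by
    have h6 : HasFDerivAt (fun y : E n => (t, y)) (ContinuousLinearMap.inr ℝ ℝ (E n)) (c t) :=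
      hasFDerivAt_prodMk_right t (c t)
    exact HasFDerivAt.comp (f := fun y : E n => (t, y)) (c t) hd h6
  have h7 : fderiv ℝ (Function.uncurry F) (t, c t) ((1 : ℝ), v) =
      a + fderiv ℝ (F t) (c t) v := by
    rw [h5.fderiv, ha.unique h4]
    have h8 : ((1 : ℝ), v) = ((1 : ℝ), (0 : E n)) + ((0 : ℝ), v) := by simp
    rw [h8, map_add]
    rfl
  rw [← h7]
  exact h2

theorem OpA_inv_off (h : HIso n H ψ) {K : Set (E n)} (hc : IsCompact K)
    (hK : ∀ t, ∀ x, x ∉ K → H t x = 0) (t : ℝ) {x : E n} (hx : x ∉ K) : HIso.inv h t x = x := by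
  conv_lhs => rw [← HIso.off h hc hK t hx]
  rw [HIso.inv_apply]

/-- composition of flows. Derivative of `s ↦ ψ s (ψ' s x)` by the chain rule for the jointly smooth
`ψ`: `XH (H t) (ψ t (ψ' t x)) + Dψ_t (XH (H' t) (ψ' t x))`, and the last term is
`XH (H' t ∘ (ψ t)⁻¹) (ψ t (ψ' t x))` by `XH_comp` applied to `g = ψ t`, `h = H' t ∘ (ψ t)⁻¹` at
`ψ' t x`; `XH_add`. Support in the union of the two supports by `HIso.mem_iff`. -/
theorem HIso.comp (h : HIso n H ψ) (h' : HIso n H' ψ') :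
    HIso n (fun t x => H t x + H' t (HIso.inv h t x)) (fun t x => ψ t (ψ' t x)) := by
  obtain ⟨K, hK, hKB, h0⟩ := h.supp
  obtain ⟨K', hK', hKB', h0'⟩ := h'.supp
  have hA : Adm n H K := ⟨h.smooth, hK, hKB, h0⟩
  have hA' : Adm n H' K' := ⟨h'.smooth, hK', hKB', h0'⟩
  refine ⟨?_, ⟨K ∪ K', hK.union hK', union_subset hKB hKB', ?_⟩, ?_, ?_⟩
  · exact h.smooth.add (h'.smooth.comp (contDiff_fst.prodMk (HIso.inv_contDiff h)))
  · intro t x hx
    rw [mem_union, not_or] at hx
    rw [OpA_inv_off h hK h0 t hx.1, h0 t x hx.1, h0' t x hx.2, add_zero]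
  · intro x
    rw [h'.zero, h.zero]
  · intro t x
    have h1 := OpA_chain (HIso.contDiff h) (h'.der t x) (h.der t (ψ' t x))
    have hinv : Differentiable ℝ (HIso.inv h t) :=
      ((HIso.inv_contDiff h).comp (contDiff_const.prodMk contDiff_id)).differentiable (by simp)
    have hψ : Differentiable ℝ (ψ t) :=
      ((HIso.contDiff h).comp (contDiff_const.prodMk contDiff_id)).differentiable (by simp)
    have hd : Differentiable ℝ (fun z => H' t (HIso.inv h t z)) := fun z =>
      (hA'.diff t (HIso.inv h t z)).comp z (hinv z)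
    have h2 := XH_comp (g := ψ t) (h := fun z => H' t (HIso.inv h t z)) (x := ψ' t x)
      (hψ _) (HIso.symp h t _) (hd _)
    have h3 : (fun y => (fun z => H' t (HIso.inv h t z)) (ψ t y)) = H' t := by
      funext y
      change H' t (HIso.inv h t (ψ t y)) = H' t y
      rw [HIso.inv_apply]
    rw [h3] at h2
    have h4 := XH_add (h := H t) (k := fun z => H' t (HIso.inv h t z)) (z := ψ t (ψ' t x))
      (hA.diff t _) (hd _)
    change HasDerivAt (fun s => ψ s (ψ' s x)) (XH (fun y => H t y + H' t (HIso.inv h t y))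
      (ψ t (ψ' t x))) t
    rw [h4, ← h2]
    exact h1

end Pool.Agent.W_68f289_h35
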