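import Pool.Agent.W_68f289_h35.OpA

/-!
Inverse and difference of Hamiltonian flows.
-/

open Set Metric Topology Pool.Agent.W_MP_68f289_gt MeasureTheory
open scoped NNReal ContDiff

namespace Pool.Agent.W_68f289_h35

variable {n : ℕ} {H H' : ℝ → E n → ℝ} {ψ ψ' : ℝ → E n → E n}

lemma OpB_XH_neg (f : E n → ℝ) (z : E n) : XH (fun x => -f x) z = -XH f z := by
  unfold XH dd
  have h : fderiv ℝ (fun x => -f x) z = -fderiv ℝ f z := fderiv_fun_neg
  rw [h]
  ext i <;> simp

/-- inverse flow: `ψ s (inv s x) = x`; differentiate in `s` and use `XH_comp` with `g = ψ t`,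
`h = H t` at the point `inv t x` -/
theorem HIso.inverse (h : HIso n H ψ) :
    HIso n (fun t x => -H t (ψ t x)) (HIso.inv h) := by
  obtain ⟨K, hK, hKB, h0⟩ := h.supp
  have hA : Adm n H K := ⟨h.smooth, hK, hKB, h0⟩
  refine ⟨?_, ⟨K, hK, hKB, ?_⟩, ?_, ?_⟩
  · exact (h.smooth.comp (contDiff_fst.prodMk (HIso.contDiff h))).neg
  · intro t x hx
    change -H t (ψ t x) = 0
    rw [HIso.off h hK h0 t hx, h0 t x hx, neg_zero]
  · intro x
    have h1 := HIso.inv_apply h 0 x
    rwa [h.zero] at h1
  · intro t x
    -- the derivative of the inverse flow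
    have hinv : Differentiable ℝ (Function.uncurry (HIso.inv h)) :=
      (HIso.inv_contDiff h).differentiable (by simp)
    have hχ : Differentiable ℝ (fun s => HIso.inv h s x) :=
      hinv.comp (differentiable_id.prodMk (differentiable_const x))
    set w := deriv (fun s => HIso.inv h s x) t with hw
    have h1 : HasDerivAt (fun s => HIso.inv h s x) w t := (hχ t).hasDerivAt
    set y := HIso.inv h t x with hy
    have hyx : ψ t y = x := HIso.apply_inv h t x
    have h2 := OpA_chain (HIso.contDiff h) h1 (h.der t y)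
    have h3 : (fun s => ψ s (HIso.inv h s x)) = fun _ => x := by
      funext s
      exact HIso.apply_inv h s x
    rw [h3] at h2
    have h4 := h2.unique (hasDerivAt_const t x)
    have hψ : Differentiable ℝ (ψ t) :=
      ((HIso.contDiff h).comp (contDiff_const.prodMk contDiff_id)).differentiable (by simp)
    have h5 := XH_comp (g := ψ t) (h := H t) (x := y) (hψ _) (HIso.symp h t _) (hA.diff t _)
    have h6 : w = -XH (fun z => H t (ψ t z)) y := by
      apply (Symp.bijective (HIso.symp h t y)).1
      rw [map_neg, h5]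
      exact eq_neg_of_add_eq_zero_right h4
    have h7 := OpB_XH_neg (fun z => H t (ψ t z)) y
    change HasDerivAt (fun s => HIso.inv h s x) (XH (fun z => -H t (ψ t z)) y) t
    rw [h7, ← h6]
    exact h1

/-- the difference of two flows; from `HIso.inverse` and `HIso.comp` (the inverse of the inverse flow
is `ψ`) -/
theorem HIso.diff (h : HIso n H ψ) (h' : HIso n H' ψ') :
    HIso n (fun t x => H' t (ψ t x) - H t (ψ t x)) (fun t x => HIso.inv h t (ψ' t x)) := by
  have hi := HIso.inverse h
  have h1 := HIso.comp hi h'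
  have h2 : ∀ t x, HIso.inv hi t x = ψ t x := by
    intro t x
    have h3 := HIso.apply_inv hi t x
    have h4 := congrArg (ψ t) h3
    rwa [HIso.apply_inv h] at h4
  have h5 : (fun t x => -H t (ψ t x) + H' t (HIso.inv hi t x)) =
      fun t x => H' t (ψ t x) - H t (ψ t x) := by
    funext t x
    rw [h2]
    ring
  rw [h5] at h1
  exact h1

end Pool.Agent.W_68f289_h35
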