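import Pool.Agent.W_68f289_h35.OpB
import Pool.Agent.W_MP_68f289_gt.Grp

/-!
Conjugation, change of time, homothety.
-/

open Set Metric Topology Pool.Agent.W_MP_68f289_gt MeasureTheory
open scoped NNReal ContDiff

namespace Pool.Agent.W_68f289_h35

variable {n : ℕ} {H H' : ℝ → E n → ℝ} {ψ ψ' : ℝ → E n → E n}

/-- conjugation by a smooth symplectic map with smooth inverse preserving the ball; `XH_comp` with
`gi` at `g y`, or with `g` -/
theorem HIso.conj (h : HIso n H ψ) {g : E n ≃ₜ E n}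
    (hg : ContDiff ℝ ((⊤ : ℕ∞) : WithTop ℕ∞) g) (hgi : ContDiff ℝ ((⊤ : ℕ∞) : WithTop ℕ∞) g.symm)
    (hs : ∀ x, Symp (fderiv ℝ g x)) (hB : ∀ x ∈ Bl n, g x ∈ Bl n) :
    HIso n (fun t x => H t (g.symm x)) (fun t x => g (ψ t (g.symm x))) := by
  obtain ⟨K, hK, hKB, h0⟩ := h.supp
  have hA : Adm n H K := ⟨h.smooth, hK, hKB, h0⟩
  refine ⟨?_, ⟨g '' K, hK.image g.continuous, ?_, ?_⟩, ?_, ?_⟩
  · exact h.smooth.comp (contDiff_fst.prodMk (hgi.comp contDiff_snd))
  · rintro _ ⟨x, hx, rfl⟩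
    exact hB x (hKB hx)
  · intro t x hx
    refine h0 t _ fun hx' => hx ⟨g.symm x, hx', g.apply_symm_apply x⟩
  · intro x
    rw [h.zero, g.apply_symm_apply]
  · intro t x
    have hgd : Differentiable ℝ g := hg.differentiable (by simp)
    have hgid : Differentiable ℝ g.symm := hgi.differentiable (by simp)
    have hd : Differentiable ℝ (fun z => H t (g.symm z)) := fun z =>
      (hA.diff t (g.symm z)).comp z (hgid z)
    have h1 : HasDerivAt (fun s => g (ψ s (g.symm x)))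
        (fderiv ℝ g (ψ t (g.symm x)) (XH (H t) (ψ t (g.symm x)))) t :=
      HasFDerivAt.comp_hasDerivAt (f := fun s : ℝ => ψ s (g.symm x)) t
        (hgd (ψ t (g.symm x))).hasFDerivAt (h.der t (g.symm x))
    have h2 := XH_comp (g := g) (h := fun z => H t (g.symm z)) (x := ψ t (g.symm x))
      (hgd _) (hs _) (hd _)
    have h3 : (fun y => (fun z => H t (g.symm z)) (g y)) = H t := by
      funext y
      change H t (g.symm (g y)) = H t y
      rw [g.symm_apply_apply]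
    rw [h3] at h2
    change HasDerivAt (fun s => g (ψ s (g.symm x))) (XH (fun z => H t (g.symm z))
      (g (ψ t (g.symm x)))) t
    rw [← h2]
    exact h1

/-- change of time -/
theorem HIso.reparam (h : HIso n H ψ) {s : ℝ → ℝ} (hs : ContDiff ℝ ((⊤ : ℕ∞) : WithTop ℕ∞) s) :
    HIso n (fun t x => deriv s t * H (s t) x) (fun t x => ψ (s t) (HIso.inv h (s 0) x)) := by
  obtain ⟨K, hK, hKB, h0⟩ := h.supp
  have hA : Adm n H K := ⟨h.smooth, hK, hKB, h0⟩
  refine ⟨?_, ⟨K, hK, hKB, ?_⟩, ?_, ?_⟩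
  · exact ((contDiff_infty_iff_deriv.1 hs).2.comp contDiff_fst).mul
      (h.smooth.comp ((hs.comp contDiff_fst).prodMk contDiff_snd))
  · intro t x hx
    rw [h0 (s t) x hx, mul_zero]
  · intro x
    exact HIso.apply_inv h (s 0) x
  · intro t x
    have hsd : HasDerivAt s (deriv s t) t := (hs.differentiable (by simp) t).hasDerivAt
    have h1 : HasDerivAt (fun r => ψ (s r) (HIso.inv h (s 0) x))
        (deriv s t • XH (H (s t)) (ψ (s t) (HIso.inv h (s 0) x))) t :=
      HasDerivAt.scomp t (h.der (s t) (HIso.inv h (s 0) x)) hsd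
    change HasDerivAt (fun r => ψ (s r) (HIso.inv h (s 0) x))
      (XH (fun x => deriv s t * H (s t) x) (ψ (s t) (HIso.inv h (s 0) x))) t
    rw [XH_const_mul (hA.diff (s t) _)]
    exact h1

/-- homothety by `r` in `(0, 1]` -/
theorem HIso.homoth (h : HIso n H ψ) {r : ℝ} (h0 : 0 < r) (h1 : r ≤ 1) :
    HIso n (fun t x => r ^ 2 * H t (r⁻¹ • x)) (fun t x => r • ψ t (r⁻¹ • x)) := by
  obtain ⟨K, hK, hKB, hz⟩ := h.supp
  have hA : Adm n H K := ⟨h.smooth, hK, hKB, hz⟩
  have hr : r ≠ 0 := h0.ne'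
  refine ⟨?_, ⟨(fun x : E n => r • x) '' K, hK.image (continuous_const_smul r), ?_, ?_⟩, ?_, ?_⟩
  · exact contDiff_const.mul
      (h.smooth.comp (contDiff_fst.prodMk (contDiff_snd.const_smul r⁻¹)))
  · rintro _ ⟨x, hx, rfl⟩
    have h2 : qf x < 1 := hKB hx
    have h3 : qf (r • x) = r ^ 2 * qf x := by
      unfold qf
      rw [Finset.mul_sum]
      refine Finset.sum_congr rfl fun i _ => ?_
      simp only [Prod.smul_fst, Prod.smul_snd, Pi.smul_apply, smul_eq_mul]
      ring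
    have h4 : 0 ≤ qf x := Finset.sum_nonneg fun i _ => by positivity
    change qf (r • x) < 1
    rw [h3]
    have h5 : r ^ 2 ≤ 1 := by nlinarith
    calc r ^ 2 * qf x ≤ 1 * qf x := mul_le_mul_of_nonneg_right h5 h4
      _ < 1 := by rw [one_mul]; exact h2
  · intro t x hx
    have h2 : r⁻¹ • x ∉ K := fun hx' => hx ⟨r⁻¹ • x, hx', smul_inv_smul₀ hr x⟩
    change r ^ 2 * H t (r⁻¹ • x) = 0
    rw [hz t _ h2, mul_zero]
  · intro x
    change r • ψ 0 (r⁻¹ • x) = x
    rw [h.zero, smul_inv_smul₀ hr]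
  · intro t x
    have h2 : HasDerivAt (fun s => r • ψ s (r⁻¹ • x)) (r • XH (H t) (ψ t (r⁻¹ • x))) t :=
      (h.der t (r⁻¹ • x)).const_smul r
    have h3 := XH_aff (h := H t) (fun z => hA.diff t z) 0 r hr (r • ψ t (r⁻¹ • x))
    simp only [sub_zero] at h3
    rw [inv_smul_smul₀ hr] at h3
    change HasDerivAt (fun s => r • ψ s (r⁻¹ • x))
      (XH (fun z => r ^ 2 * H t (r⁻¹ • z)) (r • ψ t (r⁻¹ • x))) t
    rw [h3]
    exact h2

end Pool.Agent.W_68f289_h35
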