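import Pool.Agent.W_68f289_h35.OpC

/-!
Existence of flows for all times.
-/

open Set Metric Topology Pool.Agent.W_MP_68f289_gt MeasureTheory
open scoped NNReal ContDiff

namespace Pool.Agent.W_68f289_h35

variable {n : ℕ} {H H' : ℝ → E n → ℝ} {ψ ψ' : ℝ → E n → E n}

/-- solutions on `[-T, T]` -/
lemma exists_flow_aux {H : ℝ → E n → ℝ}
    (hH : ContDiff ℝ ((⊤ : ℕ∞) : WithTop ℕ∞) (Function.uncurry H)) {K : Set (E n)}
    (hc : IsCompact K) (hKB : K ⊆ Bl n) (hK : ∀ t, ∀ x, x ∉ K → H t x = 0) {T : ℝ} (hT : 0 < T) :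
    (∃ α : E n → ℝ → E n, (∀ x, α x 0 = x) ∧ ∀ x, ∀ t ∈ Ioo (-T) T,
      HasDerivAt (α x) (XH (H t) (α x t)) t) ∧
    ∃ C : ℝ≥0, ∀ t ∈ Icc (-T) T, LipschitzWith C (XH (H t)) := by
  have hA1 : Adm n (fun s x => H (-T + 2 * T * s) x) K :=
    ⟨hH.comp ((contDiff_const.add (contDiff_const.mul contDiff_fst)).prodMk contDiff_snd), hc, hKB,
      fun t x hx => hK _ x hx⟩
  have hA : Adm n (fun s x => (2 * T) * H (-T + 2 * T * s) x) K :=
    ⟨contDiff_const.mul hA1.smooth, hc, hKB, fun t x hx => by rw [hK _ x hx, mul_zero]⟩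
  have hT2 : (0 : ℝ) < 2 * T := by positivity
  have hf : ∀ t : ℝ, -T + 2 * T * ((t + T) / (2 * T)) = t := by
    intro t
    field_simp
    ring
  have h01 : ∀ t ∈ Icc (-T) T, (t + T) / (2 * T) ∈ Icc (0 : ℝ) 1 := by
    intro t ht
    constructor
    · exact div_nonneg (by linarith [ht.1]) hT2.le
    · rw [div_le_one hT2]; linarith [ht.2]
  refine ⟨⟨fun x t => hA.good.sol ⟨1 / 2, by constructor <;> norm_num⟩ x ((t + T) / (2 * T)),
    fun x => ?_, fun x t ht => ?_⟩, ?_⟩
  · have e : ((0 : ℝ) + T) / (2 * T) = 1 / 2 := by field_simp; ring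
    change hA.good.sol ⟨1 / 2, _⟩ x (((0 : ℝ) + T) / (2 * T)) = x
    rw [e]
    exact hA.good.sol_self ⟨1 / 2, by constructor <;> norm_num⟩ x
  · have htt : t ∈ Icc (-T) T := Ioo_subset_Icc_self ht
    have h1 := hA.good.sol_IC ⟨1 / 2, by constructor <;> norm_num⟩ x ((t + T) / (2 * T)) (h01 t htt)
    have h2 : Icc (0 : ℝ) 1 ∈ 𝓝 ((t + T) / (2 * T)) := by
      apply Icc_mem_nhds
      · exact div_pos (by linarith [ht.1]) hT2
      · rw [div_lt_one hT2]; linarith [ht.2]
    have h3 := h1.hasDerivAt h2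
    have h4 : HasDerivAt (fun t : ℝ => (t + T) / (2 * T)) (1 / (2 * T)) t := by
      simpa using ((hasDerivAt_id t).add_const T).div_const (2 * T)
    have h5 := h3.scomp t h4
    have h6 : XH (fun x => (2 * T) * H (-T + 2 * T * ((t + T) / (2 * T))) x)
        (hA.good.sol ⟨1 / 2, by constructor <;> norm_num⟩ x ((t + T) / (2 * T))) =
        (2 * T) • XH (H t) (hA.good.sol ⟨1 / 2, by constructor <;> norm_num⟩ x
          ((t + T) / (2 * T))) := by
      rw [hf t]
      exact XH_const_mul (((hH.comp (contDiff_const.prodMk contDiff_id)).differentiable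
        (by simp)) _) _
    have h7 : (1 / (2 * T)) • ((2 * T) • XH (H t) (hA.good.sol
        ⟨1 / 2, by constructor <;> norm_num⟩ x ((t + T) / (2 * T)))) =
        XH (H t) (hA.good.sol ⟨1 / 2, by constructor <;> norm_num⟩ x ((t + T) / (2 * T))) := by
      rw [smul_smul, one_div, inv_mul_cancel₀ hT2.ne', one_smul]
    have h8 : HasDerivAt ((hA.good.sol ⟨1 / 2, by constructor <;> norm_num⟩ x) ∘
        fun t : ℝ => (t + T) / (2 * T)) ((1 / (2 * T)) • XH (fun x => (2 * T) *
          H (-T + 2 * T * ((t + T) / (2 * T))) x) (hA.good.sol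
            ⟨1 / 2, by constructor <;> norm_num⟩ x ((t + T) / (2 * T)))) t := h5
    rw [h6, h7] at h8
    exact h8
  · refine ⟨hA1.C, fun t ht => ?_⟩
    have h1 := hA1.good.lip ((t + T) / (2 * T)) (h01 t ht)
    have h2 : XH (fun x => H (-T + 2 * T * ((t + T) / (2 * T))) x) = XH (H t) := by rw [hf t]
    have h3 : LipschitzWith hA1.C (XH (fun x => H (-T + 2 * T * ((t + T) / (2 * T))) x)) := h1
    rw [h2] at h3
    exact h3

/-- every smooth Hamiltonian with compact support in the ball has a flow, defined for all times.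
Proof: on `[0, 1]` this is in the library (`Adm.good`, `Good.sol`); for all times: for `T > 0` the
rescaled field `s x ↦ T • XH (H (T * s)) x` is good on `[0, 1]`, the solutions for different `T`
agree where both are defined; same for negative times. Alternatively: let `θ : ℝ → ℝ`, and use the
field on the whole line by gluing `Good.sol` on `[k, k + 1]`. -/
theorem exists_flow {H : ℝ → E n → ℝ}
    (hH : ContDiff ℝ ((⊤ : ℕ∞) : WithTop ℕ∞) (Function.uncurry H)) {K : Set (E n)}
    (hc : IsCompact K) (hKB : K ⊆ Bl n) (hK : ∀ t, ∀ x, x ∉ K → H t x = 0) :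
    ∃ ψ, HIso n H ψ := by
  have h1 := fun T : {T : ℝ // 0 < T} => (exists_flow_aux hH hc hKB hK T.2).1
  have h2 := fun T : {T : ℝ // 0 < T} => (exists_flow_aux hH hc hKB hK T.2).2
  choose α hα0 hα using h1
  choose C hC using h2
  have hu : ∀ (S T : {T : ℝ // 0 < T}) (x : E n) (t : ℝ), |t| < S → |t| < T →
      α S x t = α T x t := by
    intro S T x t hS hT
    obtain ⟨R, hR1, hR2⟩ := exists_between (lt_min hS hT)
    have hR0 : 0 < R := (abs_nonneg t).trans_lt hR1
    have hRS : R < S := hR2.trans_le (min_le_left _ _)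
    have hRT : R < T := hR2.trans_le (min_le_right _ _)
    have key : EqOn (α S x) (α T x) (Icc (-R) R) := by
      refine ODE_solution_unique_of_mem_Icc (v := fun t => XH (H t)) (s := fun _ => univ)
        (K := C S) (t₀ := 0)
        (fun r hr => (hC S r ⟨by linarith [hr.1], by linarith [hr.2]⟩).lipschitzOnWith)
        ⟨by linarith, hR0⟩ ?_ ?_ (fun _ _ => trivial) ?_ ?_ (fun _ _ => trivial)
        ((hα0 S x).trans (hα0 T x).symm)
      · intro r hr
        exact (hα S x r ⟨by linarith [hr.1], by linarith [hr.2]⟩).continuousAt.continuousWithinAt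
      · intro r hr
        exact hα S x r ⟨by linarith [hr.1], by linarith [hr.2]⟩
      · intro r hr
        exact (hα T x r ⟨by linarith [hr.1], by linarith [hr.2]⟩).continuousAt.continuousWithinAt
      · intro r hr
        exact hα T x r ⟨by linarith [hr.1], by linarith [hr.2]⟩
    exact key ⟨by linarith [neg_abs_le t], by linarith [le_abs_self t]⟩
  refine ⟨fun t x => α ⟨|t| + 1, by positivity⟩ x t, hH, ⟨K, hc, hKB, hK⟩, fun x => hα0 _ x,
    fun t x => ?_⟩
  set T : {T : ℝ // 0 < T} := ⟨|t| + 1, by positivity⟩ with hT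
  have hTv : (T : ℝ) = |t| + 1 := rfl
  have h3 := hα T x t ⟨by linarith [neg_abs_le t], by linarith [le_abs_self t]⟩
  refine h3.congr_of_eventuallyEq ?_
  have h4 : {s : ℝ | |s| < T} ∈ 𝓝 t :=
    (isOpen_lt continuous_abs continuous_const).mem_nhds (by
      change |t| < T
      linarith)
  filter_upwards [h4] with s hs
  exact hu _ _ _ _ (by change |s| < |s| + 1; linarith) hs

end Pool.Agent.W_68f289_h35
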