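import Pool.Agent.W_68f289_h35.OpD

/-!
Properties of Hamiltonian diffeomorphisms.
-/

open Set Metric Topology Pool.Agent.W_MP_68f289_gt MeasureTheory
open scoped NNReal ContDiff

namespace Pool.Agent.W_68f289_h35

variable {n : ℕ} {H H' : ℝ → E n → ℝ} {ψ ψ' : ℝ → E n → E n}

/-- A Hamiltonian diffeomorphism is a smooth symplectic map with smooth inverse, which preserves the
ball and the volume. -/
theorem isHam_props {g : E n ≃ₜ E n} (hg : IsHam n g) :
    ContDiff ℝ ((⊤ : ℕ∞) : WithTop ℕ∞) g ∧ ContDiff ℝ ((⊤ : ℕ∞) : WithTop ℕ∞) g.symm ∧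
      (∀ x, Symp (fderiv ℝ g x)) ∧ (∀ x ∈ Bl n, g x ∈ Bl n) ∧ MeasurePreserving g volume volume := by
  obtain ⟨H, ψ, h, hu⟩ := hg
  have hgψ : (g : E n → E n) = ψ 1 := funext hu
  have hsymm : (g.symm : E n → E n) = HIso.inv h 1 := by
    funext x
    rw [Homeomorph.symm_apply_eq, hu]
    exact (HIso.apply_inv h 1 x).symm
  refine ⟨?_, ?_, ?_, ?_, ?_⟩
  · rw [hgψ]
    exact (HIso.contDiff h).comp (contDiff_const.prodMk contDiff_id)
  · rw [hsymm]
    exact (HIso.inv_contDiff h).comp (contDiff_const.prodMk contDiff_id)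
  · intro x
    rw [hgψ]
    exact HIso.symp h 1 x
  · intro x hx
    obtain ⟨K, hc, hKB, hK⟩ := h.supp
    rw [hu]
    by_cases hxK : x ∈ K
    · exact hKB ((HIso.mem_iff h hc hK 1 x).mpr hxK)
    · rw [HIso.off h hc hK 1 hxK]
      exact hx
  · rw [hgψ]
    exact HIso.measurePreserving h 1

end Pool.Agent.W_68f289_h35
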