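import Pool.Agent.W_68f289_h35.Stmt
import Pool.Agent.W_MP_68f289_gt.Ham

/-!
Oscillation.
-/

open Set Metric Topology Pool.Agent.W_MP_68f289_gt MeasureTheory
open scoped NNReal ContDiff

namespace Pool.Agent.W_68f289_h35

variable {n : ℕ}

/-- oscillation -/
noncomputable def osc (f : E n → ℝ) : ℝ := (⨆ x, f x) - ⨅ x, f x

lemma hofer_eq (H : ℝ → E n → ℝ) : hofer H = ∫ t in (0 : ℝ)..1, osc (H t) := rfl

/-- bounded functions -/
def Bd (f : E n → ℝ) : Prop := ∃ M : ℝ, ∀ x, |f x| ≤ M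

lemma Bd.bddAbove {f : E n → ℝ} (hf : Bd f) : BddAbove (range f) := by
  obtain ⟨M, hM⟩ := hf
  refine ⟨M, ?_⟩
  rintro _ ⟨x, rfl⟩
  exact (abs_le.1 (hM x)).2

lemma Bd.bddBelow {f : E n → ℝ} (hf : Bd f) : BddBelow (range f) := by
  obtain ⟨M, hM⟩ := hf
  refine ⟨-M, ?_⟩
  rintro _ ⟨x, rfl⟩
  exact (abs_le.1 (hM x)).1

lemma Bd.add {f g : E n → ℝ} (hf : Bd f) (hg : Bd g) : Bd (fun x => f x + g x) := by
  obtain ⟨M, hM⟩ := hf
  obtain ⟨N, hN⟩ := hg
  exact ⟨M + N, fun x => (abs_add_le _ _).trans (add_le_add (hM x) (hN x))⟩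

lemma Bd.sub {f g : E n → ℝ} (hf : Bd f) (hg : Bd g) : Bd (fun x => f x - g x) := by
  obtain ⟨M, hM⟩ := hf
  obtain ⟨N, hN⟩ := hg
  exact ⟨M + N, fun x => (abs_sub _ _).trans (add_le_add (hM x) (hN x))⟩

lemma Bd.comp {f : E n → ℝ} (hf : Bd f) (g : E n → E n) : Bd (fun x => f (g x)) := by
  obtain ⟨M, hM⟩ := hf
  exact ⟨M, fun x => hM (g x)⟩

lemma Bd.const_mul {f : E n → ℝ} (hf : Bd f) (c : ℝ) : Bd (fun x => c * f x) := by
  obtain ⟨M, hM⟩ := hf
  refine ⟨|c| * M, fun x => ?_⟩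
  rw [abs_mul]
  exact mul_le_mul_of_nonneg_left (hM x) (abs_nonneg c)

/-- differences of values are bounded by the oscillation -/
lemma sub_le_osc {f : E n → ℝ} (hf : Bd f) (x y : E n) : f x - f y ≤ osc f :=
  sub_le_sub (le_ciSup hf.bddAbove x) (ciInf_le hf.bddBelow y)

/-- the oscillation is the least bound for the differences -/
lemma osc_le_of {f : E n → ℝ} {c : ℝ} (h : ∀ x y, f x - f y ≤ c) : osc f ≤ c := by
  unfold osc
  have h1 : ∀ y, (⨆ x, f x) ≤ c + f y := fun y => ciSup_le fun x => by linarith [h x y]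
  have h2 : (⨆ x, f x) - c ≤ ⨅ y, f y := le_ciInf fun y => by linarith [h1 y]
  linarith

/-- also true for unbounded functions with the junk values `0`? not needed -/
lemma osc_nonneg {f : E n → ℝ} (hf : Bd f) : 0 ≤ osc f := by
  have := sub_le_osc hf 0 0
  linarith

lemma osc_add_le {f g : E n → ℝ} (hf : Bd f) (hg : Bd g) :
    osc (fun x => f x + g x) ≤ osc f + osc g := by
  refine osc_le_of fun x y => ?_
  have h1 := sub_le_osc hf x y
  have h2 := sub_le_osc hg x y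
  linarith

lemma osc_sub_le {f g : E n → ℝ} (hf : Bd f) (hg : Bd g) :
    osc (fun x => f x - g x) ≤ osc f + osc g := by
  refine osc_le_of fun x y => ?_
  have h1 := sub_le_osc hf x y
  have h2 := sub_le_osc hg y x
  linarith

lemma osc_const_mul_le {f : E n → ℝ} (hf : Bd f) (c : ℝ) :
    osc (fun x => c * f x) ≤ |c| * osc f := by
  refine osc_le_of fun x y => ?_
  have h1 := sub_le_osc hf x y
  have h2 := sub_le_osc hf y x
  have h3 : |f x - f y| ≤ osc f := abs_le.2 ⟨by linarith, h1⟩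
  calc c * f x - c * f y = c * (f x - f y) := by ring
    _ ≤ |c * (f x - f y)| := le_abs_self _
    _ = |c| * |f x - f y| := abs_mul _ _
    _ ≤ |c| * osc f := mul_le_mul_of_nonneg_left h3 (abs_nonneg c)

lemma osc_const_mul {f : E n → ℝ} (hf : Bd f) (c : ℝ) : osc (fun x => c * f x) = |c| * osc f := by
  refine le_antisymm (osc_const_mul_le hf c) ?_
  rcases eq_or_ne c 0 with rfl | hc
  · rw [abs_zero, zero_mul]
    exact osc_nonneg (hf.const_mul 0)
  · have h1 := osc_const_mul_le (hf.const_mul c) c⁻¹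
    have e : (fun x => c⁻¹ * (c * f x)) = f := by
      funext x
      rw [inv_mul_cancel_left₀ hc]
    rw [e, abs_inv] at h1
    have hc' : 0 < |c| := abs_pos.2 hc
    calc |c| * osc f ≤ |c| * (|c|⁻¹ * osc (fun x => c * f x)) :=
          mul_le_mul_of_nonneg_left h1 hc'.le
      _ = osc (fun x => c * f x) := mul_inv_cancel_left₀ hc'.ne' _

lemma osc_le {f : E n → ℝ} {M : ℝ} (h : ∀ x, |f x| ≤ M) : osc f ≤ 2 * M := by
  refine osc_le_of fun x y => ?_
  have h1 := (abs_le.1 (h x)).2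
  have h2 := (abs_le.1 (h y)).1
  linarith

/-- for functions with a zero -/
lemma abs_le_osc {f : E n → ℝ} (hf : Bd f) {x₀ : E n} (h0 : f x₀ = 0) (x : E n) : |f x| ≤ osc f := by
  have h1 := sub_le_osc hf x x₀
  have h2 := sub_le_osc hf x₀ x
  rw [h0] at h1 h2
  exact abs_le.2 ⟨by linarith, by linarith⟩

/-- `Function.Surjective.iSup_comp`, `iInf_comp` -/
lemma osc_comp (f : E n → ℝ) {g : E n → E n} (hg : Function.Surjective g) :
    osc (fun x => f (g x)) = osc f := by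
  unfold osc
  rw [hg.iSup_comp (g := f), hg.iInf_comp (g := f)]

end Pool.Agent.W_68f289_h35
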