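import Pool.Agent.W_68f289_h35.OsA

/-!
Continuity of the oscillation.
-/

open Set Metric Topology Pool.Agent.W_MP_68f289_gt MeasureTheory
open scoped NNReal ContDiff

namespace Pool.Agent.W_68f289_h35

variable {n : ℕ}

/-- smooth, or just jointly continuous, functions with support in a compact set are bounded on
compact time intervals -/
lemma exists_bound {H : ℝ → E n → ℝ} (hH : Continuous (Function.uncurry H)) {K : Set (E n)}
    (hc : IsCompact K) (hK : ∀ t, ∀ x, x ∉ K → H t x = 0) (a b : ℝ) :
    ∃ M : ℝ, 0 ≤ M ∧ ∀ t ∈ Icc a b, ∀ x, |H t x| ≤ M := by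
  obtain ⟨C, hC⟩ := (isCompact_Icc (a := a) (b := b)).prod hc
    |>.exists_bound_of_continuousOn hH.continuousOn
  refine ⟨max C 0, le_max_right _ _, fun t ht x => ?_⟩
  by_cases hx : x ∈ K
  · exact le_trans (hC (t, x) ⟨ht, hx⟩) (le_max_left _ _)
  · rw [hK t x hx, abs_zero]
    exact le_max_right _ _

lemma bd_of_supp {H : ℝ → E n → ℝ} (hH : Continuous (Function.uncurry H)) {K : Set (E n)}
    (hc : IsCompact K) (hK : ∀ t, ∀ x, x ∉ K → H t x = 0) (t : ℝ) : Bd (H t) := by
  obtain ⟨M, -, hM⟩ := exists_bound hH hc hK t t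
  exact ⟨M, hM t ⟨le_refl t, le_refl t⟩⟩

/-- `|osc f - osc g| ≤ 2 sup |f - g|` and uniform continuity of `H` on `[t - 1, t + 1] × K`, or
`Continuous.iSup`-type lemmas on the compact set `K` -/
lemma continuous_osc {H : ℝ → E n → ℝ} (hH : Continuous (Function.uncurry H)) {K : Set (E n)}
    (hc : IsCompact K) (hK : ∀ t, ∀ x, x ∉ K → H t x = 0) : Continuous (fun t => osc (H t)) := by
  have hlip : ∀ s t : ℝ, ∀ δ : ℝ, (∀ x, |H s x - H t x| ≤ δ) → osc (H s) ≤ osc (H t) + 2 * δ := by
    intro s t δ h
    have h1 := osc_add_le (bd_of_supp hH hc hK t)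
      ((bd_of_supp hH hc hK s).sub (bd_of_supp hH hc hK t))
    have h2 : (fun x => H t x + (H s x - H t x)) = H s := by
      funext x
      ring
    rw [h2] at h1
    have h3 := osc_le h
    linarith
  rw [continuous_iff_continuousAt]
  intro t
  rw [Metric.continuousAt_iff']
  intro ε hε
  have hev : ∀ᶠ s in 𝓝 t, ∀ x ∈ K, |H s x - H t x| < ε / 4 := by
    refine hc.eventually_forall_of_forall_eventually fun y _ => ?_
    have hcont : Continuous fun z : ℝ × E n => |H z.1 z.2 - H t z.2| := by
      have h1 : Continuous fun z : ℝ × E n => H z.1 z.2 := hH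
      have h2 : Continuous fun z : ℝ × E n => H t z.2 :=
        hH.comp (continuous_const.prodMk continuous_snd)
      exact (h1.sub h2).abs
    refine hcont.continuousAt.eventually_lt continuousAt_const ?_
    show |H t y - H t y| < ε / 4
    rw [sub_self, abs_zero]
    positivity
  filter_upwards [hev] with s hs
  have hs' : ∀ x, |H s x - H t x| ≤ ε / 4 := by
    intro x
    by_cases hx : x ∈ K
    · exact (hs x hx).le
    · rw [hK s x hx, hK t x hx, sub_self, abs_zero]
      positivity
  have h1 := hlip s t (ε / 4) hs'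
  have h2 := hlip t s (ε / 4) fun x => by rw [abs_sub_comm]; exact hs' x
  rw [Real.dist_eq, abs_lt]
  constructor <;> linarith

end Pool.Agent.W_68f289_h35
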