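import Pool.Agent.W_68f289_h35.OsB

/-!
Hofer norm.
-/

open Set Metric Topology Pool.Agent.W_MP_68f289_gt MeasureTheory
open scoped NNReal ContDiff

namespace Pool.Agent.W_68f289_h35

variable {n : ℕ}

/-- the Hofer norm of a time change of the difference of two Hamiltonians, for a monotone time change
with values in `[0, 1]` -/
lemma hofer_reparam_le {H : ℝ → E n → ℝ} (hH : Continuous (Function.uncurry H)) {K : Set (E n)}
    (hc : IsCompact K) (hK : ∀ t, ∀ x, x ∉ K → H t x = 0) {s : ℝ → ℝ}
    (hs : ContDiff ℝ ((⊤ : ℕ∞) : WithTop ℕ∞) s) (hmono : ∀ t, 0 ≤ deriv s t)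
    (h0 : 0 ≤ s 0) (h1 : s 1 ≤ 1) :
    hofer (fun t x => deriv s t * H (s t) x) ≤ hofer H := by
  have hcont : Continuous fun u => osc (H u) := continuous_osc hH hc hK
  have hd : Continuous (deriv s) := hs.continuous_deriv (by norm_num)
  have hdiff : Differentiable ℝ s := hs.differentiable (by norm_num)
  have hm : Monotone s := monotone_of_deriv_nonneg hdiff hmono
  have h01 : s 0 ≤ s 1 := hm zero_le_one
  rw [hofer_eq, hofer_eq]
  have e1 : ∫ t in (0 : ℝ)..1, osc (fun x => deriv s t * H (s t) x) =
      ∫ t in (0 : ℝ)..1, ((fun u => osc (H u)) ∘ s) t * deriv s t := by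
    refine intervalIntegral.integral_congr fun t _ => ?_
    show osc (fun x => deriv s t * H (s t) x) = osc (H (s t)) * deriv s t
    rw [osc_const_mul (bd_of_supp hH hc hK (s t)), abs_of_nonneg (hmono t), mul_comm]
  rw [e1, intervalIntegral.integral_comp_mul_deriv (fun t _ => (hdiff t).hasDerivAt)
    hd.continuousOn hcont]
  refine intervalIntegral.integral_mono_interval h0 h01 h1 ?_ (hcont.intervalIntegrable 0 1)
  exact Filter.Eventually.of_forall fun t => osc_nonneg (bd_of_supp hH hc hK t)

/-- time reversal preserves the Hofer norm -/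
lemma hofer_reverse (H : ℝ → E n → ℝ) : hofer (fun t x => H (1 - t) x) = hofer H := by
  rw [hofer_eq, hofer_eq]
  have h := intervalIntegral.integral_comp_sub_left (a := 0) (b := 1) (fun t => osc (H t)) (1 : ℝ)
  rw [sub_self, sub_zero] at h
  exact h

lemma hofer_nonneg {H : ℝ → E n → ℝ} (hb : ∀ t, Bd (H t)) : 0 ≤ hofer H := by
  rw [hofer_eq]
  exact intervalIntegral.integral_nonneg zero_le_one fun t _ => osc_nonneg (hb t)

/-- triangle inequality -/
lemma hofer_add_le {H H' : ℝ → E n → ℝ} (hH : Continuous (Function.uncurry H))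
    (hH' : Continuous (Function.uncurry H')) {K : Set (E n)} (hc : IsCompact K)
    (hK : ∀ t, ∀ x, x ∉ K → H t x = 0) (hK' : ∀ t, ∀ x, x ∉ K → H' t x = 0) :
    hofer (fun t x => H t x + H' t x) ≤ hofer H + hofer H' := by
  have c1 : Continuous fun u => osc (H u) := continuous_osc hH hc hK
  have c2 : Continuous fun u => osc (H' u) := continuous_osc hH' hc hK'
  have hsum : Continuous (Function.uncurry fun (t : ℝ) (x : E n) => H t x + H' t x) :=
    hH.add hH'
  have c3 : Continuous fun u => osc (fun x => H u x + H' u x) :=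
    continuous_osc (H := fun t x => H t x + H' t x) hsum hc fun t x hx => by
      show H t x + H' t x = 0
      rw [hK t x hx, hK' t x hx, add_zero]
  rw [hofer_eq, hofer_eq, hofer_eq,
    ← intervalIntegral.integral_add (c1.intervalIntegrable 0 1) (c2.intervalIntegrable 0 1)]
  refine intervalIntegral.integral_mono_on zero_le_one (c3.intervalIntegrable 0 1)
    ((c1.add c2).intervalIntegrable 0 1) fun t _ => ?_
  exact osc_add_le (bd_of_supp hH hc hK t) (bd_of_supp hH' hc hK' t)

lemma hofer_sub_le {H H' : ℝ → E n → ℝ} (hH : Continuous (Function.uncurry H))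
    (hH' : Continuous (Function.uncurry H')) {K : Set (E n)} (hc : IsCompact K)
    (hK : ∀ t, ∀ x, x ∉ K → H t x = 0) (hK' : ∀ t, ∀ x, x ∉ K → H' t x = 0) :
    hofer (fun t x => H t x - H' t x) ≤ hofer H + hofer H' := by
  have c1 : Continuous fun u => osc (H u) := continuous_osc hH hc hK
  have c2 : Continuous fun u => osc (H' u) := continuous_osc hH' hc hK'
  have hsum : Continuous (Function.uncurry fun (t : ℝ) (x : E n) => H t x - H' t x) :=
    hH.sub hH'
  have c3 : Continuous fun u => osc (fun x => H u x - H' u x) :=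
    continuous_osc (H := fun t x => H t x - H' t x) hsum hc fun t x hx => by
      show H t x - H' t x = 0
      rw [hK t x hx, hK' t x hx, sub_zero]
  rw [hofer_eq, hofer_eq, hofer_eq,
    ← intervalIntegral.integral_add (c1.intervalIntegrable 0 1) (c2.intervalIntegrable 0 1)]
  refine intervalIntegral.integral_mono_on zero_le_one (c3.intervalIntegrable 0 1)
    ((c1.add c2).intervalIntegrable 0 1) fun t _ => ?_
  exact osc_sub_le (bd_of_supp hH hc hK t) (bd_of_supp hH' hc hK' t)

lemma hofer_const_mul {H : ℝ → E n → ℝ} (hb : ∀ t, Bd (H t)) (c : ℝ) :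
    hofer (fun t x => c * H t x) = |c| * hofer H := by
  rw [hofer_eq, hofer_eq, ← intervalIntegral.integral_const_mul]
  exact intervalIntegral.integral_congr fun t _ => osc_const_mul (hb t) c

/-- uniformly small Hamiltonians have small Hofer norm -/
lemma hofer_le_of_abs_le {H : ℝ → E n → ℝ} (hH : Continuous (Function.uncurry H)) {K : Set (E n)}
    (hc : IsCompact K) (hK : ∀ t, ∀ x, x ∉ K → H t x = 0) {M : ℝ}
    (h : ∀ t ∈ Icc (0 : ℝ) 1, ∀ x, |H t x| ≤ M) : hofer H ≤ 2 * M := by
  have c1 : Continuous fun u => osc (H u) := continuous_osc hH hc hK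
  rw [hofer_eq]
  calc ∫ t in (0 : ℝ)..1, osc (H t) ≤ ∫ _t in (0 : ℝ)..1, 2 * M :=
        intervalIntegral.integral_mono_on zero_le_one (c1.intervalIntegrable 0 1)
          (continuous_const.intervalIntegrable 0 1) fun t ht => osc_le (h t ht)
    _ = 2 * M := by rw [intervalIntegral.integral_const, sub_zero, one_smul]

/-- invariance under a time dependent change of the space variable -/
lemma hofer_comp (H : ℝ → E n → ℝ) {g : ℝ → E n → E n} (hg : ∀ t, Function.Surjective (g t)) :
    hofer (fun t x => H t (g t x)) = hofer H := by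
  rw [hofer_eq, hofer_eq]
  exact intervalIntegral.integral_congr fun t _ => osc_comp (H t) (hg t)

lemma hofer_homoth {H : ℝ → E n → ℝ} (hb : ∀ t, Bd (H t)) {r : ℝ} (h0 : 0 < r) :
    hofer (fun t x => r ^ 2 * H t (r⁻¹ • x)) = r ^ 2 * hofer H := by
  have hsurj : Function.Surjective fun x : E n => r⁻¹ • x := by
    intro y
    refine ⟨r • y, ?_⟩
    show r⁻¹ • r • y = y
    rw [smul_smul, inv_mul_cancel₀ h0.ne', one_smul]
  have h1 := hofer_const_mul (H := fun t x => H t (r⁻¹ • x)) (fun t => (hb t).comp _) (r ^ 2)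
  rw [h1, abs_of_nonneg (by positivity)]
  congr 1
  exact hofer_comp H (g := fun _ x => r⁻¹ • x) fun _ => hsurj

end Pool.Agent.W_68f289_h35
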