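import Pool.Agent.W_68f289_h35.OsC
import Pool.Agent.W_68f289_t6.Haar

/-!
Calabi invariant.
-/

open Set Metric Topology Pool.Agent.W_MP_68f289_gt MeasureTheory
open scoped NNReal ContDiff

namespace Pool.Agent.W_68f289_h35

variable {n : ℕ}

lemma OsD_cont {H : ℝ → E n → ℝ} (hH : Continuous (Function.uncurry H)) {K : Set (E n)}
    (hc : IsCompact K) (hK : ∀ t, ∀ x, x ∉ K → H t x = 0) : Continuous fun t => ∫ x, H t x := by
  have h1 : ∀ t, ∫ x, H t x = ∫ x in K, H t x := by
    intro t
    rw [setIntegral_eq_integral_of_forall_compl_eq_zero]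
    exact fun x hx => hK t x hx
  simp only [h1]
  exact continuous_parametric_integral_of_continuous hH hc

lemma OsD_integrable {H : ℝ → E n → ℝ} (hH : Continuous (Function.uncurry H)) {K : Set (E n)}
    (hc : IsCompact K) (hK : ∀ t, ∀ x, x ∉ K → H t x = 0) (t : ℝ) : Integrable (H t) := by
  have h1 : Continuous (H t) := hH.comp (continuous_const.prodMk continuous_id)
  refine h1.integrable_of_hasCompactSupport ?_
  exact HasCompactSupport.intro hc (fun x hx => hK t x hx)

lemma OsD_vol : volume (Bl n) < ⊤ := by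
  refine Bornology.IsBounded.measure_lt_top ?_
  refine (Metric.isBounded_closedBall (x := (0 : E n)) (r := 1)).subset ?_
  intro w hw
  have h1 : qf w < 1 := hw
  unfold qf at h1
  rw [mem_closedBall_zero_iff, Prod.norm_def, max_le_iff, pi_norm_le_iff_of_nonneg zero_le_one,
    pi_norm_le_iff_of_nonneg zero_le_one]
  have h2 : ∀ i, (w.1 i) ^ 2 + (w.2 i) ^ 2 < 1 := by
    intro i
    refine lt_of_le_of_lt ?_ h1
    exact Finset.single_le_sum (f := fun i => (w.1 i) ^ 2 + (w.2 i) ^ 2)
      (fun j _ => by positivity) (Finset.mem_univ i)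
  constructor
  · intro i
    rw [Real.norm_eq_abs, abs_le_one_iff_mul_self_le_one]
    nlinarith [h2 i, sq_nonneg (w.2 i)]
  · intro i
    rw [Real.norm_eq_abs, abs_le_one_iff_mul_self_le_one]
    nlinarith [h2 i, sq_nonneg (w.1 i)]

lemma OsD_out (hn : 1 ≤ n) : ((fun _ => 1, 0) : E n) ∉ Bl n := by
  intro h
  have h1 : qf ((fun _ => 1, 0) : E n) < 1 := h
  unfold qf at h1
  have h2 : (1 : ℝ) ≤ n := by exact_mod_cast hn
  simp at h1
  omega

/-- the Calabi invariant is bounded by the Hofer norm: `|∫ x, H t x| ≤ vol(B) osc (H t)` because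
`H t` vanishes off `K` (and somewhere: `E n` is not compact for `n ≥ 1`) -/
lemma abs_cal_le (hn : 1 ≤ n) {H : ℝ → E n → ℝ} (hH : Continuous (Function.uncurry H))
    {K : Set (E n)} (hc : IsCompact K) (hKB : K ⊆ Bl n) (hK : ∀ t, ∀ x, x ∉ K → H t x = 0) :
    |cal H| ≤ (volume (Bl n)).toReal * hofer H := by
  have hb : ∀ t, Bd (H t) := fun t => bd_of_supp hH hc hK t
  have h1 : ∀ t, ‖∫ x, H t x‖ ≤ (volume (Bl n)).toReal * osc (H t) := by
    intro t
    have h2 : ∫ x, H t x = ∫ x in Bl n, H t x := by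
      rw [setIntegral_eq_integral_of_forall_compl_eq_zero]
      exact fun x hx => hK t x fun h => hx (hKB h)
    rw [h2, mul_comm]
    refine norm_setIntegral_le_of_norm_le_const OsD_vol fun x _ => ?_
    rw [Real.norm_eq_abs]
    exact abs_le_osc (hb t) (hK t _ fun h => OsD_out hn (hKB h)) x
  unfold cal
  rw [← Real.norm_eq_abs, hofer_eq, ← intervalIntegral.integral_const_mul]
  refine intervalIntegral.norm_integral_le_of_norm_le zero_le_one
    (Filter.Eventually.of_forall fun t _ => h1 t) ?_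
  exact ((continuous_osc hH hc hK).const_mul _).intervalIntegrable _ _

lemma cal_add {H H' : ℝ → E n → ℝ} (hH : Continuous (Function.uncurry H))
    (hH' : Continuous (Function.uncurry H')) {K : Set (E n)} (hc : IsCompact K)
    (hK : ∀ t, ∀ x, x ∉ K → H t x = 0) (hK' : ∀ t, ∀ x, x ∉ K → H' t x = 0) :
    cal (fun t x => H t x + H' t x) = cal H + cal H' := by
  unfold cal
  have h1 : ∀ t, ∫ x, H t x + H' t x = (∫ x, H t x) + ∫ x, H' t x := fun t =>
    integral_add (OsD_integrable hH hc hK t) (OsD_integrable hH' hc hK' t)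
  simp only [h1]
  exact intervalIntegral.integral_add ((OsD_cont hH hc hK).intervalIntegrable _ _)
    ((OsD_cont hH' hc hK').intervalIntegrable _ _)

lemma cal_sub {H H' : ℝ → E n → ℝ} (hH : Continuous (Function.uncurry H))
    (hH' : Continuous (Function.uncurry H')) {K : Set (E n)} (hc : IsCompact K)
    (hK : ∀ t, ∀ x, x ∉ K → H t x = 0) (hK' : ∀ t, ∀ x, x ∉ K → H' t x = 0) :
    cal (fun t x => H t x - H' t x) = cal H - cal H' := by
  unfold cal
  have h1 : ∀ t, ∫ x, H t x - H' t x = (∫ x, H t x) - ∫ x, H' t x := fun t =>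
    integral_sub (OsD_integrable hH hc hK t) (OsD_integrable hH' hc hK' t)
  simp only [h1]
  exact intervalIntegral.integral_sub ((OsD_cont hH hc hK).intervalIntegrable _ _)
    ((OsD_cont hH' hc hK').intervalIntegrable _ _)

lemma cal_const_mul (H : ℝ → E n → ℝ) (c : ℝ) : cal (fun t x => c * H t x) = c * cal H := by
  unfold cal
  have h1 : ∀ t, ∫ x, c * H t x = c * ∫ x, H t x := fun t => integral_const_mul _ _
  simp only [h1]
  exact intervalIntegral.integral_const_mul _ _

end Pool.Agent.W_68f289_h35
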