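import Pool.Agent.W_68f289_h35.OsD

/-!
Calabi invariant and change of variables.
-/

open Set Metric Topology Pool.Agent.W_MP_68f289_gt MeasureTheory
open scoped NNReal ContDiff

namespace Pool.Agent.W_68f289_h35

variable {n : ℕ}

/-- substitution `u = s t` -/
lemma cal_reparam {H : ℝ → E n → ℝ} (hH : Continuous (Function.uncurry H)) {K : Set (E n)}
    (hc : IsCompact K) (hK : ∀ t, ∀ x, x ∉ K → H t x = 0) {s : ℝ → ℝ}
    (hs : ContDiff ℝ ((⊤ : ℕ∞) : WithTop ℕ∞) s) :
    cal (fun t x => deriv s t * H (s t) x) = ∫ t in (s 0)..(s 1), ∫ x, H t x := by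
  unfold cal
  have hs1 : ∀ t, HasDerivAt s (deriv s t) t := fun t =>
    (hs.differentiable (by simp) t).hasDerivAt
  have hs2 : Continuous (deriv s) := (contDiff_infty_iff_deriv.1 hs).2.continuous
  have h1 : ∀ t, ∫ x, deriv s t * H (s t) x = (∫ x, H (s t) x) * deriv s t := by
    intro t
    rw [integral_const_mul, mul_comm]
  simp only [h1]
  exact intervalIntegral.integral_comp_mul_deriv (a := 0) (b := 1) (f := s)
    (f' := deriv s) (g := fun u => ∫ x, H u x) (fun t _ => hs1 t) hs2.continuousOn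
    (OsD_cont hH hc hK)

/-- `∫ x, H t (r⁻¹ • x) = r ^ (2 n) ∫ x, H t x` -/
lemma cal_homoth (H : ℝ → E n → ℝ) {r : ℝ} (h0 : 0 < r) :
    cal (fun t x => r ^ 2 * H t (r⁻¹ • x)) = r ^ (2 * n + 2) * cal H := by
  unfold cal
  have h1 : ∀ t : ℝ, ∫ x, r ^ 2 * H t (r⁻¹ • x) = r ^ (2 * n + 2) * ∫ x, H t x := by
    intro t
    have h2 : Module.finrank ℝ (E n) = 2 * n := by
      simp [two_mul]
    rw [integral_const_mul, Measure.integral_comp_smul, h2, smul_eq_mul, inv_pow, inv_inv,
      abs_of_pos (pow_pos h0 _)]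
    ring
  simp only [h1]
  rw [intervalIntegral.integral_const_mul]

lemma cal_comp (H : ℝ → E n → ℝ) {g : ℝ → E n ≃ₜ E n}
    (hg : ∀ t, MeasurePreserving (g t) volume volume) :
    cal (fun t x => H t (g t x)) = cal H := by
  unfold cal
  have h1 : ∀ t : ℝ, ∫ x, H t (g t x) = ∫ x, H t x := fun t =>
    (hg t).integral_comp (g t).measurableEmbedding (H t)
  simp only [h1]

end Pool.Agent.W_68f289_h35
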