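import Pool.Agent.W_68f289_h35.CF

/-!
Linearised field: definition, smoothness, growth.
-/

open Set Metric Topology Pool.Agent.W_MP_68f289_gt
open scoped NNReal ContDiff

namespace Pool.Agent.W_68f289_h35

variable {V : Type} [NormedAddCommGroup V] [NormedSpace ℝ V] [FiniteDimensional ℝ V]
  {X : ℝ → V → V} {K : Set V}

/-- the linearised field on `V × (V →L V)`, cut off by `ζ` -/
noncomputable def linF (X : ℝ → V → V) (ζ : (V →L[ℝ] V) → ℝ) (t : ℝ) (p : V × (V →L[ℝ] V)) :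
    V × (V →L[ℝ] V) :=
  (ζ p.2 • X t p.1, ζ p.2 • (fderiv ℝ (X t) p.1).comp p.2)

/-- The linearised field is smooth with compact support `K ×ˢ tsupport ζ`: smoothness from
`CField.contDiff_fderiv` and `ContDiff.clm_comp`; for `p.1 ∉ K` use `hX.supp` and
`CField.fderiv_off`. -/
lemma CField.linF (hX : CField X K) {ζ : (V →L[ℝ] V) → ℝ}
    (hζ : ContDiff ℝ ((⊤ : ℕ∞) : WithTop ℕ∞) ζ) (hc : HasCompactSupport ζ) :
    CField (linF X ζ) (K ×ˢ tsupport ζ) := by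
  refine ⟨?_, hX.comp.prod hc, ?_⟩
  · have hζ2 : ContDiff ℝ ((⊤ : ℕ∞) : WithTop ℕ∞)
        (fun q : ℝ × (V × (V →L[ℝ] V)) => ζ q.2.2) :=
      hζ.comp (contDiff_snd.comp contDiff_snd)
    have hX2 : ContDiff ℝ ((⊤ : ℕ∞) : WithTop ℕ∞)
        (fun q : ℝ × (V × (V →L[ℝ] V)) => X q.1 q.2.1) :=
      hX.smooth.comp (contDiff_fst.prodMk (contDiff_fst.comp contDiff_snd))
    have hD2 : ContDiff ℝ ((⊤ : ℕ∞) : WithTop ℕ∞)
        (fun q : ℝ × (V × (V →L[ℝ] V)) => fderiv ℝ (X q.1) q.2.1) :=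
      hX.contDiff_fderiv.comp (contDiff_fst.prodMk (contDiff_fst.comp contDiff_snd))
    have hJ2 : ContDiff ℝ ((⊤ : ℕ∞) : WithTop ℕ∞)
        (fun q : ℝ × (V × (V →L[ℝ] V)) => q.2.2) := contDiff_snd.comp contDiff_snd
    exact (hζ2.smul hX2).prodMk (hζ2.smul (hD2.clm_comp hJ2))
  · intro t p hp
    rw [mem_prod, not_and_or] at hp
    rcases hp with h | h
    · simp only [Pool.Agent.W_68f289_h35.linF]
      rw [hX.supp t p.1 h, hX.fderiv_off t h, ContinuousLinearMap.zero_comp, smul_zero, smul_zero]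
      rfl
    · have hz : ζ p.2 = 0 := image_eq_zero_of_notMem_tsupport h
      simp only [Pool.Agent.W_68f289_h35.linF]
      rw [hz, zero_smul, zero_smul]
      rfl

/-- A bound for the linear part: integral curves of the linearised field on `[0, 1]`, for `0 ≤ ζ ≤ 1`,
satisfy `‖J t‖ ≤ ‖J 0‖ e^C` by Gronwall (`norm_le_gronwallBound_of_norm_deriv_right_le` with `ε = 0`,
`gronwallBound_ε0`), as `‖J'‖ ≤ C ‖J‖`. -/
lemma linF_bound {C : ℝ≥0} (hC : ∀ t ∈ Icc (0 : ℝ) 1, ∀ x, ‖fderiv ℝ (X t) x‖ ≤ C)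
    {ζ : (V →L[ℝ] V) → ℝ} (h0 : ∀ J, 0 ≤ ζ J) (h1 : ∀ J, ζ J ≤ 1)
    {α : ℝ → V × (V →L[ℝ] V)} (hα : IC (linF X ζ) α) {t : ℝ} (ht : t ∈ Icc (0 : ℝ) 1) :
    ‖(α t).2‖ ≤ ‖(α 0).2‖ * Real.exp C := by
  have hf : ContinuousOn (fun s => (α s).2) (Icc 0 1) := hα.continuousOn.snd
  have hf' : ∀ s ∈ Ico (0 : ℝ) 1, HasDerivWithinAt (fun s => (α s).2)
      (ζ (α s).2 • (fderiv ℝ (X s) (α s).1).comp (α s).2) (Ici s) s := by
    intro s hs
    exact (hα.right hs).snd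
  have hb : ∀ s ∈ Ico (0 : ℝ) 1, ‖ζ (α s).2 • (fderiv ℝ (X s) (α s).1).comp (α s).2‖ ≤
      (C : ℝ) * ‖(α s).2‖ + 0 := by
    intro s hs
    rw [norm_smul, Real.norm_of_nonneg (h0 _), add_zero]
    have h2 : ‖(fderiv ℝ (X s) (α s).1).comp (α s).2‖ ≤ C * ‖(α s).2‖ :=
      (ContinuousLinearMap.opNorm_comp_le _ _).trans
        (mul_le_mul_of_nonneg_right (hC s (Ico_subset_Icc_self hs) _) (norm_nonneg _))
    calc ζ (α s).2 * ‖(fderiv ℝ (X s) (α s).1).comp (α s).2‖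
        ≤ 1 * ‖(fderiv ℝ (X s) (α s).1).comp (α s).2‖ :=
          mul_le_mul_of_nonneg_right (h1 _) (norm_nonneg _)
      _ ≤ C * ‖(α s).2‖ := by rw [one_mul]; exact h2
  have hfin := norm_le_gronwallBound_of_norm_deriv_right_le hf hf' le_rfl hb t ht
  rw [gronwallBound_ε0, sub_zero] at hfin
  refine hfin.trans (mul_le_mul_of_nonneg_left (Real.exp_le_exp.mpr ?_) (norm_nonneg _))
  calc (C : ℝ) * t ≤ C * 1 := mul_le_mul_of_nonneg_left ht.2 C.2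
    _ = C := mul_one _

end Pool.Agent.W_68f289_h35
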