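import Pool.Agent.W_68f289_h35.SD1a

/-!
Linearised field: main estimate.
-/

open Set Metric Topology Pool.Agent.W_MP_68f289_gt
open scoped NNReal ContDiff

namespace Pool.Agent.W_68f289_h35

variable {V : Type} [NormedAddCommGroup V] [NormedSpace ℝ V] [FiniteDimensional ℝ V]
  {X : ℝ → V → V} {K : Set V}

/-- The main estimate. Let `α = (y, J)` be an integral curve of the linearised field with `ζ (J t) = 1`
on `[0, 1]` and `J 0 = id`, and let `β` be an integral curve of `X` starting at `y 0 + w`. Then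
`‖β 1 - y 1 - J 1 w‖ ≤ C (e^C)^3 ‖w‖^2` (any constant depending only on `C`). Proof: `y` is an integral
curve of `X`, so `δ = β - y` satisfies `‖δ t‖ ≤ ‖w‖ e^C` (`dist_le_of_trajectories_ODE`), and
`e = δ - J w` satisfies `e 0 = 0`, `e' = (X(y+δ) - X(y) - DX(y) δ) + DX(y) e`, hence
`‖e'‖ ≤ C ‖e‖ + C (‖w‖ e^C)^2`; Gronwall (`norm_le_gronwallBound_of_norm_deriv_right_le`,
`gronwallBound` formula, `gronwallBound_of_K_ne_0`, or compare with `C + 1` in place of `C` to avoid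
the case `C = 0`). -/
lemma linF_est {C : ℝ≥0} (hG : Good X C) (hC : ∀ t ∈ Icc (0 : ℝ) 1, ∀ x, ‖fderiv ℝ (X t) x‖ ≤ C)
    (hT : ∀ t ∈ Icc (0 : ℝ) 1, ∀ x w, ‖X t (x + w) - X t x - fderiv ℝ (X t) x w‖ ≤ C * ‖w‖ ^ 2) :
    ∃ M : ℝ, ∀ (ζ : (V →L[ℝ] V) → ℝ) (α : ℝ → V × (V →L[ℝ] V)) (β : ℝ → V) (w : V),
      IC (linF X ζ) α → (∀ t ∈ Icc (0 : ℝ) 1, ζ (α t).2 = 1) → (α 0).2 = ContinuousLinearMap.id ℝ V →
      IC X β → β 0 = (α 0).1 + w → ‖β 1 - (α 1).1 - (α 1).2 w‖ ≤ M * ‖w‖ ^ 2 := by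
  refine ⟨C * (Real.exp C) ^ 2 / (C + 1) * (Real.exp (C + 1) - 1), ?_⟩
  intro ζ α β w hα hζ hα0 hβ hβ0
  have hC0 : (0 : ℝ) ≤ C := C.2
  -- the components of the curve
  have hy : ∀ t ∈ Ico (0 : ℝ) 1, HasDerivWithinAt (fun s => (α s).1) (X t (α t).1) (Ici t) t := by
    intro t ht
    have h1 := hα.right ht
    have h2 := (hasFDerivAt_fst (𝕜 := ℝ) (p := α t)).comp_hasDerivWithinAt t h1
    have h3 : (ContinuousLinearMap.fst ℝ V (V →L[ℝ] V)) (linF X ζ t (α t)) = X t (α t).1 := by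
      simp only [linF, ContinuousLinearMap.coe_fst', hζ t (Ico_subset_Icc_self ht), one_smul]
    rw [h3] at h2
    exact h2
  have hJ : ∀ t ∈ Ico (0 : ℝ) 1, HasDerivWithinAt (fun s => (α s).2 w)
      (fderiv ℝ (X t) (α t).1 ((α t).2 w)) (Ici t) t := by
    intro t ht
    have h1 := hα.right ht
    have h2 := (hasFDerivAt_snd (𝕜 := ℝ) (p := α t)).comp_hasDerivWithinAt t h1
    have h3 : (ContinuousLinearMap.snd ℝ V (V →L[ℝ] V)) (linF X ζ t (α t)) =
        (fderiv ℝ (X t) (α t).1).comp (α t).2 := by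
      simp only [linF, ContinuousLinearMap.coe_snd', hζ t (Ico_subset_Icc_self ht), one_smul]
    rw [h3] at h2
    have h4 := ((ContinuousLinearMap.apply ℝ V w).hasFDerivAt
      (x := (α t).2)).comp_hasDerivWithinAt t h2
    exact h4
  have hβr : ∀ t ∈ Ico (0 : ℝ) 1, HasDerivWithinAt β (X t (β t)) (Ici t) t := fun t ht =>
    hβ.right ht
  have hyc : ContinuousOn (fun s => (α s).1) (Icc 0 1) := continuous_fst.comp_continuousOn
    hα.continuousOn
  have hJc : ContinuousOn (fun s => (α s).2 w) (Icc 0 1) :=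
    ((ContinuousLinearMap.apply ℝ V w).continuous.comp continuous_snd).comp_continuousOn
      hα.continuousOn
  -- the first estimate
  have hd : ∀ t ∈ Icc (0 : ℝ) 1, ‖β t - (α t).1‖ ≤ ‖w‖ * Real.exp C := by
    intro t ht
    have h0 : dist (β 0) ((fun s => (α s).1) 0) ≤ ‖w‖ := by
      rw [hβ0, dist_eq_norm]
      simp
    have h1 := dist_le_of_trajectories_ODE_of_mem (K := C) (v := X) (s := fun _ => univ)
      (fun t ht => (hG.lip t (Ico_subset_Icc_self ht)).lipschitzOnWith)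
      hβ.continuousOn hβr (fun _ _ => trivial) hyc hy (fun _ _ => trivial) h0 t ht
    rw [dist_eq_norm] at h1
    refine h1.trans (mul_le_mul_of_nonneg_left (Real.exp_le_exp.2 ?_) (norm_nonneg _))
    have h2 : t - 0 ≤ 1 := by linarith [ht.2]
    calc (C : ℝ) * (t - 0) ≤ C * 1 := mul_le_mul_of_nonneg_left h2 hC0
      _ = C := mul_one _
  -- the second estimate
  have hf : ContinuousOn (fun s => β s - (α s).1 - (α s).2 w) (Icc 0 1) :=
    (hβ.continuousOn.sub hyc).sub hJc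
  have hf' : ∀ t ∈ Ico (0 : ℝ) 1, HasDerivWithinAt (fun s => β s - (α s).1 - (α s).2 w)
      (X t (β t) - X t (α t).1 - fderiv ℝ (X t) (α t).1 ((α t).2 w)) (Ici t) t := fun t ht =>
    ((hβr t ht).fun_sub (hy t ht)).fun_sub (hJ t ht)
  have ha : ‖(fun s => β s - (α s).1 - (α s).2 w) 0‖ ≤ 0 := by
    simp [hβ0, hα0]
  have hb : ∀ t ∈ Ico (0 : ℝ) 1,
      ‖X t (β t) - X t (α t).1 - fderiv ℝ (X t) (α t).1 ((α t).2 w)‖ ≤
        ((C : ℝ) + 1) * ‖(fun s => β s - (α s).1 - (α s).2 w) t‖ +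
          C * (‖w‖ * Real.exp C) ^ 2 := by
    intro t ht
    have ht' := Ico_subset_Icc_self ht
    have e1 : X t (β t) - X t (α t).1 - fderiv ℝ (X t) (α t).1 ((α t).2 w) =
        (X t ((α t).1 + (β t - (α t).1)) - X t (α t).1 -
          fderiv ℝ (X t) (α t).1 (β t - (α t).1)) +
        fderiv ℝ (X t) (α t).1 (β t - (α t).1 - (α t).2 w) := by
      rw [add_sub_cancel, map_sub (fderiv ℝ (X t) (α t).1) (β t - (α t).1)]
      abel
    rw [e1]
    refine (norm_add_le _ _).trans ?_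
    have h1 := hT t ht' (α t).1 (β t - (α t).1)
    have h2 : ‖fderiv ℝ (X t) (α t).1 (β t - (α t).1 - (α t).2 w)‖ ≤
        C * ‖β t - (α t).1 - (α t).2 w‖ :=
      ((fderiv ℝ (X t) (α t).1).le_opNorm _).trans
        (mul_le_mul_of_nonneg_right (hC t ht' _) (norm_nonneg _))
    have h3 : ‖β t - (α t).1‖ ^ 2 ≤ (‖w‖ * Real.exp C) ^ 2 :=
      pow_le_pow_left₀ (norm_nonneg _) (hd t ht') 2
    have h4 := mul_le_mul_of_nonneg_left h3 hC0
    have h5 := norm_nonneg (β t - (α t).1 - (α t).2 w)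
    simp only
    linarith
  have hfin := norm_le_gronwallBound_of_norm_deriv_right_le hf hf' ha hb 1
    (right_mem_Icc.2 zero_le_one)
  have hK : (C : ℝ) + 1 ≠ 0 := by positivity
  rw [gronwallBound_of_K_ne_0 hK] at hfin
  simp only [zero_mul, zero_add, sub_zero, mul_one] at hfin
  refine hfin.trans (le_of_eq ?_)
  ring

end Pool.Agent.W_68f289_h35
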