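import Pool.Agent.W_68f289_h35.SD1b

/-!
The time-one map is differentiable.
-/

open Set Metric Topology Pool.Agent.W_MP_68f289_gt
open scoped NNReal ContDiff

namespace Pool.Agent.W_68f289_h35

variable {V : Type} [NormedAddCommGroup V] [NormedSpace ℝ V] [FiniteDimensional ℝ V]
  {X : ℝ → V → V} {K : Set V}

/-- The time-one map is differentiable and its derivative is the second component of the time-one
map of the linearised field. Proof: choose a smooth compactly supported `ζ` with values in `[0,1]`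
which is `1` on the closed ball of radius `e^C + 1` (`exists_contDiff_tsupport_subset` or
`ContDiffBump` on the finite dimensional space `V →L[ℝ] V`; `‖id‖ ≤ 1`). By `linF_bound` the solution
`α` starting at `(x, id)` has `‖J‖ ≤ e^C`, so `ζ = 1` along it and its first component is the solution
of `X` starting at `x` (uniqueness `Good.sol_eq`). Then `linF_est` gives `HasFDerivAt` (from the
`O(‖w‖²)` estimate: `HasFDerivAt.of_isLittleO` / `hasFDerivAt_iff_isLittleO_nhds_zero` with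
`isBigO`, `Asymptotics.isLittleO_norm_pow_id`-type lemmas). -/
lemma exists_linF (hX : CField X K) {C : ℝ≥0} (hG : Good X C) :
    ∃ (ζ : (V →L[ℝ] V) → ℝ) (C' : ℝ≥0) (hG' : Good (linF X ζ) C'),
      CField (linF X ζ) (K ×ˢ tsupport ζ) ∧
      ∀ x : V, HasFDerivAt (fun x => hG.sol ⟨0, by simp⟩ x 1)
        ((hG'.sol ⟨0, by simp⟩ (x, ContinuousLinearMap.id ℝ V) 1).2) x := by
  obtain ⟨C1, hG1, hb1, hT1⟩ := hX.exists_bounds
  obtain ⟨M, hM⟩ := linF_est hG1 hb1 hT1
  have hpos : (0 : ℝ) < Real.exp C1 + 1 := by positivity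
  let ζ : ContDiffBump (0 : V →L[ℝ] V) := ⟨Real.exp C1 + 1, Real.exp C1 + 2, hpos, by linarith⟩
  have hF : CField (linF X ζ) (K ×ˢ tsupport ζ) := hX.linF ζ.contDiff ζ.hasCompactSupport
  obtain ⟨C', hG', -, -⟩ := hF.exists_bounds
  refine ⟨ζ, C', hG', hF, fun x => ?_⟩
  have hα : IC (linF X ζ) (hG'.sol ⟨0, by simp⟩ (x, ContinuousLinearMap.id ℝ V)) :=
    hG'.sol_IC _ _
  have hα0 : hG'.sol ⟨0, by simp⟩ (x, ContinuousLinearMap.id ℝ V) 0 =
      (x, ContinuousLinearMap.id ℝ V) := hG'.sol_self ⟨0, by simp⟩ _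
  have hid : ‖ContinuousLinearMap.id ℝ V‖ ≤ 1 := ContinuousLinearMap.norm_id_le
  have hζ1 : ∀ t ∈ Icc (0 : ℝ) 1,
      ζ (hG'.sol ⟨0, by simp⟩ (x, ContinuousLinearMap.id ℝ V) t).2 = 1 := by
    intro t ht
    apply ζ.one_of_mem_closedBall
    rw [mem_closedBall, dist_zero_right]
    have h1 := linF_bound hb1 (fun _ => ζ.nonneg) (fun _ => ζ.le_one) hα ht
    rw [hα0] at h1
    refine h1.trans ?_
    calc ‖ContinuousLinearMap.id ℝ V‖ * Real.exp C1 ≤ 1 * Real.exp C1 :=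
          mul_le_mul_of_nonneg_right hid (Real.exp_pos _).le
      _ ≤ Real.exp C1 + 1 := by linarith
  have hJ0 : (hG'.sol ⟨0, by simp⟩ (x, ContinuousLinearMap.id ℝ V) 0).2 =
      ContinuousLinearMap.id ℝ V := by rw [hα0]
  have key : ∀ w : V, ‖hG.sol ⟨0, by simp⟩ (x + w) 1 -
      (hG'.sol ⟨0, by simp⟩ (x, ContinuousLinearMap.id ℝ V) 1).1 -
      (hG'.sol ⟨0, by simp⟩ (x, ContinuousLinearMap.id ℝ V) 1).2 w‖ ≤ M * ‖w‖ ^ 2 := by
    intro w
    refine hM ζ _ (hG.sol ⟨0, by simp⟩ (x + w)) w hα hζ1 hJ0 (hG.sol_IC _ _) ?_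
    rw [hα0]
    exact hG.sol_self ⟨0, by simp⟩ _
  have e0 : hG.sol ⟨0, by simp⟩ x 1 =
      (hG'.sol ⟨0, by simp⟩ (x, ContinuousLinearMap.id ℝ V) 1).1 := by
    have h1 := key 0
    rw [add_zero, map_zero, sub_zero, norm_zero] at h1
    have h2 : ‖hG.sol ⟨0, by simp⟩ x 1 -
      (hG'.sol ⟨0, by simp⟩ (x, ContinuousLinearMap.id ℝ V) 1).1‖ ≤ 0 := by
      simpa using h1
    exact sub_eq_zero.1 (norm_le_zero_iff.1 h2)
  rw [hasFDerivAt_iff_isLittleO_nhds_zero]
  refine Asymptotics.IsBigO.trans_isLittleO (g := fun h : V => ‖h‖ ^ 2) ?_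
    (Asymptotics.isLittleO_norm_pow_id one_lt_two)
  refine Asymptotics.IsBigO.of_bound M (Filter.Eventually.of_forall fun w => ?_)
  rw [e0, norm_pow, norm_norm]
  exact key w

end Pool.Agent.W_68f289_h35
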