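import Pool.Agent.W_68f289_h35.SD1c

/-!
The time-one map is smooth.
-/

open Set Metric Topology Pool.Agent.W_MP_68f289_gt
open scoped NNReal ContDiff

namespace Pool.Agent.W_68f289_h35

/-- Proof: induction on `k`, for all spaces at once. `k = 0`: `Good.sol_cont`. Step: by `exists_linF`
the map is differentiable with `fderiv` equal to `x ↦ (sol (x, id) 1).2` for the field `linF X ζ` on
the finite dimensional space `V × (V →L[ℝ] V)`, which is `C^k` by the induction hypothesis
(`contDiff_succ_iff_fderiv`). -/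
lemma contDiff_sol_nat (k : ℕ) : ∀ (V : Type) [NormedAddCommGroup V] [NormedSpace ℝ V]
    [FiniteDimensional ℝ V] (X : ℝ → V → V) (K : Set V), CField X K → ∀ (C : ℝ≥0) (hG : Good X C),
      ContDiff ℝ k (fun x => hG.sol ⟨0, by simp⟩ x 1) := by
  induction k with
  | zero =>
    intro V _ _ _ X K _ C hG
    rw [Nat.cast_zero, contDiff_zero]
    exact hG.sol_cont ⟨0, by simp⟩ ⟨1, by simp⟩
  | succ k ih =>
    intro V _ _ _ X K hX C hG
    obtain ⟨ζ, C', hG', hCF, hder⟩ := exists_linF hX hG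
    rw [Nat.cast_add, Nat.cast_one, contDiff_succ_iff_fderiv]
    refine ⟨fun x => (hder x).differentiableAt, fun h => absurd h (by simp), ?_⟩
    have h1 : fderiv ℝ (fun x => hG.sol ⟨0, by simp⟩ x 1) =
        fun x => (hG'.sol ⟨0, by simp⟩ (x, ContinuousLinearMap.id ℝ V) 1).2 :=
      funext fun x => (hder x).fderiv
    rw [h1]
    have h2 := ih (V × (V →L[ℝ] V)) (linF X ζ) (K ×ˢ tsupport ζ) hCF C' hG'
    exact (h2.comp (contDiff_id.prodMk contDiff_const)).snd

variable {V : Type} [NormedAddCommGroup V] [NormedSpace ℝ V] [FiniteDimensional ℝ V]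
  {X : ℝ → V → V} {K : Set V}

/-- Any family of integral curves on `[0, 1]` has a smooth time-one map. Proof: `contDiff_infty` and
`contDiff_sol_nat`, `Good.sol_eq`, `CField.exists_bounds`. -/
theorem contDiff_timeOne (hX : CField X K) {φ : V → ℝ → V} (h0 : ∀ x, φ x 0 = x)
    (hφ : ∀ x, IC X (φ x)) : ContDiff ℝ ((⊤ : ℕ∞) : WithTop ℕ∞) (fun x => φ x 1) := by
  obtain ⟨C, hG, -, -⟩ := hX.exists_bounds
  have h1 : (fun x => φ x 1) = fun x => hG.sol ⟨0, by simp⟩ x 1 :=
    funext fun x => (hG.sol_eq (s := ⟨0, by simp⟩) (hφ x) (h0 x) (by simp)).symm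
  rw [h1, contDiff_infty]
  exact fun k => contDiff_sol_nat k V X K hX C hG

end Pool.Agent.W_68f289_h35
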