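import Pool.Agent.W_68f289_h35.SD2a

/-!
Joint smoothness of flows.
-/

open Set Metric Topology Pool.Agent.W_MP_68f289_gt
open scoped NNReal ContDiff

namespace Pool.Agent.W_68f289_h35

variable {V : Type} [NormedAddCommGroup V] [NormedSpace ℝ V] [FiniteDimensional ℝ V]
  {X : ℝ → V → V} {K : Set V}

/-- the rescaled field -/
noncomputable def SD2b_Y (ζ : ℝ → ℝ) (X : ℝ → V → V) (s : ℝ) (q : ℝ × V) : ℝ × V :=
  (0, (ζ q.1 * q.1) • X (q.1 * s) q.2)

omit [FiniteDimensional ℝ V] in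
theorem SD2b_field (hX : CField X K) {ζ : ℝ → ℝ} (hζ : ContDiff ℝ ((⊤ : ℕ∞) : WithTop ℕ∞) ζ)
    (hc : HasCompactSupport ζ) : CField (SD2b_Y ζ X) (tsupport ζ ×ˢ K) where
  smooth := by
    have h1 : ContDiff ℝ ((⊤ : ℕ∞) : WithTop ℕ∞)
        (fun p : ℝ × (ℝ × V) => Function.uncurry X (p.2.1 * p.1, p.2.2)) :=
      hX.smooth.comp (((contDiff_fst.comp contDiff_snd).mul contDiff_fst).prodMk
        (contDiff_snd.comp contDiff_snd))
    have h2 : ContDiff ℝ ((⊤ : ℕ∞) : WithTop ℕ∞) (fun p : ℝ × (ℝ × V) => ζ p.2.1 * p.2.1) :=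
      (hζ.comp (contDiff_fst.comp contDiff_snd)).mul (contDiff_fst.comp contDiff_snd)
    exact contDiff_const.prodMk (h2.smul h1)
  comp := hc.prod hX.comp
  supp := by
    intro t q hq
    unfold SD2b_Y
    rw [Set.mem_prod, not_and_or] at hq
    rcases hq with hq | hq
    · have h : ζ q.1 = 0 := image_eq_zero_of_notMem_tsupport hq
      rw [h, zero_mul, zero_smul]
      rfl
    · rw [hX.supp _ _ hq, smul_zero]
      rfl

omit [FiniteDimensional ℝ V] in
theorem SD2b_curve {φ : ℝ → V → V} (hφ : ∀ t x, HasDerivAt (fun s => φ s x) (X t (φ t x)) t)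
    {ζ : ℝ → ℝ} {τ : ℝ} (hτ : ζ τ = 1) (x : V) :
    IC (SD2b_Y ζ X) (fun s => (τ, φ (τ * s) x)) := by
  intro t _
  have h1 : HasDerivAt (fun s : ℝ => τ * s) τ t := by
    have h := (hasDerivAt_id t).const_mul τ
    rw [mul_one] at h
    exact h
  have h2 : HasDerivAt (fun s => φ (τ * s) x) (τ • X (τ * t) (φ (τ * t) x)) t :=
    HasDerivAt.scomp t (hφ (τ * t) x) h1
  have h3 : HasDerivAt (fun s => (τ, φ (τ * s) x)) ((0 : ℝ), τ • X (τ * t) (φ (τ * t) x)) t :=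
    (hasDerivAt_const t τ).prodMk h2
  have h4 : SD2b_Y ζ X t (τ, φ (τ * t) x) = ((0 : ℝ), τ • X (τ * t) (φ (τ * t) x)) := by
    unfold SD2b_Y
    change ((0 : ℝ), (ζ τ * τ) • X (τ * t) (φ (τ * t) x)) = _
    rw [hτ, one_mul]
  have h5 := h3.hasDerivWithinAt (s := Icc 0 1)
  rw [← h4] at h5
  exact h5

/-- Joint smoothness. Proof: it suffices to prove that `(τ, x) ↦ φ τ x` is `C^∞` at points with
`|τ| < T`, for every `T > 0`. Take `ζ : ℝ → ℝ` smooth, compactly supported, `ζ = 1` on `[-T, T]`, and the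
field `Y s (τ, x) = (0, (ζ τ * τ) • X (τ * s) x)` on `ℝ × V`; it is a `CField` with support in
`tsupport ζ ×ˢ K`. For `|τ| ≤ T` the curve `s ↦ (τ, φ (τ s) x)` is an integral curve of it; in general
choose any integral curve (`Good.sol`) when `|τ| > T`. By `contDiff_timeOne` the time-one map
is smooth, and it equals `(τ, φ τ x)` for `|τ| < T`. -/
theorem contDiff_flow (hX : CField X K) {φ : ℝ → V → V} (h0 : ∀ x, φ 0 x = x)
    (hφ : ∀ t x, HasDerivAt (fun s => φ s x) (X t (φ t x)) t) :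
    ContDiff ℝ ((⊤ : ℕ∞) : WithTop ℕ∞) (Function.uncurry φ) := by
  rw [contDiff_iff_contDiffAt]
  intro q₀
  set T : ℝ := |q₀.1| + 1 with hT
  have hT0 : 0 < T := by positivity
  let b : ContDiffBump (0 : ℝ) := ⟨T, T + 1, hT0, by linarith⟩
  have hb1 : ∀ τ : ℝ, |τ| ≤ T → b τ = 1 := by
    intro τ hτ
    apply b.one_of_mem_closedBall
    rw [mem_closedBall, dist_zero_right, Real.norm_eq_abs]
    exact hτ
  have hY : CField (SD2b_Y b X) (tsupport b ×ˢ K) :=
    SD2b_field hX b.contDiff b.hasCompactSupport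
  obtain ⟨C, hG, -, -⟩ := hY.exists_bounds
  classical
  let Φ : ℝ × V → ℝ → ℝ × V := fun q s =>
    if |q.1| ≤ T then (q.1, φ (q.1 * s) q.2) else hG.sol ⟨0, by simp⟩ q s
  have hΦ0 : ∀ q, Φ q 0 = q := by
    intro q
    by_cases hq : |q.1| ≤ T
    · have e : Φ q 0 = (q.1, φ (q.1 * 0) q.2) := if_pos hq
      rw [e, mul_zero, h0]
    · have e : Φ q 0 = hG.sol ⟨0, by simp⟩ q 0 := if_neg hq
      rw [e]
      exact hG.sol_self ⟨0, by simp⟩ q
  have hΦ : ∀ q, IC (SD2b_Y b X) (Φ q) := by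
    intro q
    by_cases hq : |q.1| ≤ T
    · have e : Φ q = fun s => (q.1, φ (q.1 * s) q.2) := funext fun s => if_pos hq
      rw [e]
      exact SD2b_curve hφ (hb1 _ hq) q.2
    · have e : Φ q = hG.sol ⟨0, by simp⟩ q := funext fun s => if_neg hq
      rw [e]
      exact hG.sol_IC ⟨0, by simp⟩ q
  have h1 : ContDiff ℝ ((⊤ : ℕ∞) : WithTop ℕ∞) (fun q : ℝ × V => (Φ q 1).2) :=
    contDiff_snd.comp (contDiff_timeOne hY hΦ0 hΦ)
  refine h1.contDiffAt.congr_of_eventuallyEq ?_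
  have h2 : {q : ℝ × V | |q.1| < T} ∈ 𝓝 q₀ := by
    apply IsOpen.mem_nhds
    · exact isOpen_lt (continuous_fst.abs) continuous_const
    · show |q₀.1| < T
      linarith
  filter_upwards [h2] with q hq
  have hq' : |q.1| < T := hq
  have e : Φ q 1 = (q.1, φ (q.1 * 1) q.2) := if_pos hq'.le
  rw [e, mul_one]
  rfl

end Pool.Agent.W_68f289_h35
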