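import Pool.Agent.W_68f289_h35.SD2b

/-!
Smooth inverse of flows.
-/

open Set Metric Topology Pool.Agent.W_MP_68f289_gt
open scoped NNReal ContDiff

namespace Pool.Agent.W_68f289_h35

variable {V : Type} [NormedAddCommGroup V] [NormedSpace ℝ V] [FiniteDimensional ℝ V]
  {X : ℝ → V → V} {K : Set V}

/-- the time reversed field -/
def SD2c_R (Y : ℝ → V → V) (s : ℝ) (q : V) : V := -(Y (1 - s) q)

omit [FiniteDimensional ℝ V] in
theorem SD2c_rev {Y : ℝ → V → V} (hY : CField Y K) : CField (SD2c_R Y) K where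
  smooth := by
    have h1 : ContDiff ℝ ((⊤ : ℕ∞) : WithTop ℕ∞)
        (fun p : ℝ × V => Function.uncurry Y (1 - p.1, p.2)) :=
      hY.smooth.comp ((contDiff_const.sub contDiff_fst).prodMk contDiff_snd)
    exact h1.neg
  comp := hY.comp
  supp := by
    intro t q hq
    unfold SD2c_R
    rw [hY.supp _ _ hq, neg_zero]

omit [FiniteDimensional ℝ V] in
theorem SD2c_RR (Y : ℝ → V → V) : SD2c_R (SD2c_R Y) = Y := by
  funext s q
  unfold SD2c_R
  rw [neg_neg, sub_sub_cancel]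

omit [FiniteDimensional ℝ V] in
theorem SD2c_IC {Y : ℝ → V → V} {c : ℝ → V} (hc : IC Y c) :
    IC (SD2c_R Y) (fun s => c (1 - s)) := by
  intro t ht
  have ht' : 1 - t ∈ Icc (0 : ℝ) 1 := ⟨by linarith [ht.2], by linarith [ht.1]⟩
  have h1 : HasDerivWithinAt (fun s : ℝ => 1 - s) (-1) (Icc 0 1) t := by
    have h := ((hasDerivAt_id t).const_sub 1).hasDerivWithinAt (s := Icc (0 : ℝ) 1)
    exact h
  have h2 : MapsTo (fun s : ℝ => 1 - s) (Icc 0 1) (Icc 0 1) := by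
    intro s hs
    exact ⟨by linarith [hs.2], by linarith [hs.1]⟩
  have h3 := HasDerivWithinAt.scomp t (hc (1 - t) ht') h1 h2
  have h4 : SD2c_R Y t (c (1 - t)) = (-1 : ℝ) • Y (1 - t) (c (1 - t)) := by
    unfold SD2c_R
    rw [neg_smul, one_smul]
  rw [← h4] at h3
  exact h3

omit [FiniteDimensional ℝ V] in
theorem SD2c_fst {ζ : ℝ → ℝ} {d : ℝ → ℝ × V} (hd : IC (SD2b_Y ζ X) d) :
    (d 1).1 = (d 0).1 := by
  have h1 : ContinuousOn (fun s => (d s).1) (Icc 0 1) :=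
    continuous_fst.comp_continuousOn hd.continuousOn
  have h2 : ∀ x ∈ Ico (0 : ℝ) 1, HasDerivWithinAt (fun s => (d s).1) 0 (Ici x) x := by
    intro x hx
    exact (ContinuousLinearMap.fst ℝ ℝ V).hasFDerivAt.comp_hasDerivWithinAt x (hd.right hx)
  exact constant_of_has_deriv_right_zero h1 h2 1 ⟨zero_le_one, le_refl 1⟩

/-- The inverse evolution exists and is jointly smooth. Proof: for `|τ| < T` use the field
`Y s (τ, x) = (0, -(ζ τ * τ) • X (τ * (1 - s)) x)` on `ℝ × V`, with `ζ` as in `contDiff_flow`; let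
`χ τ x` be the second component of its time-one map at `(τ, x)` (the first is `τ`). For `|τ| ≤ T`
the curve `s ↦ (τ, φ (τ (1 - s)) y)` is the integral curve from `(τ, φ τ y)`, so
`χ τ (φ τ y) = y`. Conversely if `z` is the integral curve from `x`, `s ↦ z (1 - s)` and
`s ↦ φ (τ s) (χ τ x)` are integral curves on `[0, 1]` of `s x ↦ τ • X (τ s) x` with the same value at
`0`, so they agree at `1`: `x = φ τ (χ τ x)`. Since `φ τ` is then bijective, `χ` does not depend on `T`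
(or define `χ τ` as the inverse function, with `Function.invFun` or by choice, at the start). -/
theorem exists_inverse_flow (hX : CField X K) {φ : ℝ → V → V} (h0 : ∀ x, φ 0 x = x)
    (hφ : ∀ t x, HasDerivAt (fun s => φ s x) (X t (φ t x)) t) :
    ∃ χ : ℝ → V → V, ContDiff ℝ ((⊤ : ℕ∞) : WithTop ℕ∞) (Function.uncurry χ) ∧
      (∀ t x, φ t (χ t x) = x) ∧ ∀ t x, χ t (φ t x) = x := by
  -- the local statement
  have key : ∀ T : ℝ, 0 < T → ∃ G : ℝ × V → ℝ × V,
      ContDiff ℝ ((⊤ : ℕ∞) : WithTop ℕ∞) G ∧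
      (∀ τ : ℝ, |τ| ≤ T → ∀ y, G (τ, φ τ y) = (τ, y)) ∧
      ∀ τ : ℝ, |τ| ≤ T → ∀ x, ∃ y, φ τ y = x := by
    intro T hT0
    let b : ContDiffBump (0 : ℝ) := ⟨T, T + 1, hT0, by linarith⟩
    have hb1 : ∀ τ : ℝ, |τ| ≤ T → b τ = 1 := by
      intro τ hτ
      apply b.one_of_mem_closedBall
      rw [mem_closedBall, dist_zero_right, Real.norm_eq_abs]
      exact hτ
    have hY : CField (SD2b_Y b X) (tsupport b ×ˢ K) :=
      SD2b_field hX b.contDiff b.hasCompactSupport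
    have hR := SD2c_rev hY
    obtain ⟨C, hG, -, -⟩ := hR.exists_bounds
    obtain ⟨C', hG', -, -⟩ := hY.exists_bounds
    let Ψ : ℝ × V → ℝ → ℝ × V := fun q => hG.sol ⟨0, by simp⟩ q
    have hΨ0 : ∀ q, Ψ q 0 = q := fun q => hG.sol_self ⟨0, by simp⟩ q
    have hΨ : ∀ q, IC (SD2c_R (SD2b_Y b X)) (Ψ q) := fun q => hG.sol_IC ⟨0, by simp⟩ q
    refine ⟨fun q => Ψ q 1, contDiff_timeOne hR hΨ0 hΨ, ?_, ?_⟩
    · intro τ hτ y
      have hc := SD2c_IC (SD2b_curve hφ (hb1 τ hτ) y)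
      have h1 := hG.unique (hΨ (τ, φ τ y)) hc (s := 0) ⟨le_refl _, zero_le_one⟩ (by
        rw [hΨ0, sub_zero, mul_one])
      have h2 := h1 (show (1 : ℝ) ∈ Icc (0 : ℝ) 1 from ⟨zero_le_one, le_refl _⟩)
      show Ψ (τ, φ τ y) 1 = (τ, y)
      rw [h2]
      show (τ, φ (τ * (1 - 1)) y) = (τ, y)
      rw [sub_self, mul_zero, h0]
    · intro τ hτ x
      have hd := SD2c_IC (hΨ (τ, x))
      rw [SD2c_RR] at hd
      have h1 := SD2c_fst hd
      have h1' : (Ψ (τ, x) (1 - 1)).1 = (Ψ (τ, x) (1 - 0)).1 := h1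
      rw [sub_self, sub_zero, hΨ0] at h1'
      refine ⟨(Ψ (τ, x) 1).2, ?_⟩
      have hc := SD2b_curve hφ (hb1 τ hτ) (Ψ (τ, x) 1).2
      have h2 := hG'.unique hd hc (s := 0) ⟨le_refl _, zero_le_one⟩ (by
        rw [sub_zero, mul_zero, h0]
        exact Prod.ext h1'.symm rfl)
      have h3 := h2 (show (1 : ℝ) ∈ Icc (0 : ℝ) 1 from ⟨zero_le_one, le_refl _⟩)
      have h4 : Ψ (τ, x) (1 - 1) = (τ, φ (τ * 1) (Ψ (τ, x) 1).2) := h3
      rw [sub_self, hΨ0, mul_one] at h4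
      exact (congrArg Prod.snd h4).symm
  have hsurj : ∀ t x, ∃ y, φ t y = x := by
    intro t x
    obtain ⟨G, -, -, h3⟩ := key (|t| + 1) (by positivity)
    exact h3 t (by linarith) x
  choose χ hχ using hsurj
  refine ⟨χ, ?_, hχ, ?_⟩
  · rw [contDiff_iff_contDiffAt]
    intro q₀
    obtain ⟨G, hG1, hG2, -⟩ := key (|q₀.1| + 1) (by positivity)
    have h1 : ContDiff ℝ ((⊤ : ℕ∞) : WithTop ℕ∞) (fun q : ℝ × V => (G q).2) :=
      contDiff_snd.comp hG1
    refine h1.contDiffAt.congr_of_eventuallyEq ?_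
    have h2 : {q : ℝ × V | |q.1| < |q₀.1| + 1} ∈ 𝓝 q₀ := by
      apply IsOpen.mem_nhds
      · exact isOpen_lt (continuous_fst.abs) continuous_const
      · show |q₀.1| < |q₀.1| + 1
        linarith
    filter_upwards [h2] with q hq
    have hq' : |q.1| < |q₀.1| + 1 := hq
    have h3 := hG2 q.1 hq'.le (χ q.1 q.2)
    rw [hχ] at h3
    show χ q.1 q.2 = (G q).2
    have h4 : G q = (q.1, χ q.1 q.2) := h3
    rw [h4]
  · intro t x
    obtain ⟨G, -, h2, -⟩ := key (|t| + 1) (by positivity)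
    have e1 := h2 t (by linarith) (χ t (φ t x))
    have e2 := h2 t (by linarith) x
    rw [hχ] at e1
    rw [e1] at e2
    exact congrArg Prod.snd e2

end Pool.Agent.W_68f289_h35
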