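import Pool.Agent.W_68f289_h35.SyA

/-!
Transformation of Hamiltonian vector fields.
-/

open Set Metric Topology Pool.Agent.W_MP_68f289_gt
open scoped NNReal ContDiff

namespace Pool.Agent.W_68f289_h35

variable {n : ℕ}

lemma om_ext {u v : E n} (h : ∀ w, om u w = om v w) : u = v := by
  have h1 : u + (-1 : ℝ) • v = 0 := by
    refine om_nondeg fun w => ?_
    rw [om_add_left, om_smul_left, h w]
    ring
  have h2 : u + (-1 : ℝ) • v = u - v := by
    rw [neg_one_smul, sub_eq_add_neg]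
  rw [h2] at h1
  exact sub_eq_zero.1 h1

/-- transformation law: test the two sides against `A w` with `A = fderiv ℝ g x` surjective, by
`om_XH` and the chain rule -/
lemma XH_comp {g : E n → E n} {h : E n → ℝ} {x : E n} (hg : DifferentiableAt ℝ g x)
    (hs : Symp (fderiv ℝ g x)) (hh : DifferentiableAt ℝ h (g x)) :
    fderiv ℝ g x (XH (fun y => h (g y)) x) = XH h (g x) := by
  refine om_ext fun w => ?_
  obtain ⟨w', rfl⟩ := hs.bijective.2 w
  rw [hs, om_XH, om_XH]
  have h1 : fderiv ℝ (fun y => h (g y)) x = (fderiv ℝ h (g x)).comp (fderiv ℝ g x) :=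
    fderiv_comp x hh hg
  rw [h1]
  rfl

lemma XH_add {h k : E n → ℝ} {z : E n} (hh : DifferentiableAt ℝ h z)
    (hk : DifferentiableAt ℝ k z) : XH (fun x => h x + k x) z = XH h z + XH k z := by
  refine om_ext fun w => ?_
  rw [om_add_left, om_XH, om_XH, om_XH]
  have h1 : fderiv ℝ (fun y => h y + k y) z = fderiv ℝ h z + fderiv ℝ k z :=
    fderiv_add hh hk
  rw [h1]
  rfl

/-- sup norm bound of the Hamiltonian vector field by the derivative (`‖(0, uv i)‖ = ‖(uv i, 0)‖ ≤ 1`) -/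
lemma norm_XH_le (h : E n → ℝ) (z : E n) : ‖XH h z‖ ≤ ‖fderiv ℝ h z‖ := by
  have huv : ∀ i : Fin n, ‖(uv i : Fin n → ℝ)‖ ≤ 1 := by
    intro i
    rw [pi_norm_le_iff_of_nonneg zero_le_one]
    intro j
    unfold uv
    by_cases hij : j = i
    · subst hij
      rw [Pi.single_eq_same]
      simp
    · rw [Pi.single_eq_of_ne hij]
      simp
  have h1 : ∀ w : E n, ‖w‖ ≤ 1 → ‖dd h z w‖ ≤ ‖fderiv ℝ h z‖ := by
    intro w hw
    unfold dd
    refine ((fderiv ℝ h z).le_opNorm w).trans ?_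
    exact mul_le_of_le_one_right (norm_nonneg _) hw
  have h2 : ∀ i : Fin n, ‖((0, uv i) : E n)‖ ≤ 1 := by
    intro i
    rw [Prod.norm_def]
    exact max_le (by simp) (huv i)
  have h3 : ∀ i : Fin n, ‖((uv i, 0) : E n)‖ ≤ 1 := by
    intro i
    rw [Prod.norm_def]
    exact max_le (huv i) (by simp)
  rw [Prod.norm_def]
  refine max_le ?_ ?_
  · rw [pi_norm_le_iff_of_nonneg (norm_nonneg _)]
    intro i
    exact h1 _ (h2 i)
  · rw [pi_norm_le_iff_of_nonneg (norm_nonneg _)]
    intro i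
    have h4 := h1 _ (h3 i)
    unfold XH
    simpa using h4

end Pool.Agent.W_68f289_h35
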