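import Pool.Agent.W_68f289_h35.SyA

/-!
Determinant of symplectic maps.
-/

open Set Metric Topology Pool.Agent.W_MP_68f289_gt
open scoped NNReal ContDiff

namespace Pool.Agent.W_68f289_h35

variable {n : ℕ}

/-- Symplectic linear maps have determinant `± 1`. Proof: in the basis of `E n` given by
`(Pi.basisFun ℝ (Fin n)).prod (Pi.basisFun ℝ (Fin n))` the form has the matrix
`Matrix.J (Fin n) ℝ` up to sign and `hA` says `Mᵀ J M = J`, that is `M ∈ Matrix.symplecticGroup`
(`SymplecticGroup.mem_iff'`, its determinant is a unit of square one), or take determinants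
directly: `det J ≠ 0` as `J * J = -1`. Alternatively: `A⁻¹ = J⁻¹ Aᵀ J`. -/
lemma Symp.abs_det {A : E n →L[ℝ] E n} (hA : Symp A) : |A.det| = 1 := by
  classical
  let B : E n →ₗ[ℝ] E n →ₗ[ℝ] ℝ := LinearMap.mk₂ ℝ om om_add_left om_smul_left
    (fun u v w => by rw [om_swap, om_add_left, om_swap v, om_swap w]; ring)
    (fun c v w => by rw [om_swap, om_smul_left, om_swap w, smul_eq_mul]; ring)
  let b : Module.Basis (Fin n ⊕ Fin n) ℝ (E n) :=
    (Pi.basisFun ℝ (Fin n)).prod (Pi.basisFun ℝ (Fin n))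
  let L : E n →ₗ[ℝ] E n := (A : E n →ₗ[ℝ] E n)
  have hB : B.compl₁₂ L L = B := by
    refine LinearMap.ext fun v => LinearMap.ext fun w => ?_
    exact hA v w
  have hJ : LinearMap.toMatrix₂ b b B = (Matrix.J (Fin n) ℝ).transpose := by
    ext i j
    rw [LinearMap.toMatrix₂_apply, Matrix.transpose_apply, Matrix.J]
    have hom : ∀ v w, B v w = ∑ i, (v.1 i * w.2 i - v.2 i * w.1 i) := fun v w => rfl
    rw [hom]
    rcases i with i | i <;> rcases j with j | j <;>
      simp [b, Module.Basis.prod_apply, Pi.single_apply, Matrix.one_apply]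
  have hM := LinearMap.toMatrix₂_compl₁₂ b b b b B L L
  rw [hB, hJ] at hM
  have hd := congrArg Matrix.det hM
  rw [Matrix.det_mul, Matrix.det_mul, Matrix.det_transpose, Matrix.det_transpose,
    LinearMap.det_toMatrix] at hd
  have hJd : (Matrix.J (Fin n) ℝ).det ≠ 0 := (Matrix.isUnit_det_J (Fin n) ℝ).ne_zero
  have hAd : A.det = LinearMap.det L := rfl
  rw [hAd]
  have h2 : LinearMap.det L * LinearMap.det L = 1 := by
    have h3 : (Matrix.J (Fin n) ℝ).det * (LinearMap.det L * LinearMap.det L) =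
        (Matrix.J (Fin n) ℝ).det * 1 := by
      rw [mul_one]
      nth_rewrite 2 [hd]
      ring
    exact mul_left_cancel₀ hJd h3
  have h4 : |LinearMap.det L| * |LinearMap.det L| = 1 := by
    rw [← abs_mul, h2, abs_one]
  nlinarith [abs_nonneg (LinearMap.det L)]

end Pool.Agent.W_68f289_h35
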