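import Pool.Agent.W_68f289_h35.SD2c
import Pool.Agent.W_68f289_h35.SyB
import Pool.Agent.W_68f289_h35.SyC

/-!
Hamiltonian flows: smoothness, inverse, support.
-/

open Set Metric Topology Pool.Agent.W_MP_68f289_gt MeasureTheory
open scoped NNReal ContDiff

namespace Pool.Agent.W_68f289_h35

variable {n : ℕ} {H : ℝ → E n → ℝ} {ψ : ℝ → E n → E n}

/-- Proof: `Adm.XH_smooth`, `Adm.XH_off`. -/
lemma HIso.cfield (h : HIso n H ψ) : ∃ K : Set (E n), K ⊆ Bl n ∧
    (∀ t, ∀ x, x ∉ K → H t x = 0) ∧ CField (fun t => XH (H t)) K := by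
  obtain ⟨K, hc, hB, h0⟩ := h.supp
  have hA : Adm n H K := ⟨h.smooth, hc, hB, h0⟩
  exact ⟨K, hB, h0, ⟨hA.XH_smooth, hc, fun t x hx => hA.XH_off t hx⟩⟩

lemma HIso.contDiff (h : HIso n H ψ) : ContDiff ℝ ((⊤ : ℕ∞) : WithTop ℕ∞) (Function.uncurry ψ) := by
  obtain ⟨K, _, _, hK⟩ := HIso.cfield h
  exact contDiff_flow hK h.zero h.der

lemma HIso.exists_inv (h : HIso n H ψ) : ∃ χ : ℝ → E n → E n,
    ContDiff ℝ ((⊤ : ℕ∞) : WithTop ℕ∞) (Function.uncurry χ) ∧
      (∀ t x, ψ t (χ t x) = x) ∧ ∀ t x, χ t (ψ t x) = x := by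
  obtain ⟨K, _, _, hK⟩ := HIso.cfield h
  exact exists_inverse_flow hK h.zero h.der

/-- the inverse maps of the flow -/
noncomputable def HIso.inv (h : HIso n H ψ) : ℝ → E n → E n := (HIso.exists_inv h).choose

lemma HIso.inv_contDiff (h : HIso n H ψ) :
    ContDiff ℝ ((⊤ : ℕ∞) : WithTop ℕ∞) (Function.uncurry (HIso.inv h)) :=
  (HIso.exists_inv h).choose_spec.1

lemma HIso.apply_inv (h : HIso n H ψ) (t : ℝ) (x : E n) : ψ t (HIso.inv h t x) = x :=
  (HIso.exists_inv h).choose_spec.2.1 t x

lemma HIso.inv_apply (h : HIso n H ψ) (t : ℝ) (x : E n) : HIso.inv h t (ψ t x) = x :=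
  (HIso.exists_inv h).choose_spec.2.2 t x

/-- the maps of the flow as homeomorphisms -/
noncomputable def HIso.homeo (h : HIso n H ψ) (t : ℝ) : E n ≃ₜ E n where
  toFun := ψ t
  invFun := HIso.inv h t
  left_inv := HIso.inv_apply h t
  right_inv := HIso.apply_inv h t
  continuous_toFun := (HIso.contDiff h).continuous.comp (continuous_const.prodMk continuous_id)
  continuous_invFun := (HIso.inv_contDiff h).continuous.comp (continuous_const.prodMk continuous_id)

/-- the flow is the identity off the support (uniqueness of integral curves on `[0, 1]` only gives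
this for `t ∈ [0,1]`; for all `t` use the inverse: rescale time, or apply uniqueness
`ODE_solution_unique_univ` with the field which is Lipschitz on compact time intervals; simplest: if
`x ∉ K`, then `s ↦ x` and `s ↦ ψ s x` are integral curves of the field, which is locally Lipschitz:
for `T > 0` the rescaled field `s x ↦ T • XH (H (T s)) x` is `Good` on `[0, 1]` by
`CField.exists_bounds` and `Good.unique` applies; same with `-T`) -/
lemma HIso.off (h : HIso n H ψ) {K : Set (E n)} (hc : IsCompact K)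
    (hK : ∀ t, ∀ x, x ∉ K → H t x = 0) (t : ℝ) {x : E n} (hx : x ∉ K) : ψ t x = x := by
  obtain ⟨K', -, -, hK'⟩ := HIso.cfield h
  have hC : CField (fun s x => t • XH (H (t * s)) x) K' := by
    refine ⟨?_, hK'.comp, fun s y hy => ?_⟩
    · have h1 : ContDiff ℝ ((⊤ : ℕ∞) : WithTop ℕ∞) (fun p : ℝ × E n => (t * p.1, p.2)) :=
        (contDiff_const.mul contDiff_fst).prodMk contDiff_snd
      exact (hK'.smooth.comp h1).const_smul t
    · change t • XH (H (t * s)) y = 0
      have h1 : XH (H (t * s)) y = 0 := hK'.supp (t * s) y hy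
      rw [h1, smul_zero]
  obtain ⟨C, hG, -, -⟩ := hC.exists_bounds
  have hX0 : ∀ s, XH (H s) x = 0 := by
    intro s
    rw [← XH_zero x]
    apply XH_congr
    filter_upwards [hc.isClosed.isOpen_compl.mem_nhds hx] with y hy
    exact hK s y hy
  have hα : IC (fun s x => t • XH (H (t * s)) x) (fun _ => x) := by
    intro s _
    change HasDerivWithinAt (fun _ => x) (t • XH (H (t * s)) x) (Icc 0 1) s
    rw [hX0, smul_zero]
    exact hasDerivWithinAt_const _ _ _
  have hβ : IC (fun s x => t • XH (H (t * s)) x) (fun s => ψ (t * s) x) := by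
    intro s _
    change HasDerivWithinAt (fun s => ψ (t * s) x) (t • XH (H (t * s)) (ψ (t * s) x)) (Icc 0 1) s
    have h1 : HasDerivAt (fun s : ℝ => t * s) t s := by
      simpa using (hasDerivAt_id s).const_mul t
    exact ((h.der (t * s) x).scomp s h1).hasDerivWithinAt
  have h0 : (fun _ : ℝ => x) 0 = (fun s => ψ (t * s) x) 0 := by
    change x = ψ (t * 0) x
    rw [mul_zero, h.zero]
  have h1 := hG.unique hα hβ (left_mem_Icc.2 zero_le_one) h0 (right_mem_Icc.2 zero_le_one)
  change x = ψ (t * 1) x at h1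
  rw [mul_one] at h1
  exact h1.symm

/-- the flow preserves `K` (it is the identity off `K` and bijective) -/
lemma HIso.mem_iff (h : HIso n H ψ) {K : Set (E n)} (hc : IsCompact K)
    (hK : ∀ t, ∀ x, x ∉ K → H t x = 0) (t : ℝ) (x : E n) : ψ t x ∈ K ↔ x ∈ K := by
  constructor
  · intro h1
    by_contra hx
    rw [HIso.off h hc hK t hx] at h1
    exact hx h1
  · intro hx
    by_contra h1
    have h2 := HIso.off h hc hK t h1
    have h3 := congrArg (HIso.inv h t) h2
    rw [HIso.inv_apply, HIso.inv_apply] at h3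
    rw [h3] at h1
    exact h1 hx

end Pool.Agent.W_68f289_h35
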