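import Pool.Agent.W_68f289_h35.SfA

/-!
Linearised equation of the flow.
-/

open Set Metric Topology Pool.Agent.W_MP_68f289_gt MeasureTheory
open scoped NNReal ContDiff

namespace Pool.Agent.W_68f289_h35

variable {n : ℕ} {H : ℝ → E n → ℝ} {ψ : ℝ → E n → E n}

/-- The derivative of the flow with respect to the initial point satisfies the linearised equation.
Proof: symmetry of second derivatives of the smooth function `(t, x) ↦ ψ t x`
(`ContDiffAt.isSymmSndFDerivAt`), `h.der` and the chain rule. -/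
lemma HIso.hasDerivAt_fderiv (h : HIso n H ψ) (t : ℝ) (x v : E n) :
    HasDerivAt (fun s => fderiv ℝ (ψ s) x v)
      (fderiv ℝ (XH (H t)) (ψ t x) (fderiv ℝ (ψ t) x v)) t := by
  have hΨ : ContDiff ℝ ((⊤ : ℕ∞) : WithTop ℕ∞) (Function.uncurry ψ) := HIso.contDiff h
  have hΨd : Differentiable ℝ (Function.uncurry ψ) := hΨ.differentiable (by simp)
  have hD : ContDiff ℝ ((⊤ : ℕ∞) : WithTop ℕ∞) (fderiv ℝ (Function.uncurry ψ)) :=
    hΨ.fderiv_right (by simp)
  have hDd : Differentiable ℝ (fderiv ℝ (Function.uncurry ψ)) := hD.differentiable (by simp)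
  -- the derivative in space
  have hsp' : ∀ (s : ℝ) (y : E n), HasFDerivAt (ψ s)
      ((fderiv ℝ (Function.uncurry ψ) (s, y)).comp (ContinuousLinearMap.inr ℝ ℝ (E n))) y := by
    intro s y
    exact (hΨd (s, y)).hasFDerivAt.comp y (hasFDerivAt_prodMk_right s y)
  have hsp : ∀ (s : ℝ) (y w : E n),
      fderiv ℝ (ψ s) y w = fderiv ℝ (Function.uncurry ψ) (s, y) (0, w) := by
    intro s y w
    rw [(hsp' s y).fderiv]
    rfl
  -- the derivative in time
  have htm : ∀ (s : ℝ) (y : E n),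
      fderiv ℝ (Function.uncurry ψ) (s, y) (1, 0) = XH (H s) (ψ s y) := by
    intro s y
    have e0 : HasDerivAt (fun r : ℝ => (r, y)) ((1 : ℝ), (0 : E n)) s :=
      (hasDerivAt_id s).prodMk (hasDerivAt_const s y)
    have e1 : HasDerivAt (fun r : ℝ => Function.uncurry ψ (r, y))
        (fderiv ℝ (Function.uncurry ψ) (s, y) (1, 0)) s :=
      HasFDerivAt.comp_hasDerivAt (f := fun r : ℝ => (r, y)) s (hΨd (s, y)).hasFDerivAt e0
    exact e1.unique (h.der s y)
  -- the second derivative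
  have hsym : fderiv ℝ (fderiv ℝ (Function.uncurry ψ)) (t, x) (1, 0) (0, v) =
      fderiv ℝ (fderiv ℝ (Function.uncurry ψ)) (t, x) (0, v) (1, 0) :=
    second_derivative_symmetric (fun y => (hΨd y).hasFDerivAt) (hDd (t, x)).hasFDerivAt (1, 0) (0, v)
  have h1 : HasDerivAt (fun s : ℝ => fderiv ℝ (Function.uncurry ψ) (s, x) (0, v))
      (fderiv ℝ (fderiv ℝ (Function.uncurry ψ)) (t, x) (1, 0) (0, v)) t := by
    have e1 : HasDerivAt (fun s : ℝ => fderiv ℝ (Function.uncurry ψ) (s, x))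
        (fderiv ℝ (fderiv ℝ (Function.uncurry ψ)) (t, x) (1, 0)) t := by
      have e0 : HasDerivAt (fun r : ℝ => (r, x)) ((1 : ℝ), (0 : E n)) t :=
        (hasDerivAt_id t).prodMk (hasDerivAt_const t x)
      exact HasFDerivAt.comp_hasDerivAt (f := fun r : ℝ => (r, x)) t (hDd (t, x)).hasFDerivAt e0
    have e2 := e1.clm_apply (hasDerivAt_const t ((0, v) : ℝ × E n))
    rw [map_zero, add_zero] at e2
    exact e2
  have h2 : HasFDerivAt (fun y : E n => fderiv ℝ (Function.uncurry ψ) (t, y) (1, 0))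
      (((ContinuousLinearMap.apply ℝ (E n) ((1, 0) : ℝ × E n)).comp
        (fderiv ℝ (fderiv ℝ (Function.uncurry ψ)) (t, x))).comp
          (ContinuousLinearMap.inr ℝ ℝ (E n))) x := by
    exact (((ContinuousLinearMap.apply ℝ (E n) ((1, 0) : ℝ × E n)).hasFDerivAt).comp (t, x)
      (hDd (t, x)).hasFDerivAt).comp x (hasFDerivAt_prodMk_right t x)
  have hX : DifferentiableAt ℝ (XH (H t)) (ψ t x) := by
    obtain ⟨K, _, _, hK⟩ := HIso.cfield h
    have e1 : Differentiable ℝ (Function.uncurry fun t => XH (H t)) :=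
      hK.smooth.differentiable (by simp)
    exact (e1 (t, ψ t x)).comp (ψ t x)
      (hasFDerivAt_prodMk_right t (ψ t x)).differentiableAt
  have h3 : HasFDerivAt (fun y : E n => XH (H t) (ψ t y))
      ((fderiv ℝ (XH (H t)) (ψ t x)).comp (fderiv ℝ (ψ t) x)) x :=
    hX.hasFDerivAt.comp x (hsp' t x).differentiableAt.hasFDerivAt
  have h4 : (fun y : E n => fderiv ℝ (Function.uncurry ψ) (t, y) (1, 0)) =
      fun y : E n => XH (H t) (ψ t y) := funext fun y => htm t y
  rw [h4] at h2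
  have h5 := congrArg (fun L : E n →L[ℝ] E n => L v) (h3.unique h2)
  have h6 : fderiv ℝ (XH (H t)) (ψ t x) (fderiv ℝ (ψ t) x v) =
      fderiv ℝ (fderiv ℝ (Function.uncurry ψ)) (t, x) (0, v) (1, 0) := h5
  rw [h6, ← hsym]
  have h7 : (fun s => fderiv ℝ (ψ s) x v) =
      fun s : ℝ => fderiv ℝ (Function.uncurry ψ) (s, x) (0, v) := funext fun s => hsp s x v
  rw [h7]
  exact h1

end Pool.Agent.W_68f289_h35
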