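import Pool.Agent.W_68f289_h35.SfB

/-!
Hamiltonian flows are symplectic.
-/

open Set Metric Topology Pool.Agent.W_MP_68f289_gt MeasureTheory
open scoped NNReal ContDiff

namespace Pool.Agent.W_68f289_h35

variable {n : ℕ} {H : ℝ → E n → ℝ} {ψ : ℝ → E n → E n}

/-- the derivative of the Hamiltonian vector field is the second derivative -/
lemma om_fderiv_two {f : E n → ℝ} (hf : ContDiff ℝ ((⊤ : ℕ∞) : WithTop ℕ∞) f) (z a b : E n) :
    om (fderiv ℝ (XH f) z a) b = fderiv ℝ (fderiv ℝ f) z a b := by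
  obtain ⟨B, hB⟩ := exists_om_clm n
  have hd : Differentiable ℝ (fderiv ℝ f) :=
    (hf.fderiv_right (m := ((⊤ : ℕ∞) : WithTop ℕ∞)) (by simp)).differentiable (by simp)
  have hX : Differentiable ℝ (XH f) := by
    have h2 : ∀ u : E n, Differentiable ℝ (fun y => fderiv ℝ f y u) := fun u =>
      hd.clm_apply (differentiable_const u)
    intro z
    unfold XH dd
    exact (differentiableAt_pi.2 fun i => h2 _ z).prodMk
      (differentiableAt_pi.2 fun i => (h2 _ z).neg)
  have h1 : HasFDerivAt (fun y => B (XH f y) b) ((B.flip b).comp (fderiv ℝ (XH f) z)) z :=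
    (B.flip b).hasFDerivAt.comp z (hX z).hasFDerivAt
  have h2 : HasFDerivAt (fun y => fderiv ℝ f y b)
      ((ContinuousLinearMap.apply ℝ ℝ b).comp (fderiv ℝ (fderiv ℝ f) z)) z :=
    (ContinuousLinearMap.apply ℝ ℝ b).hasFDerivAt.comp z (hd z).hasFDerivAt
  have e : (fun y => B (XH f y) b) = fun y => fderiv ℝ f y b := by
    funext y
    rw [hB, om_XH]
  rw [e] at h1
  have h3 := congrArg (fun L : E n →L[ℝ] ℝ => L a) (h1.unique h2)
  have h4 : B (fderiv ℝ (XH f) z a) b = fderiv ℝ (fderiv ℝ f) z a b := h3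
  rw [← h4, hB]

/-- For a smooth function `f` the bilinear form `(a, b) ↦ om (fderiv (XH f) z a) b` is the Hessian, so
symmetric (differentiate `om_XH`). -/
lemma om_fderiv_XH {f : E n → ℝ} (hf : ContDiff ℝ ((⊤ : ℕ∞) : WithTop ℕ∞) f) (z a b : E n) :
    om (fderiv ℝ (XH f) z a) b = om (fderiv ℝ (XH f) z b) a := by
  rw [om_fderiv_two hf, om_fderiv_two hf]
  exact (hf.contDiffAt.isSymmSndFDerivAt (by
    simp only [minSmoothness_of_isRCLikeNormedField]
    exact WithTop.coe_le_coe.2 (le_top : (2 : ℕ∞) ≤ ⊤))) a b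

/-- The flow is symplectic: `t ↦ om (Dψ_t v) (Dψ_t w)` has derivative zero by the two lemmas above
(`is_const_of_deriv_eq_zero`), and `ψ 0 = id`. -/
lemma HIso.symp (h : HIso n H ψ) (t : ℝ) (x : E n) : Symp (fderiv ℝ (ψ t) x) := by
  obtain ⟨B, hB⟩ := exists_om_clm n
  intro v w
  set f : ℝ → ℝ := fun s => B (fderiv ℝ (ψ s) x v) (fderiv ℝ (ψ s) x w) with hf
  have hd : ∀ s, HasDerivAt f 0 s := by
    intro s
    have h1 := HIso.hasDerivAt_fderiv h s x v
    have h2 := HIso.hasDerivAt_fderiv h s x w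
    have h3 : HasDerivAt f (B (fderiv ℝ (XH (H s)) (ψ s x) (fderiv ℝ (ψ s) x v))
        (fderiv ℝ (ψ s) x w) + B (fderiv ℝ (ψ s) x v)
        (fderiv ℝ (XH (H s)) (ψ s x) (fderiv ℝ (ψ s) x w))) s := by
      have h4 : HasDerivAt (fun s => B (fderiv ℝ (ψ s) x v))
          (B (fderiv ℝ (XH (H s)) (ψ s x) (fderiv ℝ (ψ s) x v))) s :=
        B.hasFDerivAt.comp_hasDerivAt s h1
      exact h4.clm_apply h2
    have h5 : B (fderiv ℝ (XH (H s)) (ψ s x) (fderiv ℝ (ψ s) x v))
        (fderiv ℝ (ψ s) x w) + B (fderiv ℝ (ψ s) x v)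
        (fderiv ℝ (XH (H s)) (ψ s x) (fderiv ℝ (ψ s) x w)) = 0 := by
      have hs : ContDiff ℝ ((⊤ : ℕ∞) : WithTop ℕ∞) (H s) :=
        h.smooth.comp (contDiff_const.prodMk contDiff_id)
      rw [hB, hB, om_swap (fderiv ℝ (ψ s) x v), om_fderiv_XH hs]
      ring
    rw [h5] at h3
    exact h3
  have hc := is_const_of_deriv_eq_zero (f := f) (fun s => (hd s).differentiableAt)
    (fun s => (hd s).deriv) t 0
  have h0 : fderiv ℝ (ψ 0) x = ContinuousLinearMap.id ℝ (E n) := by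
    have : ψ 0 = id := funext h.zero
    rw [this, fderiv_id]
  have e1 : f t = om (fderiv ℝ (ψ t) x v) (fderiv ℝ (ψ t) x w) := by rw [hf]; exact hB _ _
  have e2 : f 0 = om v w := by
    rw [hf]
    change B (fderiv ℝ (ψ 0) x v) (fderiv ℝ (ψ 0) x w) = _
    rw [h0, hB]
    rfl
  rw [← e1, hc, e2]

lemma HIso.inv_symp (h : HIso n H ψ) (t : ℝ) (x : E n) : Symp (fderiv ℝ (HIso.inv h t) x) := by
  have h1 : Differentiable ℝ (HIso.inv h t) :=
    ((HIso.inv_contDiff h).comp (contDiff_const.prodMk contDiff_id)).differentiable (by simp)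
  have h2 : Differentiable ℝ (ψ t) :=
    ((HIso.contDiff h).comp (contDiff_const.prodMk contDiff_id)).differentiable (by simp)
  refine (HIso.symp h t (HIso.inv h t x)).of_right_inv fun v => ?_
  have h3 : HasFDerivAt (fun y => ψ t (HIso.inv h t y))
      ((fderiv ℝ (ψ t) (HIso.inv h t x)).comp (fderiv ℝ (HIso.inv h t) x)) x :=
    (h2 _).hasFDerivAt.comp x (h1 x).hasFDerivAt
  have e : (fun y => ψ t (HIso.inv h t y)) = id := funext fun y => HIso.apply_inv h t y
  rw [e] at h3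
  have h4 := congrArg (fun L : E n →L[ℝ] E n => L v) (h3.unique (hasFDerivAt_id x))
  exact h4

end Pool.Agent.W_68f289_h35
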