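import Pool.Agent.W_68f289_h35.SfC

/-!
Hamiltonian flows preserve volume.
-/

open Set Metric Topology Pool.Agent.W_MP_68f289_gt MeasureTheory
open scoped NNReal ContDiff

namespace Pool.Agent.W_68f289_h35

variable {n : ℕ} {H : ℝ → E n → ℝ} {ψ : ℝ → E n → E n}

/-- A homeomorphism which is differentiable with symplectic derivatives preserves the volume. Proof:
`lintegral_image_eq_lintegral_abs_det_fderiv_mul` or
`MeasureTheory.addHaar_image_eq_lintegral_abs_det_fderiv` and `Symp.abs_det`. -/
lemma measurePreserving_of_symp {g : E n ≃ₜ E n} (hg : Differentiable ℝ g)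
    (hs : ∀ x, Symp (fderiv ℝ g x)) : MeasurePreserving g volume volume := by
  have hs' := hs
  have hH : (volume : Measure (E n)).IsAddHaarMeasure := Measure.prod.instIsAddHaarMeasure _ _
  refine ⟨g.continuous.measurable, ?_⟩
  ext s hs
  rw [Measure.map_apply g.continuous.measurable hs]
  have hm : MeasurableSet (g ⁻¹' s) := g.continuous.measurable hs
  have h1 := lintegral_abs_det_fderiv_eq_addHaar_image (volume : Measure (E n)) hm
    (fun x _ => (hg x).hasFDerivAt.hasFDerivWithinAt) g.injective.injOn
  have h2 : ∀ x : E n, ENNReal.ofReal |(fderiv ℝ g x).det| = 1 := fun x => by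
    rw [(hs' x).abs_det, ENNReal.ofReal_one]
  simp only [h2, setLIntegral_one] at h1
  rw [h1, image_preimage_eq s g.surjective]

lemma HIso.measurePreserving (h : HIso n H ψ) (t : ℝ) : MeasurePreserving (ψ t) volume volume :=
  measurePreserving_of_symp (g := HIso.homeo h t)
    (((HIso.contDiff h).comp (contDiff_const.prodMk contDiff_id)).differentiable (by simp))
    (HIso.symp h t)

end Pool.Agent.W_68f289_h35
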