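import Pool.Agent.W_MP_68f289_gt.Defs

/-!
Definitions used in the statement about the Calabi alternative: topological Hamiltonian paths,
the Calabi invariant of a Hamiltonian, subgroups of the group of hameomorphisms which are closed
for limits of Hamiltonian diffeomorphisms in the Hamiltonian topology.
-/

open Set Metric Topology Pool.Agent.W_MP_68f289_gt

namespace Pool.Agent.W_68f289_h35

/-- the integral of a Hamiltonian over space and time (Calabi invariant) -/
noncomputable def cal {n : ℕ} (H : ℝ → E n → ℝ) : ℝ := ∫ t in (0 : ℝ)..1, ∫ x, H t x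

/-- topological Hamiltonian paths in the ball (Oh and Müller): smooth Hamiltonians `H k` supported in
one compact subset `K` of the ball, with flows `ψ k`, which form a Cauchy sequence for the Hofer
norm and whose flows converge uniformly on `[0, 1] × ℝ^{2n}` to a path `Φ` of homeomorphisms -/
structure TPath (n : ℕ) (K : Set (E n)) (H : ℕ → ℝ → E n → ℝ) (ψ : ℕ → ℝ → E n → E n)
    (Φ : Icc (0 : ℝ) 1 → (E n ≃ₜ E n)) : Prop where
  comp : IsCompact K
  sub : K ⊆ Bl n
  iso : ∀ k, HIso n (H k) (ψ k)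
  supp : ∀ k, ∀ t : ℝ, ∀ x, x ∉ K → H k t x = 0
  cauchy : HCauchy H
  conv : UConv ψ Φ

/-- the end point of a path -/
def endp {n : ℕ} (Φ : Icc (0 : ℝ) 1 → (E n ≃ₜ E n)) : E n ≃ₜ E n := Φ ⟨1, by simp⟩

/-- `N` is closed for limits of its Hamiltonian diffeomorphisms in the Hamiltonian topology: if the
time-one maps of the flows `ψ k` of a topological Hamiltonian path are in `N`, then its end point is
in `N` -/
def HClosed {n : ℕ} (N : Subgroup (Hm n)) : Prop :=
  ∀ K H ψ Φ, TPath n K H ψ Φ → (∀ k, ∃ u ∈ N, ∀ x, (u : E n ≃ₜ E n) x = ψ k 1 x) →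
    ∃ u ∈ N, (u : E n ≃ₜ E n) = endp Φ

/-- the Calabi homomorphism extends canonically to hameomorphisms -/
def Canonical (n : ℕ) : Prop :=
  ∃ C : Hm n →* Multiplicative ℝ,
    (∀ K H ψ Φ, TPath n K H ψ Φ → ∀ u : Hm n, (u : E n ≃ₜ E n) = endp Φ →
      Filter.Tendsto (fun k => cal (H k)) Filter.atTop (𝓝 (C u).toAdd)) ∧
    (∃ D : G n →* Multiplicative ℝ, ∀ (u : Hm n) (v : G n), (v : E n ≃ₜ E n) = u → D v = C u) ∧
    (∀ N : Subgroup (Hm n), N ≠ ⊥ → (N.Normal ∧ HClosed N ↔
      ∃ Λ : AddSubgroup ℝ, IsClosed (Λ : Set ℝ) ∧ ∀ u : Hm n, u ∈ N ↔ (C u).toAdd ∈ Λ)) ∧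
    ¬ IsSimpleGroup (Hm n) ∧ ¬ IsSimpleGroup (G n)

/-- there are topological Hamiltonian loops with every Calabi invariant, and hameomorphisms have
no closed proper nontrivial normal subgroup -/
def Flexible (n : ℕ) : Prop :=
  (∀ c : ℝ, ∃ K H ψ Φ, TPath n K H ψ Φ ∧ endp Φ = 1 ∧
    Filter.Tendsto (fun k => cal (H k)) Filter.atTop (𝓝 c)) ∧
  ∀ N : Subgroup (Hm n), N.Normal → N ≠ ⊥ → HClosed N → N = ⊤

end Pool.Agent.W_68f289_h35
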