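import Pool.Agent.W_68f289_h35.OpE
import Pool.Agent.W_68f289_h35.OsE
import Pool.Agent.W_MP_68f289_gt.Extra
import Pool.Agent.W_MP_68f289_gt.Hameo

/-!
Topological Hamiltonian paths: support and uniform continuity.
-/

open Set Metric Topology Pool.Agent.W_MP_68f289_gt MeasureTheory Filter
open scoped NNReal ContDiff

namespace Pool.Agent.W_68f289_h35

variable {n : ℕ} {K K' : Set (E n)} {H H' : ℕ → ℝ → E n → ℝ} {ψ ψ' : ℕ → ℝ → E n → E n}
  {Φ Φ' : Icc (0 : ℝ) 1 → (E n ≃ₜ E n)}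

/-- the flow maps converge pointwise to the path -/
lemma TqA_lim (h : TPath n K H ψ Φ) (t : Icc (0 : ℝ) 1) (x : E n) {a : E n}
    (ha : ∀ k, ψ k t x = a) : Φ t x = a := by
  apply eq_of_forall_dist_le
  intro ε hε
  obtain ⟨N, hN⟩ := h.conv ε hε
  have h1 := hN N le_rfl t x
  rw [ha, dist_comm] at h1
  exact h1.le

/-- the flow maps are the identity off `K`, and so are the maps of the path -/
lemma TPath.off (h : TPath n K H ψ Φ) (t : Icc (0 : ℝ) 1) {x : E n} (hx : x ∉ K) : Φ t x = x :=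
  TqA_lim h t x fun k => HIso.off (h.iso k) h.comp (h.supp k) t hx

lemma TPath.zero (h : TPath n K H ψ Φ) (x : E n) : Φ ⟨0, by simp⟩ x = x :=
  TqA_lim h _ x fun k => (h.iso k).zero x

/-- uniform continuity of a function which is the identity in the second variable off a compact
set -/
lemma TqA_unif {K : Set (E n)} (hK : IsCompact K) {f : ℝ → E n → E n}
    (hc : Continuous (Function.uncurry f)) (hoff : ∀ t x, x ∉ K → f t x = x) {ε : ℝ}
    (hε : 0 < ε) : ∃ δ > 0, ∀ s t : Icc (0 : ℝ) 1, |(s : ℝ) - t| < δ → ∀ x y : E n,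
      dist x y < δ → dist (f s x) (f t y) < ε := by
  have hcomp : IsCompact (Icc (0 : ℝ) 1 ×ˢ K) := isCompact_Icc.prod hK
  have h1 := hcomp.uniformContinuousAt_of_continuousAt (Function.uncurry f)
    (fun a _ => hc.continuousAt) (Metric.dist_mem_uniformity hε)
  obtain ⟨δ, hδ, h2⟩ := Metric.mem_uniformity_dist.1 h1
  have h3 : ∀ (s t : Icc (0 : ℝ) 1) (x y : E n), x ∈ K → |(s : ℝ) - t| < δ → dist x y < δ →
      dist (f s x) (f t y) < ε := by
    intro s t x y hx hst hxy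
    have h4 : dist ((s : ℝ), x) ((t : ℝ), y) < δ := by
      rw [Prod.dist_eq, max_lt_iff, Real.dist_eq]
      exact ⟨hst, hxy⟩
    have h5 : (((s : ℝ), x) : ℝ × E n) ∈ Icc (0 : ℝ) 1 ×ˢ K := ⟨s.2, hx⟩
    exact h2 h4 h5
  refine ⟨min δ ε, lt_min hδ hε, fun s t hst x y hxy => ?_⟩
  by_cases hxK : x ∈ K
  · exact h3 s t x y hxK (hst.trans_le (min_le_left _ _)) (hxy.trans_le (min_le_left _ _))
  · by_cases hyK : y ∈ K
    · rw [dist_comm]
      rw [dist_comm] at hxy
      rw [abs_sub_comm] at hst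
      exact h3 t s y x hyK (hst.trans_le (min_le_left _ _)) (hxy.trans_le (min_le_left _ _))
    · rw [hoff _ x hxK, hoff _ y hyK]
      exact hxy.trans_le (min_le_right _ _)

/-- `(t, x) ↦ Φ t x` is uniformly continuous: for every `ε > 0` there is `δ > 0` such that
`|s - t| < δ` and `dist x y < δ` imply `dist (Φ s x) (Φ t y) < ε`. Proof: uniform limit of the flows
`ψ k` restricted to `[0, 1]`; each of them is uniformly continuous on `[0,1] × E n`, being jointly
continuous (`HIso.contDiff`) and the identity off the compact set `K` (`HIso.off`). -/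
lemma TPath.unif (h : TPath n K H ψ Φ) {ε : ℝ} (hε : 0 < ε) :
    ∃ δ > 0, ∀ s t : Icc (0 : ℝ) 1, |(s : ℝ) - t| < δ → ∀ x y : E n, dist x y < δ →
      dist (Φ s x) (Φ t y) < ε := by
  obtain ⟨N, hN⟩ := h.conv (ε / 3) (by positivity)
  obtain ⟨δ, hδ, h1⟩ := TqA_unif h.comp (HIso.contDiff (h.iso N)).continuous
    (fun t x hx => HIso.off (h.iso N) h.comp (h.supp N) t hx) (show 0 < ε / 3 by positivity)
  refine ⟨δ, hδ, fun s t hst x y hxy => ?_⟩
  have h2 := hN N le_rfl s x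
  have h3 := hN N le_rfl t y
  have h4 := h1 s t hst x y hxy
  calc dist (Φ s x) (Φ t y) ≤ dist (Φ s x) (ψ N s x) + dist (ψ N s x) (ψ N t y) +
        dist (ψ N t y) (Φ t y) := dist_triangle4 _ _ _ _
    _ < ε / 3 + ε / 3 + ε / 3 := by
        rw [dist_comm (Φ s x)]
        linarith
    _ = ε := by ring

/-- uniform convergence of homeomorphisms, all equal to the identity off `K`, implies uniform
convergence of the inverses: `dist (u⁻¹ x) (φ⁻¹ x) = dist (φ⁻¹ (φ y)) (φ⁻¹ (u y))` for `x = u y`, and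
`φ⁻¹` is uniformly continuous (library: `unif` in `Gn.lean`, used in `GS_inv`). -/
lemma inv_conv {φ : E n ≃ₜ E n} {K : Set (E n)} (hK : IsCompact K) (hφ : ∀ x, x ∉ K → φ x = x)
    {ε : ℝ} (hε : 0 < ε) : ∃ δ > 0, ∀ u : E n ≃ₜ E n, (∀ x, dist (u x) (φ x) < δ) →
      ∀ x, dist (u.symm x) (φ.symm x) < ε := by
  have hφ' : ∀ x, x ∉ K → φ.symm x = x := fun x hx => by
    rw [Homeomorph.symm_apply_eq, hφ x hx]
  obtain ⟨δ, hδ, h1⟩ := unif φ.symm.continuous hK hφ' hε
  refine ⟨δ, hδ, fun u hu x => ?_⟩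
  have h2 := hu (u.symm x)
  rw [Homeomorph.apply_symm_apply] at h2
  rw [dist_comm] at h2
  have h3 := h1 _ _ h2
  rwa [Homeomorph.symm_apply_apply] at h3

end Pool.Agent.W_68f289_h35
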