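import Pool.Agent.W_68f289_h35.TqA

/-!
Constant sequences and small isotopies.
-/

open Set Metric Topology Pool.Agent.W_MP_68f289_gt MeasureTheory Filter
open scoped NNReal ContDiff

namespace Pool.Agent.W_68f289_h35

variable {n : ℕ} {K K' : Set (E n)} {H H' : ℕ → ℝ → E n → ℝ} {ψ ψ' : ℕ → ℝ → E n → E n}
  {Φ Φ' : Icc (0 : ℝ) 1 → (E n ≃ₜ E n)}

/-- constant sequences -/
lemma TPath.of_HIso {G : ℝ → E n → ℝ} {χ : ℝ → E n → E n} (h : HIso n G χ) (hc : IsCompact K)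
    (hKB : K ⊆ Bl n) (hK : ∀ t, ∀ x, x ∉ K → G t x = 0) :
    TPath n K (fun _ => G) (fun _ => χ) (fun t => HIso.homeo h t) := by
  refine ⟨hc, hKB, fun _ => h, fun _ => hK, ?_, ?_⟩
  · intro ε hε
    refine ⟨0, fun j k _ _ => ?_⟩
    unfold Pool.Agent.W_MP_68f289_gt.hofer
    simpa using hε
  · intro ε hε
    refine ⟨0, fun k _ t x => ?_⟩
    show dist (χ t x) (χ t x) < ε
    rw [dist_self]
    exact hε

/-- smaller and smaller isotopies -/
lemma TPath.of_small (hc : IsCompact K) (hKB : K ⊆ Bl n) (h : ∀ k, HIso n (H k) (ψ k))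
    (hK : ∀ k, ∀ t, ∀ x, x ∉ K → H k t x = 0) {ε : ℕ → ℝ} (hε : Tendsto ε atTop (𝓝 0))
    (h1 : ∀ k, hofer (H k) ≤ ε k) (h2 : ∀ k, ∀ t ∈ Icc (0 : ℝ) 1, ∀ x, dist (ψ k t x) x ≤ ε k) :
    TPath n K H ψ (fun _ => 1) := by
  refine ⟨hc, hKB, h, hK, ?_, ?_⟩
  · intro δ hδ
    obtain ⟨N, hN⟩ := (hε.eventually (gt_mem_nhds (half_pos hδ))).exists_forall_of_atTop
    refine ⟨N, fun j k hj hk => ?_⟩
    have h3 := hofer_sub_le (h j).smooth.continuous (h k).smooth.continuous hc (hK j) (hK k)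
    have h4 := h1 j
    have h5 := h1 k
    have h6 := hN j hj
    have h7 := hN k hk
    linarith
  · intro δ hδ
    obtain ⟨N, hN⟩ := (hε.eventually (gt_mem_nhds hδ)).exists_forall_of_atTop
    refine ⟨N, fun k hk t x => ?_⟩
    exact (h2 k t t.2 x).trans_lt (hN k hk)

end Pool.Agent.W_68f289_h35
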