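import Pool.Agent.W_68f289_h35.TqB
import Pool.Agent.W_68f289_t6.Cal

/-!
Concatenation of topological Hamiltonian paths.
-/

open Set Metric Topology Pool.Agent.W_MP_68f289_gt MeasureTheory Filter
open scoped NNReal ContDiff

namespace Pool.Agent.W_68f289_h35

open Pool.Agent.W_68f289_t6 (r1 r2 r1_one r2_one r1_zero r2_zero r1_smooth r2_smooth conc concf
  conc_iso concf_one cal_conc)

variable {n : ℕ} {K K' : Set (E n)} {H H' : ℕ → ℝ → E n → ℝ} {ψ ψ' : ℕ → ℝ → E n → E n}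
  {Φ Φ' : Icc (0 : ℝ) 1 → (E n ≃ₜ E n)}

lemma r1_mem (t : ℝ) : r1 t ∈ Icc (0 : ℝ) 1 :=
  ⟨Real.smoothTransition.nonneg _, Real.smoothTransition.le_one _⟩

lemma r2_mem (t : ℝ) : r2 t ∈ Icc (0 : ℝ) 1 :=
  ⟨Real.smoothTransition.nonneg _, Real.smoothTransition.le_one _⟩

lemma th_monotone : Monotone th := by
  intro x y hxy
  change Real.smoothTransition x ≤ Real.smoothTransition y
  unfold Real.smoothTransition
  have hx := Real.smoothTransition.pos_denom x
  have hy := Real.smoothTransition.pos_denom y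
  have h1 : expNegInvGlue x ≤ expNegInvGlue y := expNegInvGlue.monotone hxy
  have h2 : expNegInvGlue (1 - y) ≤ expNegInvGlue (1 - x) := expNegInvGlue.monotone (by linarith)
  have h3 := expNegInvGlue.nonneg x
  have h4 := expNegInvGlue.nonneg (1 - y)
  have h5 := expNegInvGlue.nonneg y
  rw [div_le_div_iff₀ hx hy]
  nlinarith [mul_le_mul h1 h2 h4 h5]

lemma r1_deriv_nonneg (t : ℝ) : 0 ≤ deriv r1 t := by
  apply Monotone.deriv_nonneg
  intro x y hxy
  exact th_monotone (by linarith)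

lemma r2_deriv_nonneg (t : ℝ) : 0 ≤ deriv r2 t := by
  apply Monotone.deriv_nonneg
  intro x y hxy
  exact th_monotone (by linarith)

lemma hofer_conc_le {H H' : ℝ → E n → ℝ} (hH : Continuous (Function.uncurry H))
    (hH' : Continuous (Function.uncurry H')) {K : Set (E n)} (hc : IsCompact K)
    (hK : ∀ t, ∀ x, x ∉ K → H t x = 0) (hK' : ∀ t, ∀ x, x ∉ K → H' t x = 0) :
    hofer (conc H H') ≤ hofer H + hofer H' := by
  have hr1 : Continuous (deriv r1) := (contDiff_infty_iff_deriv.1 r1_smooth).2.continuous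
  have hr2 : Continuous (deriv r2) := (contDiff_infty_iff_deriv.1 r2_smooth).2.continuous
  have h1 : Continuous (Function.uncurry fun (t : ℝ) (x : E n) => deriv r1 t * H (r1 t) x) :=
    (hr1.comp continuous_fst).mul
      (hH.comp ((r1_smooth.continuous.comp continuous_fst).prodMk continuous_snd))
  have h2 : Continuous (Function.uncurry fun (t : ℝ) (x : E n) => deriv r2 t * H' (r2 t) x) :=
    (hr2.comp continuous_fst).mul
      (hH'.comp ((r2_smooth.continuous.comp continuous_fst).prodMk continuous_snd))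
  refine (hofer_add_le h1 h2 hc (fun t x hx => by rw [hK _ x hx, mul_zero])
    (fun t x hx => by rw [hK' _ x hx, mul_zero])).trans (add_le_add ?_ ?_)
  · exact hofer_reparam_le hH hc hK r1_smooth r1_deriv_nonneg (r1_mem 0).1 (r1_mem 1).2
  · exact hofer_reparam_le hH' hc hK' r2_smooth r2_deriv_nonneg (r2_mem 0).1 (r2_mem 1).2

/-- concatenation. Take `r1 t = th (3 t)`, `r2 t = th (3 t - 2)` as in `isHam_mul` (first the path
`'`, then the other one), Hamiltonian `r1' H'(r1) + r2' H(r2)`, flow `ψ (r2 t) (ψ' (r1 t) x)`, path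
`Φ (r2 t) * Φ' (r1 t)`. Cauchy: `hofer_add_le` and `hofer_reparam_le` applied to the differences
`H i - H j`, `H' i - H' j`. Convergence: `TPath.unif`. Calabi: `cal_add`, `cal_reparam`. -/
theorem TPath.mul (h : TPath n K H ψ Φ) (h' : TPath n K' H' ψ' Φ') :
    ∃ (K'' : Set (E n)) (H'' : ℕ → ℝ → E n → ℝ) (ψ'' : ℕ → ℝ → E n → E n)
      (Φ'' : Icc (0 : ℝ) 1 → (E n ≃ₜ E n)), TPath n K'' H'' ψ'' Φ'' ∧
      endp Φ'' = endp Φ * endp Φ' ∧ (∀ k x, ψ'' k 1 x = ψ k 1 (ψ' k 1 x)) ∧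
      ∀ k, cal (H'' k) = cal (H k) + cal (H' k) := by
  refine ⟨K ∪ K', fun k => conc (H' k) (H k), fun k => concf (ψ' k) (ψ k),
    fun t => Φ ⟨r2 t, r2_mem t⟩ * Φ' ⟨r1 t, r1_mem t⟩,
    ⟨h.comp.union h'.comp, union_subset h.sub h'.sub, fun k => conc_iso (h'.iso k) (h.iso k),
      fun k t x hx => ?_, ?_, ?_⟩, ?_, fun k x => concf_one x, fun k => ?_⟩
  · rw [mem_union, not_or] at hx
    unfold conc
    rw [h.supp _ _ _ hx.1, h'.supp _ _ _ hx.2]; ring
  · intro ε hε
    obtain ⟨N, hN⟩ := h.cauchy (ε / 2) (half_pos hε)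
    obtain ⟨N', hN'⟩ := h'.cauchy (ε / 2) (half_pos hε)
    refine ⟨max N N', fun j k hj hk => ?_⟩
    have e : (fun (t : ℝ) (x : E n) => conc (H' j) (H j) t x - conc (H' k) (H k) t x) =
        conc (fun t x => H' j t x - H' k t x) (fun t x => H j t x - H k t x) := by
      funext t x
      unfold conc
      ring
    rw [e]
    have hc : ∀ k, Continuous (Function.uncurry (H k)) := fun k => (h.iso k).smooth.continuous
    have hc' : ∀ k, Continuous (Function.uncurry (H' k)) := fun k => (h'.iso k).smooth.continuous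
    have h1 := hofer_conc_le (H := fun t x => H' j t x - H' k t x)
      (H' := fun t x => H j t x - H k t x) (K := K ∪ K') ((hc' j).sub (hc' k))
      ((hc j).sub (hc k)) (h.comp.union h'.comp)
      (fun t x hx => by
        rw [mem_union, not_or] at hx
        rw [h'.supp _ _ _ hx.2, h'.supp _ _ _ hx.2, sub_self])
      (fun t x hx => by
        rw [mem_union, not_or] at hx
        rw [h.supp _ _ _ hx.1, h.supp _ _ _ hx.1, sub_self])
    have h2 := hN j k ((le_max_left _ _).trans hj) ((le_max_left _ _).trans hk)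
    have h3 := hN' j k ((le_max_right _ _).trans hj) ((le_max_right _ _).trans hk)
    linarith
  · intro ε hε
    obtain ⟨δ, hδ, hu⟩ := h.unif (half_pos hε)
    obtain ⟨N, hN⟩ := h.conv (ε / 2) (half_pos hε)
    obtain ⟨N', hN'⟩ := h'.conv δ hδ
    refine ⟨max N N', fun k hk t x => ?_⟩
    have h1 := hN k ((le_max_left _ _).trans hk) ⟨r2 t, r2_mem t⟩ (ψ' k (r1 t) x)
    have h2 := hN' k ((le_max_right _ _).trans hk) ⟨r1 t, r1_mem t⟩ x
    have h3 := hu ⟨r2 t, r2_mem t⟩ ⟨r2 t, r2_mem t⟩ (by simpa using hδ) _ _ h2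
    calc dist (ψ k (r2 t) (ψ' k (r1 t) x)) (Φ ⟨r2 t, r2_mem t⟩ (Φ' ⟨r1 t, r1_mem t⟩ x)) ≤ _ :=
          dist_triangle _ _ _
      _ < ε / 2 + ε / 2 := add_lt_add h1 h3
      _ = ε := add_halves ε
  · change Φ ⟨r2 1, r2_mem 1⟩ * Φ' ⟨r1 1, r1_mem 1⟩ = Φ ⟨1, _⟩ * Φ' ⟨1, _⟩
    have e1 : (⟨r2 1, r2_mem 1⟩ : Icc (0 : ℝ) 1) = ⟨1, by simp⟩ := Subtype.ext r2_one
    have e2 : (⟨r1 1, r1_mem 1⟩ : Icc (0 : ℝ) 1) = ⟨1, by simp⟩ := Subtype.ext r1_one
    rw [e1, e2]
  · have := cal_conc (h'.iso k) (h.iso k)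
    rw [add_comm]
    exact this

end Pool.Agent.W_68f289_h35
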