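import Pool.Agent.W_68f289_h35.TqC

/-!
Reversal of topological Hamiltonian paths.
-/

open Set Metric Topology Pool.Agent.W_MP_68f289_gt MeasureTheory Filter
open scoped NNReal ContDiff

namespace Pool.Agent.W_68f289_h35

open Pool.Agent.W_68f289_t6 (rev revf rev_iso revf_one cal_rev exists_homeo)

variable {n : ℕ} {K K' : Set (E n)} {H H' : ℕ → ℝ → E n → ℝ} {ψ ψ' : ℕ → ℝ → E n → E n}
  {Φ Φ' : Icc (0 : ℝ) 1 → (E n ≃ₜ E n)}

/-- reversal: Hamiltonian `-H (1 - t)`, flow `ψ (1 - t) ((ψ 1)⁻¹ x)` (`HIso.reparam` with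
`s t = 1 - t`), path `Φ (1 - t) * (Φ 1)⁻¹`; convergence from `TPath.unif` and `inv_conv`. -/
theorem TPath.inv (h : TPath n K H ψ Φ) :
    ∃ (H'' : ℕ → ℝ → E n → ℝ) (ψ'' : ℕ → ℝ → E n → E n)
      (Φ'' : Icc (0 : ℝ) 1 → (E n ≃ₜ E n)), TPath n K H'' ψ'' Φ'' ∧
      endp Φ'' = (endp Φ)⁻¹ ∧ (∀ k x, ψ'' k 1 (ψ k 1 x) = x) ∧
      ∀ k, cal (H'' k) = -cal (H k) := by
  choose u hu hu1 using fun k => exists_homeo (h.iso k)
  have hm : ∀ t : Icc (0 : ℝ) 1, 1 - (t : ℝ) ∈ Icc (0 : ℝ) 1 := fun t =>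
    ⟨by linarith [t.2.2], by linarith [t.2.1]⟩
  have hoff : ∀ x, x ∉ K → endp Φ x = x := fun x hx => h.off _ hx
  refine ⟨fun k => rev (H k), fun k => revf (u k) (ψ k),
    fun t => Φ ⟨1 - t, hm t⟩ * (endp Φ)⁻¹,
    ⟨h.comp, h.sub, fun k => rev_iso (h.iso k) (hu1 k), fun k t x hx => ?_, ?_, ?_⟩, ?_,
      fun k x => ?_, fun k => cal_rev _⟩
  · unfold rev
    rw [h.supp _ _ _ hx, mul_zero]
  · intro ε hε
    obtain ⟨N, hN⟩ := h.cauchy ε hε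
    refine ⟨N, fun j k hj hk => ?_⟩
    have e : (fun (t : ℝ) (x : E n) => rev (H j) t x - rev (H k) t x) =
        fun t x => (fun (t : ℝ) (x : E n) => H k t x - H j t x) (1 - t) x := by
      funext t x
      unfold rev
      ring
    rw [e, hofer_reverse (fun (t : ℝ) (x : E n) => H k t x - H j t x)]
    exact hN k j hk hj
  · intro ε hε
    obtain ⟨δ, hδ, hun⟩ := h.unif (half_pos hε)
    obtain ⟨N, hN⟩ := h.conv (ε / 2) (half_pos hε)
    obtain ⟨η, hη, hinv⟩ := inv_conv h.comp hoff hδ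
    obtain ⟨N', hN'⟩ := h.conv η hη
    refine ⟨max N N', fun k hk t x => ?_⟩
    have h1 := hN k ((le_max_left _ _).trans hk) ⟨1 - t, hm t⟩ ((u k).symm x)
    have h2 := hinv (u k) (fun y => by
      rw [hu1]
      exact hN' k ((le_max_right _ _).trans hk) ⟨1, by simp⟩ y) x
    have h3 := hun ⟨1 - t, hm t⟩ ⟨1 - t, hm t⟩ (by simpa using hδ) _ _ h2
    calc dist (ψ k (1 - t) ((u k).symm x)) (Φ ⟨1 - t, hm t⟩ ((endp Φ).symm x)) ≤ _ :=
          dist_triangle _ _ _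
      _ < ε / 2 + ε / 2 := add_lt_add h1 h3
      _ = ε := add_halves ε
  · change Φ ⟨1 - 1, _⟩ * (endp Φ)⁻¹ = _
    have e1 : (⟨1 - (1 : ℝ), hm ⟨1, by simp⟩⟩ : Icc (0 : ℝ) 1) = ⟨0, by simp⟩ :=
      Subtype.ext (sub_self _)
    have e2 : Φ ⟨0, by simp⟩ = 1 := by
      ext x
      · rw [h.zero x]; rfl
      · rw [h.zero x]; rfl
    rw [e1, e2, one_mul]
  · change revf (u k) (ψ k) 1 (ψ k 1 x) = x
    rw [revf_one (h.iso k), ← hu1 k]
    exact (u k).symm_apply_apply x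

end Pool.Agent.W_68f289_h35
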