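import Pool.Agent.W_68f289_h35.TqD

/-!
Conjugation of topological Hamiltonian paths by Hamiltonian homeomorphisms.
-/

open Set Metric Topology Pool.Agent.W_MP_68f289_gt MeasureTheory Filter
open scoped NNReal ContDiff

namespace Pool.Agent.W_68f289_h35

variable {n : ℕ} {K K' : Set (E n)} {H H' : ℕ → ℝ → E n → ℝ} {ψ ψ' : ℕ → ℝ → E n → E n}
  {Φ Φ' : Icc (0 : ℝ) 1 → (E n ≃ₜ E n)}

/-- uniform continuity of a Hamiltonian in the space variable -/
lemma TqE_unif {G : ℝ → E n → ℝ} (hG : Continuous (Function.uncurry G)) (hK : IsCompact K)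
    (hoff : ∀ t, ∀ x, x ∉ K → G t x = 0) {ε : ℝ} (hε : 0 < ε) :
    ∃ δ > 0, ∀ t ∈ Icc (0 : ℝ) 1, ∀ x y : E n, dist x y < δ → |G t x - G t y| < ε := by
  have hKK : IsCompact (Icc (0 : ℝ) 1 ×ˢ K) := isCompact_Icc.prod hK
  have h1 := hKK.uniformContinuousAt_of_continuousAt (Function.uncurry G)
    (fun a _ => hG.continuousAt) (Metric.dist_mem_uniformity hε)
  obtain ⟨δ, hδ, h2⟩ := Metric.mem_uniformity_dist.1 h1
  have key : ∀ t ∈ Icc (0 : ℝ) 1, ∀ x y : E n, dist x y < δ → x ∈ K → |G t x - G t y| < ε := by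
    intro t ht x y hxy hx
    have h3 : dist ((t, x) : ℝ × E n) (t, y) < δ := by
      rw [Prod.dist_eq, dist_self]
      exact max_lt hδ hxy
    have h4 := h2 h3 ⟨ht, hx⟩
    rw [← Real.dist_eq]
    exact h4
  refine ⟨δ, hδ, fun t ht x y hxy => ?_⟩
  by_cases hx : x ∈ K
  · exact key t ht x y hxy hx
  · by_cases hy : y ∈ K
    · rw [abs_sub_comm]
      exact key t ht y x (by rwa [dist_comm]) hy
    · rw [hoff t x hx, hoff t y hy, sub_zero, abs_zero]
      exact hε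

/-- Hamiltonian diffeomorphisms which converge to a Hamiltonian homeomorphism, with their inverses -/
lemma TqE_seq {g : E n ≃ₜ E n} (hg : g ∈ HamBar n) : ∃ K₀ : Set (E n), IsCompact K₀ ∧ K₀ ⊆ Bl n ∧
    (∀ x, x ∉ K₀ → g x = x) ∧ ∃ u : ℕ → (E n ≃ₜ E n), (∀ k, IsHam n (u k)) ∧
      (∀ k, ∀ x, x ∉ K₀ → u k x = x) ∧ (∀ k : ℕ, ∀ x, dist (u k x) (g x) < 1 / ((k : ℝ) + 1)) ∧
      ∀ k : ℕ, ∀ x, dist ((u k).symm x) (g.symm x) < 1 / ((k : ℝ) + 1) := by
  obtain ⟨K₀, hK₀, hK₀B, hgK⟩ := exists_GS hg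
  refine ⟨K₀, hK₀, hK₀B, hgK.1, ?_⟩
  have hex : ∀ k : ℕ, ∃ u : E n ≃ₜ E n, IsHam n u ∧ (∀ x, x ∉ K₀ → u x = x) ∧
      (∀ x, dist (u x) (g x) < 1 / ((k : ℝ) + 1)) ∧
      ∀ x, dist (u.symm x) (g.symm x) < 1 / ((k : ℝ) + 1) := by
    intro k
    have hk : (0 : ℝ) < 1 / ((k : ℝ) + 1) := by positivity
    obtain ⟨δ, hδ, h1⟩ := inv_conv hK₀ hgK.1 hk
    obtain ⟨u, hu, huK, hud⟩ := hgK.2 (min δ (1 / ((k : ℝ) + 1))) (lt_min hδ hk)
    exact ⟨u, hu, huK, fun x => (hud x).trans_le (min_le_right _ _),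
      h1 u fun x => (hud x).trans_le (min_le_left _ _)⟩
  choose u h1 h2 h3 h4 using hex
  exact ⟨u, h1, h2, h3, h4⟩

/-- conjugation by a Hamiltonian homeomorphism `g`, with the approximating Hamiltonian
diffeomorphisms `g' k` -/
theorem TPath.conj_strong (h : TPath n K H ψ Φ) {g : E n ≃ₜ E n} (hg : g ∈ HamBar n) :
    ∃ (g' : ℕ → (E n ≃ₜ E n)) (K'' : Set (E n)) (H'' : ℕ → ℝ → E n → ℝ)
      (ψ'' : ℕ → ℝ → E n → E n) (Φ'' : Icc (0 : ℝ) 1 → (E n ≃ₜ E n)), (∀ k, IsHam n (g' k)) ∧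
      TPath n K'' H'' ψ'' Φ'' ∧ endp Φ'' = g * endp Φ * g⁻¹ ∧
      (∀ k x, ψ'' k 1 x = g' k (ψ k 1 ((g' k).symm x))) ∧ ∀ k, cal (H'' k) = cal (H k) := by
  obtain ⟨K₀, hK₀, hK₀B, hgoff, u, hu, huK, hud, hui⟩ := TqE_seq hg
  have hsymm : ∀ k, ∀ x, x ∉ K₀ → (u k).symm x = x := by
    intro k x hx
    rw [Homeomorph.symm_apply_eq, huK k x hx]
  have hKc : IsCompact (K ∪ K₀) := h.comp.union hK₀
  have hHc : ∀ k, Continuous (Function.uncurry (H k)) := fun k => (h.iso k).smooth.continuous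
  have hHc' : ∀ j k, Continuous (Function.uncurry fun t x => H j t ((u k).symm x)) := by
    intro j k
    exact (hHc j).comp (continuous_fst.prodMk ((u k).symm.continuous.comp continuous_snd))
  have hHoff : ∀ j k, ∀ t, ∀ x, x ∉ K ∪ K₀ → H j t ((u k).symm x) = 0 := by
    intro j k t x hx
    rw [mem_union, not_or] at hx
    rw [hsymm k x hx.2, h.supp j t x hx.1]
  refine ⟨u, K ∪ K₀, fun k t x => H k t ((u k).symm x), fun k t x => u k (ψ k t ((u k).symm x)),
    fun t => g * Φ t * g⁻¹, hu, ⟨hKc, union_subset h.sub hK₀B, ?_, ?_, ?_, ?_⟩, rfl,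
    fun _ _ => rfl, ?_⟩
  · intro k
    obtain ⟨h1, h2, h3, h4, -⟩ := isHam_props (hu k)
    exact HIso.conj (h.iso k) h1 h2 h3 h4
  · intro k t x hx
    exact hHoff k k t x hx
  · intro ε hε
    obtain ⟨N₁, hN₁⟩ := h.cauchy (ε / 4) (by positivity)
    obtain ⟨δ, hδ, hunif⟩ := TqE_unif (hHc N₁) h.comp (h.supp N₁) (ε := ε / 16) (by positivity)
    obtain ⟨N₂, hN₂⟩ := exists_nat_gt (2 / δ)
    refine ⟨max N₁ N₂, fun k l hk hl => ?_⟩
    have hk1 : N₁ ≤ k := (le_max_left _ _).trans hk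
    have hl1 : N₁ ≤ l := (le_max_left _ _).trans hl
    have hsmall : ∀ m : ℕ, max N₁ N₂ ≤ m → 1 / ((m : ℝ) + 1) < δ / 2 := by
      intro m hm
      have hm2 : (N₂ : ℝ) ≤ m := by exact_mod_cast (le_max_right _ _).trans hm
      have h1 : 2 / δ < (m : ℝ) + 1 := by linarith
      rw [div_lt_iff₀ hδ] at h1
      rw [div_lt_iff₀ (by positivity)]
      linarith
    have hcl : ∀ x, dist ((u k).symm x) ((u l).symm x) < δ := by
      intro x
      have h1 := (hui k x).trans (hsmall k hk)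
      have h2 := (hui l x).trans (hsmall l hl)
      have h3 := dist_triangle_right ((u k).symm x) ((u l).symm x) (g.symm x)
      linarith
    -- the three parts
    set A : ℝ → E n → ℝ := fun t x => H k t ((u k).symm x) - H N₁ t ((u k).symm x) with hA
    set B : ℝ → E n → ℝ := fun t x => H N₁ t ((u k).symm x) - H N₁ t ((u l).symm x) with hB
    set D : ℝ → E n → ℝ := fun t x => H l t ((u l).symm x) - H N₁ t ((u l).symm x) with hD
    have hAc : Continuous (Function.uncurry A) := (hHc' k k).sub (hHc' N₁ k)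
    have hBc : Continuous (Function.uncurry B) := (hHc' N₁ k).sub (hHc' N₁ l)
    have hDc : Continuous (Function.uncurry D) := (hHc' l l).sub (hHc' N₁ l)
    have hAo : ∀ t, ∀ x, x ∉ K ∪ K₀ → A t x = 0 := by
      intro t x hx
      change H k t ((u k).symm x) - H N₁ t ((u k).symm x) = 0
      rw [hHoff k k t x hx, hHoff N₁ k t x hx, sub_zero]
    have hBo : ∀ t, ∀ x, x ∉ K ∪ K₀ → B t x = 0 := by
      intro t x hx
      change H N₁ t ((u k).symm x) - H N₁ t ((u l).symm x) = 0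
      rw [hHoff N₁ k t x hx, hHoff N₁ l t x hx, sub_zero]
    have hDo : ∀ t, ∀ x, x ∉ K ∪ K₀ → D t x = 0 := by
      intro t x hx
      change H l t ((u l).symm x) - H N₁ t ((u l).symm x) = 0
      rw [hHoff l l t x hx, hHoff N₁ l t x hx, sub_zero]
    have hABc : Continuous (Function.uncurry fun t x => A t x + B t x) := hAc.add hBc
    have hABo : ∀ t, ∀ x, x ∉ K ∪ K₀ → A t x + B t x = 0 := by
      intro t x hx
      rw [hAo t x hx, hBo t x hx, add_zero]
    have hAle : W_MP_68f289_gt.hofer A < ε / 4 := by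
      have h1 := hofer_comp (fun t x => H k t x - H N₁ t x) (g := fun _ => (u k).symm)
        (fun _ => (u k).symm.surjective)
      have h2 := hN₁ k N₁ hk1 le_rfl
      rw [← h1] at h2
      exact h2
    have hDle : W_MP_68f289_gt.hofer D < ε / 4 := by
      have h1 := hofer_comp (fun t x => H l t x - H N₁ t x) (g := fun _ => (u l).symm)
        (fun _ => (u l).symm.surjective)
      have h2 := hN₁ l N₁ hl1 le_rfl
      rw [← h1] at h2
      exact h2
    have hBle : W_MP_68f289_gt.hofer B ≤ 2 * (ε / 16) :=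
      hofer_le_of_abs_le hBc hKc hBo fun t ht x => (hunif t ht _ _ (hcl x)).le
    have hsum : (fun t x => H k t ((u k).symm x) - H l t ((u l).symm x)) =
        fun t x => (A t x + B t x) - D t x := by
      funext t x
      simp only [hA, hB, hD]
      ring
    have h5 := hofer_sub_le hABc hDc hKc hABo hDo
    have h6 := hofer_add_le hAc hBc hKc hAo hBo
    change W_MP_68f289_gt.hofer (fun t x => H k t ((u k).symm x) - H l t ((u l).symm x)) < ε
    rw [hsum]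
    linarith
  · intro ε hε
    obtain ⟨δ₁, hδ₁, hgu⟩ := W_MP_68f289_gt.unif g.continuous hK₀ hgoff (half_pos hε)
    obtain ⟨δ₂, hδ₂, hΦu⟩ := h.unif (half_pos hδ₁)
    obtain ⟨N₁, hN₁⟩ := h.conv (δ₁ / 2) (half_pos hδ₁)
    obtain ⟨N₂, hN₂⟩ := exists_nat_gt (2 / ε)
    obtain ⟨N₃, hN₃⟩ := exists_nat_gt (1 / δ₂)
    refine ⟨max N₁ (max N₂ N₃), fun k hk t x => ?_⟩
    have hk1 : N₁ ≤ k := (le_max_left _ _).trans hk
    have hk2 : (N₂ : ℝ) ≤ k := by
      exact_mod_cast (le_max_left _ _).trans ((le_max_right _ _).trans hk)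
    have hk3 : (N₃ : ℝ) ≤ k := by
      exact_mod_cast (le_max_right _ _).trans ((le_max_right _ _).trans hk)
    have hs1 : 1 / ((k : ℝ) + 1) < ε / 2 := by
      have h1 : 2 / ε < (k : ℝ) + 1 := by linarith
      rw [div_lt_iff₀ hε] at h1
      rw [div_lt_iff₀ (by positivity)]
      linarith
    have hs2 : 1 / ((k : ℝ) + 1) < δ₂ := by
      have h1 : 1 / δ₂ < (k : ℝ) + 1 := by linarith
      rw [div_lt_iff₀ hδ₂] at h1
      rw [div_lt_iff₀ (by positivity)]
      linarith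
    have hab : dist (ψ k t ((u k).symm x)) (Φ t (g.symm x)) < δ₁ := by
      have h1 := hN₁ k hk1 t ((u k).symm x)
      have h2 := hΦu t t (by rw [sub_self, abs_zero]; exact hδ₂) ((u k).symm x) (g.symm x)
        ((hui k x).trans hs2)
      have h3 := dist_triangle (ψ k t ((u k).symm x)) (Φ t ((u k).symm x)) (Φ t (g.symm x))
      linarith
    have h1 := hgu _ _ hab
    have h2 := (hud k (ψ k t ((u k).symm x))).trans hs1
    have h3 := dist_triangle (u k (ψ k t ((u k).symm x))) (g (ψ k t ((u k).symm x)))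
      (g (Φ t (g.symm x)))
    change dist (u k (ψ k t ((u k).symm x))) (g (Φ t (g.symm x))) < ε
    linarith
  · intro k
    have h1 : MeasurePreserving ((u k)⁻¹ : E n ≃ₜ E n) volume volume :=
      (isHam_props (isHam_inv (hu k))).2.2.2.2
    exact cal_comp (H k) (g := fun _ => (u k)⁻¹) fun _ => h1

/-- conjugation by a Hamiltonian homeomorphism `g`: by `exists_GS` there are a compact subset `K₀` of
the ball and Hamiltonian diffeos `g k` supported in `K₀` with `g k → g` uniformly. Take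
`H k t ((g k)⁻¹ x)`, flows `g k ∘ ψ k t ∘ (g k)⁻¹` (`HIso.conj`, `isHam_props`), path `g Φ g⁻¹`,
support in `K ∪ K₀`. Cauchy: for fixed `j`, `hofer (H k ∘ (g k)⁻¹ - H l ∘ (g l)⁻¹)` is at most
`hofer (H k - H j) + hofer (H l - H j) + 2 sup |H j ∘ (g k)⁻¹ - H j ∘ (g l)⁻¹|` and `H j` is uniformly
continuous on `[0, 1] × E n`, `(g k)⁻¹` converges uniformly (`inv_conv`). Calabi: `cal_comp`. -/
theorem TPath.conj (h : TPath n K H ψ Φ) {g : E n ≃ₜ E n} (hg : g ∈ HamBar n) :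
    ∃ (K'' : Set (E n)) (H'' : ℕ → ℝ → E n → ℝ) (ψ'' : ℕ → ℝ → E n → E n)
      (Φ'' : Icc (0 : ℝ) 1 → (E n ≃ₜ E n)), TPath n K'' H'' ψ'' Φ'' ∧
      endp Φ'' = g * endp Φ * g⁻¹ ∧ ∀ k, cal (H'' k) = cal (H k) := by
  obtain ⟨_, K'', H'', ψ'', Φ'', -, h1, h2, -, h3⟩ := h.conj_strong hg
  exact ⟨K'', H'', ψ'', Φ'', h1, h2, h3⟩

end Pool.Agent.W_68f289_h35
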