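import Pool.Agent.W_68f289_h35.TqE

/-!
Homothety of topological Hamiltonian paths.
-/

open Set Metric Topology Pool.Agent.W_MP_68f289_gt MeasureTheory Filter
open scoped NNReal ContDiff

namespace Pool.Agent.W_68f289_h35

variable {n : ℕ} {K K' : Set (E n)} {H H' : ℕ → ℝ → E n → ℝ} {ψ ψ' : ℕ → ℝ → E n → E n}
  {Φ Φ' : Icc (0 : ℝ) 1 → (E n ≃ₜ E n)}

/-- homothety -/
theorem TPath.homoth (h : TPath n K H ψ Φ) {r : ℝ} (h0 : 0 < r) (h1 : r ≤ 1) :
    ∃ (K'' : Set (E n)) (H'' : ℕ → ℝ → E n → ℝ) (ψ'' : ℕ → ℝ → E n → E n)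
      (Φ'' : Icc (0 : ℝ) 1 → (E n ≃ₜ E n)), TPath n K'' H'' ψ'' Φ'' ∧
      endp Φ'' = aff 0 r h0.ne' * endp Φ * (aff 0 r h0.ne')⁻¹ ∧
      ∀ k, cal (H'' k) = r ^ (2 * n + 2) * cal (H k) := by
  have hr2 : r ^ 2 ≤ 1 := pow_le_one₀ h0.le h1
  refine ⟨(fun x : E n => r • x) '' K, fun k t x => r ^ 2 * H k t (r⁻¹ • x),
    fun k t x => r • ψ k t (r⁻¹ • x),
    fun t => aff 0 r h0.ne' * Φ t * (aff 0 r h0.ne')⁻¹, ⟨?_, ?_, ?_, ?_, ?_, ?_⟩, rfl,
    fun k => cal_homoth (H k) h0⟩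
  · exact h.comp.image (continuous_const_smul r)
  · rintro _ ⟨x, hx, rfl⟩
    have hxB : qf x < 1 := h.sub hx
    have e : qf (r • x) = r ^ 2 * qf x := by
      unfold qf
      rw [Finset.mul_sum]
      refine Finset.sum_congr rfl fun i _ => ?_
      simp only [Prod.smul_fst, Prod.smul_snd, Pi.smul_apply, smul_eq_mul]
      ring
    have hq : 0 ≤ qf x := Finset.sum_nonneg fun i _ => add_nonneg (sq_nonneg _) (sq_nonneg _)
    change qf (r • x) < 1
    rw [e]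
    exact (mul_le_of_le_one_left hq hr2).trans_lt hxB
  · exact fun k => HIso.homoth (h.iso k) h0 h1
  · intro k t x hx
    have hx' : r⁻¹ • x ∉ K := fun hK => hx ⟨r⁻¹ • x, hK, smul_inv_smul₀ h0.ne' x⟩
    change r ^ 2 * H k t (r⁻¹ • x) = 0
    rw [h.supp k t _ hx', mul_zero]
  · intro ε hε
    obtain ⟨N, hN⟩ := h.cauchy ε hε
    refine ⟨N, fun j k hj hk => ?_⟩
    have hb : ∀ t, Bd (fun x => H j t x - H k t x) := fun t =>
      (bd_of_supp (h.iso j).smooth.continuous h.comp (h.supp j) t).sub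
        (bd_of_supp (h.iso k).smooth.continuous h.comp (h.supp k) t)
    have e := hofer_homoth (H := fun t x => H j t x - H k t x) hb h0
    have e2 : (fun (t : ℝ) (x : E n) => r ^ 2 * H j t (r⁻¹ • x) - r ^ 2 * H k t (r⁻¹ • x)) =
        fun t x => r ^ 2 * (H j t (r⁻¹ • x) - H k t (r⁻¹ • x)) := by
      funext t x
      ring
    change hofer (fun (t : ℝ) (x : E n) => r ^ 2 * H j t (r⁻¹ • x) - r ^ 2 * H k t (r⁻¹ • x)) < ε
    rw [e2]
    refine (le_of_eq e).trans_lt ?_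
    exact (mul_le_of_le_one_left (hofer_nonneg hb) hr2).trans_lt (hN j k hj hk)
  · intro ε hε
    obtain ⟨N, hN⟩ := h.conv ε hε
    refine ⟨N, fun k hk t x => ?_⟩
    have e1 : (aff 0 r h0.ne' * Φ t * (aff 0 r h0.ne')⁻¹ : E n ≃ₜ E n) x =
        r • Φ t (r⁻¹ • x) := by
      change (0 : E n) + r • Φ t ((aff 0 r h0.ne')⁻¹ x) = _
      rw [zero_add]
      congr 2
      change (aff 0 r h0.ne').symm x = _
      rw [aff_symm_apply, sub_zero]
    rw [e1, dist_smul₀, Real.norm_of_nonneg h0.le]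
    exact (mul_le_of_le_one_left dist_nonneg h1).trans_lt (hN k hk t (r⁻¹ • x))

end Pool.Agent.W_68f289_h35
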