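import Pool.Agent.W_68f289_h35.TqF

/-!
Hameomorphisms are end points; convergence of the Calabi invariants.
-/

open Set Metric Topology Pool.Agent.W_MP_68f289_gt MeasureTheory Filter
open scoped NNReal ContDiff

namespace Pool.Agent.W_68f289_h35

variable {n : ℕ} {K K' : Set (E n)} {H H' : ℕ → ℝ → E n → ℝ} {ψ ψ' : ℕ → ℝ → E n → E n}
  {Φ Φ' : Icc (0 : ℝ) 1 → (E n ≃ₜ E n)}

/-- every hameomorphism is the end point of a topological Hamiltonian path: `hameos n` consists of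
end points and is closed under products and inverses by the above (`Subgroup.closure_induction`) -/
theorem exists_TPath (u : Hm n) : ∃ K H ψ Φ, TPath n K H ψ Φ ∧ endp Φ = (u : E n ≃ₜ E n) := by
  obtain ⟨u, hu⟩ := u
  change ∃ K H ψ Φ, TPath n K H ψ Φ ∧ endp Φ = u
  change u ∈ Subgroup.closure (hameos n) at hu
  induction hu using Subgroup.closure_induction with
  | mem φ hφ =>
    obtain ⟨K, hc, hB, H, ψ, hi, hs, hca, Φ, hU, he⟩ := hφ
    exact ⟨K, H, ψ, Φ, ⟨hc, hB, hi, hs, hca, hU⟩, he⟩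
  | one =>
    have h : HIso n (fun _ _ => (0 : ℝ)) (fun _ x => x) := by
      refine ⟨contDiff_const, ⟨∅, isCompact_empty, empty_subset _, fun _ _ _ => rfl⟩,
        fun _ => rfl, fun t x => ?_⟩
      rw [XH_zero]
      exact hasDerivAt_const _ _
    refine ⟨∅, _, _, _, TPath.of_HIso h isCompact_empty (empty_subset _) (fun _ _ _ => rfl), ?_⟩
    ext x : 1
    rfl
  | mul φ φ' _ _ h h' =>
    obtain ⟨K, H, ψ, Φ, h, he⟩ := h
    obtain ⟨K', H', ψ', Φ', h', he'⟩ := h'
    obtain ⟨K'', H'', ψ'', Φ'', h'', he'', -, -⟩ := TPath.mul h h'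
    exact ⟨K'', H'', ψ'', Φ'', h'', by rw [he'', he, he']⟩
  | inv φ _ h =>
    obtain ⟨K, H, ψ, Φ, h, he⟩ := h
    obtain ⟨H'', ψ'', Φ'', h'', he'', -, -⟩ := TPath.inv h
    exact ⟨K, H'', ψ'', Φ'', h'', by rw [he'', he]⟩

lemma TPath.endp_mem (h : TPath n K H ψ Φ) : endp Φ ∈ Hameo n :=
  Subgroup.subset_closure ⟨K, h.comp, h.sub, H, ψ, h.iso, h.supp, h.cauchy, Φ, h.conv, rfl⟩

/-- the Calabi invariants converge: Cauchy sequence of real numbers by `abs_cal_le`, `cal_sub` -/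
lemma TPath.cal_tendsto (hn : 1 ≤ n) (h : TPath n K H ψ Φ) :
    ∃ c : ℝ, Tendsto (fun k => cal (H k)) atTop (𝓝 c) := by
  have hcont : ∀ k, Continuous (Function.uncurry (H k)) := fun k => (h.iso k).smooth.continuous
  refine cauchySeq_tendsto_of_complete (Metric.cauchySeq_iff.2 fun ε hε => ?_)
  obtain ⟨V, hV⟩ : ∃ V : ℝ, V = (volume (Bl n)).toReal := ⟨_, rfl⟩
  have hV0 : 0 ≤ V := by
    rw [hV]
    exact ENNReal.toReal_nonneg
  have hV1 : 0 < V + 1 := by linarith
  obtain ⟨N, hN⟩ := h.cauchy (ε / (V + 1)) (div_pos hε hV1)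
  refine ⟨N, fun j hj k hk => ?_⟩
  have h1 := hN j k hj hk
  rw [Real.dist_eq, ← cal_sub (hcont j) (hcont k) h.comp (h.supp j) (h.supp k)]
  have h2 : |cal (fun t x => H j t x - H k t x)| ≤
      (volume (Bl n)).toReal * hofer (fun t x => H j t x - H k t x) := by
    refine abs_cal_le hn ((hcont j).sub (hcont k)) h.comp h.sub fun t x hx => ?_
    rw [h.supp j t x hx, h.supp k t x hx, sub_zero]
  rw [← hV] at h2
  have h3 : V * hofer (fun t x => H j t x - H k t x) ≤ V * (ε / (V + 1)) :=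
    mul_le_mul_of_nonneg_left h1.le hV0
  have h4 : V * (ε / (V + 1)) < ε := by
    rw [← mul_div_assoc, div_lt_iff₀ hV1]
    nlinarith
  linarith

end Pool.Agent.W_68f289_h35
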