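import Pool.Agent.W_68f289_h35.IcB

/-!
The flows of H t and of H t o chi t have the same class.
-/

open Set Metric Topology Pool.Agent.W_MP_68f289_gt MeasureTheory Filter
open scoped NNReal ContDiff

namespace Pool.Agent.W_68f289_h35

variable {n : ℕ}

/-- inverse flow: `HIso.inverse`, `hofer_comp`, `hofer_const_mul` -/
lemma Small.inv {K : Set (E n)} (hc : IsCompact K) {ε : ℝ} {v : Hm n} (hv : Small K ε v) :
    Small K ε v⁻¹ := by
  obtain ⟨L, μ, h1, h2, h3, h4, h5⟩ := hv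
  have hsur : ∀ t, Function.Surjective (μ t) := fun t x => ⟨HIso.inv h1 t x, HIso.apply_inv h1 t x⟩
  refine ⟨fun t x => -L t (μ t x), HIso.inv h1, HIso.inverse h1, ?_, ?_, ?_, ?_⟩
  · intro t x hx
    simp only
    rw [HIso.off h1 hc h2 t hx, h2 t x hx, neg_zero]
  · have h6 : hofer (fun t x => -L t (μ t x)) = hofer (fun t x => (-1) * L t (μ t x)) := by
      congr 1
      funext t x
      rw [neg_one_mul]
    have h7 : ∀ t, Bd (fun x => L t (μ t x)) := fun t =>
      (bd_of_supp h1.smooth.continuous hc h2 t).comp (μ t)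
    rw [h6, hofer_const_mul (H := fun t x => L t (μ t x)) h7 (-1), hofer_comp L hsur, abs_neg,
      abs_one, one_mul]
    exact h3
  · intro t ht x
    have h6 := h4 t ht (HIso.inv h1 t x)
    rw [HIso.apply_inv h1, dist_comm] at h6
    exact h6
  · intro x
    change (v : E n ≃ₜ E n).symm x = HIso.inv h1 1 x
    rw [Homeomorph.symm_apply_eq]
    change x = (v : E n ≃ₜ E n) (HIso.inv h1 1 x)
    rw [h5, HIso.apply_inv h1]

/-- `H t ∘ χ t` and `H t` generate the same class modulo `N`. Proof: in the quotient by `N` the images of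
Hamiltonian diffeos commute (`comm_mem`). For `m ≥ 1`, by induction on `j ≤ m` and `inc` with
`a = j / m`, `b = (j + 1) / m`: `fl hη (j / m) ≡ fl h (j / m) * v` modulo `N` with `v` small of order
`j * M / m²` (`Small.mul`). For `j = m`: `v⁻¹ * (tm hη * (tm h)⁻¹) ∈ N` with `v⁻¹` small of order `M / m`
(`Small.inv`), for all `m`, so `HClosed.mem_of_small` applies. -/
theorem conj_path (hn : 1 ≤ n) {N : Subgroup (Hm n)} (hN : N.Normal) (hN1 : N ≠ ⊥)
    (hNc : HClosed N) {H L : ℝ → E n → ℝ} {ψ χ η : ℝ → E n → E n} (h : HIso n H ψ)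
    (hL : HIso n L χ) (hη : HIso n (fun t x => H t (χ t x)) η) : tm hη * (tm h)⁻¹ ∈ N := by
  have := hN
  obtain ⟨K1, hK1, hK1B, hK1s⟩ := h.supp
  obtain ⟨K2, hK2, hK2B, hK2s⟩ := hL.supp
  have hc : IsCompact (K1 ∪ K2) := hK1.union hK2
  have hKB : K1 ∪ K2 ⊆ Bl n := Set.union_subset hK1B hK2B
  have hKH : ∀ t, ∀ x, x ∉ K1 ∪ K2 → H t x = 0 := fun t x hx =>
    hK1s t x fun h' => hx (Or.inl h')
  have hKL : ∀ t, ∀ x, x ∉ K1 ∪ K2 → L t x = 0 := fun t x hx =>
    hK2s t x fun h' => hx (Or.inr h')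
  obtain ⟨M, hM, hinc⟩ := inc h hL hη hc hKB hKH hKL
  -- images of Hamiltonian diffeos commute in the quotient
  have hcomm : ∀ u v : Hm n, IsHam n (u : E n ≃ₜ E n) → IsHam n (v : E n ≃ₜ E n) →
      (QuotientGroup.mk' N u) * (QuotientGroup.mk' N v) =
        (QuotientGroup.mk' N v) * (QuotientGroup.mk' N u) := by
    intro u v hu hv
    have h1 := comm_mem hn hN hN1 hu hv
    have h2 : QuotientGroup.mk' N (u * v * u⁻¹ * v⁻¹) = 1 := (QuotientGroup.eq_one_iff _).2 h1
    simp only [map_mul, map_inv] at h2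
    have h3 := mul_inv_eq_one.1 h2
    exact mul_inv_eq_iff_eq_mul.1 h3
  have hmul : ∀ u v : Hm n, IsHam n (u : E n ≃ₜ E n) → IsHam n (v : E n ≃ₜ E n) →
      IsHam n ((u * v : Hm n) : E n ≃ₜ E n) := fun u v hu hv => isHam_mul hu hv
  have hinv : ∀ u : Hm n, IsHam n (u : E n ≃ₜ E n) → IsHam n ((u⁻¹ : Hm n) : E n ≃ₜ E n) :=
    fun u hu => isHam_inv hu
  have hstep : ∀ a b : ℝ, 0 ≤ a → a ≤ b → b ≤ 1 → ∃ v : Hm n, Small (K1 ∪ K2) (M * (b - a) ^ 2) v ∧
      QuotientGroup.mk' N (fl hη b) * (QuotientGroup.mk' N (fl hη a))⁻¹ =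
        QuotientGroup.mk' N (fl h b) * (QuotientGroup.mk' N (fl h a))⁻¹ * QuotientGroup.mk' N v := by
    intro a b h0 hab hb1
    obtain ⟨v, hv, hve⟩ := hinc a b h0 hab hb1
    refine ⟨v, hv, ?_⟩
    have h1 := congrArg (QuotientGroup.mk' N) hve
    have h2 := hcomm (fl h b * (fl h a)⁻¹) (fl hL a)
      (hmul _ _ (fl_isHam h b) (hinv _ (fl_isHam h a))) (fl_isHam hL a)
    simp only [map_mul, map_inv] at h1 h2
    rw [h1]
    congr 1
    rw [mul_assoc, h2, inv_mul_cancel_left]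
  have hind : ∀ m : ℕ, 1 ≤ m → ∀ j : ℕ, j ≤ m → ∃ v : Hm n,
      Small (K1 ∪ K2) (j * (M * (1 / m) ^ 2)) v ∧
      QuotientGroup.mk' N (fl hη (j / m)) =
        QuotientGroup.mk' N (fl h (j / m)) * QuotientGroup.mk' N v := by
    intro m hm j
    have hm0 : (0 : ℝ) < m := by exact_mod_cast hm
    induction j with
    | zero =>
      intro _
      refine ⟨1, Small.one _ (by simp), ?_⟩
      rw [Nat.cast_zero, zero_div, fl_zero, fl_zero, map_one, mul_one]
    | succ j ih =>
      intro hj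
      obtain ⟨v, hv, hve⟩ := ih (by omega)
      have hj1 : ((j : ℝ) + 1) ≤ m := by exact_mod_cast hj
      obtain ⟨w, hw, hwe⟩ := hstep (j / m) ((j + 1 : ℕ) / m) (by positivity)
        (by push_cast; gcongr; linarith) (by push_cast; rw [div_le_one hm0]; exact hj1)
      refine ⟨w * v, ?_, ?_⟩
      · refine Small.mono (le_of_eq ?_) (Small.mul hc hw hv)
        push_cast
        ring
      · have h1 := mul_inv_eq_iff_eq_mul.1 hwe
        rw [h1, hve, map_mul]
        have h2 := hcomm w (fl h (j / m)) hw.isHam (fl_isHam h _)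
        calc QuotientGroup.mk' N (fl h ((j + 1 : ℕ) / m)) * (QuotientGroup.mk' N (fl h (j / m)))⁻¹ *
              QuotientGroup.mk' N w *
              (QuotientGroup.mk' N (fl h (j / m)) * QuotientGroup.mk' N v)
            = QuotientGroup.mk' N (fl h ((j + 1 : ℕ) / m)) *
              ((QuotientGroup.mk' N (fl h (j / m)))⁻¹ *
              (QuotientGroup.mk' N w * QuotientGroup.mk' N (fl h (j / m)))) *
                QuotientGroup.mk' N v := by group
          _ = QuotientGroup.mk' N (fl h ((j + 1 : ℕ) / m)) *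
              (QuotientGroup.mk' N w * QuotientGroup.mk' N v) := by
              rw [h2, inv_mul_cancel_left, mul_assoc]
  refine HClosed.mem_of_small hNc (hmul _ _ (tm_isHam hη) (hinv _ (tm_isHam h))) hc hKB ?_
  intro ε hε
  obtain ⟨m, hm⟩ := exists_nat_gt (M / ε)
  have hm0 : (0 : ℝ) < m := lt_of_le_of_lt (div_nonneg hM hε.le) hm
  have hm1 : 1 ≤ m := by
    rcases Nat.eq_zero_or_pos m with h0 | h0
    · rw [h0, Nat.cast_zero] at hm0
      exact absurd hm0 (lt_irrefl _)
    · exact h0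
  obtain ⟨v, hv, hve⟩ := hind m hm1 m le_rfl
  refine ⟨v⁻¹, (Small.inv hc hv).mono ?_, ?_⟩
  · have h1 : (m : ℝ) * (M * (1 / m) ^ 2) = M / m := by
      field_simp
    rw [h1, div_le_iff₀ hm0]
    rw [div_lt_iff₀ hε] at hm
    linarith
  · rw [div_self hm0.ne', fl_one, fl_one] at hve
    rw [← QuotientGroup.eq_one_iff]
    change QuotientGroup.mk' N (v⁻¹ * (tm hη * (tm h)⁻¹)) = 1
    simp only [map_mul, map_inv]
    have h2 := hcomm (tm h) v (tm_isHam h) hv.isHam
    rw [hve, h2]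
    group

end Pool.Agent.W_68f289_h35
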