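import Pool.Agent.W_68f289_h35.ZnA

/-!
Additivity.
-/

open Set Metric Topology Pool.Agent.W_MP_68f289_gt MeasureTheory Filter
open scoped NNReal ContDiff

namespace Pool.Agent.W_68f289_h35

variable {n : ℕ}

/-- additivity. `(χ t)⁻¹ η t` is generated by `(H t + L t - L t) ∘ χ t = H t ∘ χ t` (`HIso.diff`); use
`conj_path`. -/
theorem add_class (hn : 1 ≤ n) {N : Subgroup (Hm n)} (hN : N.Normal) (hN1 : N ≠ ⊥)
    (hNc : HClosed N) {H L : ℝ → E n → ℝ} {ψ χ η : ℝ → E n → E n} (h : HIso n H ψ)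
    (hL : HIso n L χ) (hη : HIso n (fun t x => H t x + L t x) η) :
    tm hη * (tm h * tm hL)⁻¹ ∈ N := by
  have h1 := HIso.diff hL hη
  have e : (fun (t : ℝ) (x : E n) => H t (χ t x) + L t (χ t x) - L t (χ t x)) =
      fun t x => H t (χ t x) := by
    funext t x
    ring
  have h2 : HIso n (fun t x => H t (χ t x)) (fun t x => HIso.inv hL t (η t x)) := by
    rw [← e]
    exact h1
  have h3 := conj_path hn hN hN1 hNc h hL h2
  have h4 : tm h2 = (tm hL)⁻¹ * tm hη := by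
    apply Subtype.ext
    apply Homeomorph.ext
    intro x
    rfl
  have h5 : tm hη * (tm h)⁻¹ * (tm hL)⁻¹ ∈ N := by
    have h6 := hN.conj_mem _ h3 (tm hL)
    rw [h4] at h6
    have e2 : tm hL * ((tm hL)⁻¹ * tm hη * (tm h)⁻¹) * (tm hL)⁻¹ =
        tm hη * (tm h)⁻¹ * (tm hL)⁻¹ := by group
    rwa [e2] at h6
  have h7 := N.mul_mem h5 (comm_mem hn hN hN1 (tm_isHam hL) (tm_isHam h))
  have e3 : tm hη * (tm h)⁻¹ * (tm hL)⁻¹ * (tm hL * tm h * (tm hL)⁻¹ * (tm h)⁻¹) =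
      tm hη * (tm h * tm hL)⁻¹ := by group
  rwa [e3] at h7

/-- smooth Hamiltonians with compact support in the ball -/
def Ad {n : ℕ} (H : ℝ → E n → ℝ) : Prop :=
  ContDiff ℝ ((⊤ : ℕ∞) : WithTop ℕ∞) (Function.uncurry H) ∧
    ∃ K : Set (E n), IsCompact K ∧ K ⊆ Bl n ∧ ∀ t : ℝ, ∀ x, x ∉ K → H t x = 0

/-- Hamiltonians whose time-one map is in `N` -/
def Zn {n : ℕ} (N : Subgroup (Hm n)) (H : ℝ → E n → ℝ) : Prop :=
  Ad H ∧ ∀ (ψ : ℝ → E n → E n) (h : HIso n H ψ), tm h ∈ N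

lemma Ad.add {H L : ℝ → E n → ℝ} (hH : Ad H) (hL : Ad L) : Ad (fun t x => H t x + L t x) := by
  obtain ⟨h1, K, h2, h3, h4⟩ := hH
  obtain ⟨h1', K', h2', h3', h4'⟩ := hL
  refine ⟨h1.add h1', K ∪ K', h2.union h2', union_subset h3 h3', fun t x hx => ?_⟩
  rw [mem_union, not_or] at hx
  simp only [h4 t x hx.1, h4' t x hx.2, add_zero]

lemma Ad.neg {H : ℝ → E n → ℝ} (hH : Ad H) : Ad (fun t x => -H t x) := by
  obtain ⟨h1, K, h2, h3, h4⟩ := hH
  refine ⟨h1.neg, K, h2, h3, fun t x hx => ?_⟩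
  simp only [h4 t x hx, neg_zero]

lemma Ad.exists_flow {H : ℝ → E n → ℝ} (hH : Ad H) : ∃ ψ, HIso n H ψ := by
  obtain ⟨h1, K, h2, h3, h4⟩ := hH
  exact Pool.Agent.W_68f289_h35.exists_flow h1 h2 h3 h4

section

variable (hn : 1 ≤ n) {N : Subgroup (Hm n)} (hN : N.Normal) (hN1 : N ≠ ⊥) (hNc : HClosed N)

include hn hN hN1 hNc

lemma Zn.add {H L : ℝ → E n → ℝ} (hH : Zn N H) (hL : Zn N L) :
    Zn N (fun t x => H t x + L t x) := by
  refine ⟨hH.1.add hL.1, fun η hη => ?_⟩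
  obtain ⟨ψ, h⟩ := hH.1.exists_flow
  obtain ⟨χ, h'⟩ := hL.1.exists_flow
  have h1 := add_class hn hN hN1 hNc h h' hη
  have h2 := N.mul_mem h1 (N.mul_mem (hH.2 ψ h) (hL.2 χ h'))
  rwa [inv_mul_cancel_right] at h2

/-- `0 = H + (-H)`, and the flow of `0` is constant (uniqueness of integral curves on `[0, 1]`) -/
lemma Zn.neg {H : ℝ → E n → ℝ} (hH : Zn N H) : Zn N (fun t x => -H t x) := by
  refine ⟨hH.1.neg, fun χ hL => ?_⟩
  obtain ⟨ψ, h⟩ := hH.1.exists_flow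
  have e : (fun (t : ℝ) (x : E n) => H t x + -H t x) = fun _ _ => 0 := by
    funext t x
    ring
  have hη : HIso n (fun t x => H t x + -H t x) (fun _ x => x) := by
    rw [e]
    refine ⟨contDiff_const, ⟨∅, isCompact_empty, empty_subset _, fun _ _ _ => rfl⟩,
      fun _ => rfl, fun t x => ?_⟩
    rw [XH_zero]
    exact hasDerivAt_const _ _
  have h1 := add_class hn hN hN1 hNc h hL hη
  have h2 : tm hη = 1 := by
    apply Subtype.ext
    apply Homeomorph.ext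
    intro x
    rfl
  rw [h2, one_mul, mul_inv_rev] at h1
  have h3 := N.mul_mem h1 (hH.2 ψ h)
  rw [inv_mul_cancel_right] at h3
  exact N.inv_mem_iff.1 h3

/-- if the difference of two Hamiltonians is in `Zn`, they have the same class -/
lemma Zn.class_eq {H L : ℝ → E n → ℝ} {ψ χ : ℝ → E n → E n} (h : HIso n H ψ) (hL : HIso n L χ)
    (hd : Zn N (fun t x => H t x - L t x)) : tm h * (tm hL)⁻¹ ∈ N := by
  obtain ⟨δ, hδ⟩ := hd.1.exists_flow
  have e : (fun (t : ℝ) (x : E n) => H t x - L t x + L t x) = H := by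
    funext t x
    ring
  have hη : HIso n (fun t x => H t x - L t x + L t x) ψ := by
    rw [e]
    exact h
  have h1 := add_class hn hN hN1 hNc hδ hL hη
  have h2 : tm hη = tm h := by
    apply Subtype.ext
    apply Homeomorph.ext
    intro x
    rfl
  rw [h2, mul_inv_rev, ← mul_assoc] at h1
  have h3 := N.mul_mem h1 (hd.2 δ hδ)
  rwa [inv_mul_cancel_right] at h3

end

end Pool.Agent.W_68f289_h35
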