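import Pool.Agent.W_68f289_h35.ZnB

/-!
Conjugation.
-/

open Set Metric Topology Pool.Agent.W_MP_68f289_gt MeasureTheory Filter
open scoped NNReal ContDiff

namespace Pool.Agent.W_68f289_h35

variable {n : ℕ}

section

variable (hn : 1 ≤ n) {N : Subgroup (Hm n)} (hN : N.Normal) (hN1 : N ≠ ⊥) (hNc : HClosed N)

include hn hN hN1 hNc

/-- `H - H ∘ g` for a Hamiltonian diffeo `g`: `H = (H - H ∘ g) + H ∘ g` and the time-one map of
`H ∘ g` is `g⁻¹ (tm H) g` (`HIso.conj` with `g⁻¹`, `isHam_props`, `isHam_inv`), which has the same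
class by `comm_mem` -/
lemma Zn.conj {H : ℝ → E n → ℝ} (hH : Ad H) {g : E n ≃ₜ E n} (hg : IsHam n g) :
    Zn N (fun t x => H t x - H t (g x)) := by
  have hg' : IsHam n g⁻¹ := isHam_inv hg
  obtain ⟨g1, g2, g3, g4, g5⟩ := isHam_props hg
  obtain ⟨i1, i2, i3, i4, i5⟩ := isHam_props hg'
  have hcoe : (⇑(g⁻¹ : E n ≃ₜ E n)) = ⇑g.symm := rfl
  obtain ⟨hsm, K, hK, hKB, hKs⟩ := hH
  have hAd2 : Ad (fun t x => H t (g x)) := by
    refine ⟨?_, g.symm '' K, hK.image g.symm.continuous, ?_, ?_⟩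
    · have h1 : ContDiff ℝ ((⊤ : ℕ∞) : WithTop ℕ∞) (fun p : ℝ × E n => (p.1, g p.2)) :=
        contDiff_fst.prodMk (g1.comp contDiff_snd)
      exact hsm.comp h1
    · rintro y ⟨x, hx, rfl⟩
      exact i4 x (hKB hx)
    · intro t x hx
      apply hKs t
      intro hgx
      exact hx ⟨g x, hgx, g.symm_apply_apply x⟩
  have hAd1 : Ad H := ⟨hsm, K, hK, hKB, hKs⟩
  have hAd : Ad (fun t x => H t x - H t (g x)) := by
    have h1 := hAd1.add hAd2.neg
    have h2 : (fun t x => H t x - H t (g x)) = fun t x => H t x + -(H t (g x)) := by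
      funext t x
      ring
    rw [h2]
    exact h1
  refine ⟨hAd, fun ψ h => ?_⟩
  obtain ⟨φ, hφ⟩ := hAd1.exists_flow
  have hχ : HIso n (fun t x => H t (g x)) (fun t x => g.symm (φ t (g x))) := by
    have h1 := HIso.conj hφ (g := g⁻¹) i1 i2 i3 i4
    exact h1
  have hη : HIso n (fun t x => (H t x - H t (g x)) + H t (g x)) φ := by
    have h2 : (fun t x => (H t x - H t (g x)) + H t (g x)) = H := by
      funext t x
      ring
    rw [h2]
    exact hφ
  have h1 := add_class hn hN hN1 hNc h hχ hη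
  have e : ∀ (L : ℝ → E n → ℝ) (hL : HIso n L φ) (x : E n), (tm hL : E n ≃ₜ E n) x = φ 1 x :=
    fun L hL x => rfl
  let γ : Hm n := ⟨g⁻¹, Subgroup.subset_closure (isHam_hameos hg')⟩
  have h2 : tm hη * γ * (tm hη)⁻¹ * γ⁻¹ ∈ N := comm_mem hn hN hN1 (tm_isHam hη) hg'
  have h3 : tm hχ = γ * tm hη * γ⁻¹ := by
    apply Subtype.ext
    apply Homeomorph.ext
    intro x
    rfl
  rw [h3] at h1
  have h4 : tm hη * (tm h * (γ * tm hη * γ⁻¹))⁻¹ =
      (tm hη * γ * (tm hη)⁻¹ * γ⁻¹) * (tm h)⁻¹ := by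
    group
  rw [h4] at h1
  have h5 := N.mul_mem (N.inv_mem h2) h1
  rw [← mul_assoc, inv_mul_cancel, one_mul] at h5
  exact (N.inv_mem_iff).1 h5

end

end Pool.Agent.W_68f289_h35
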