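import Pool.Agent.W_68f289_h35.ZnC

/-!
Closedness.
-/

open Set Metric Topology Pool.Agent.W_MP_68f289_gt MeasureTheory Filter
open scoped NNReal ContDiff

namespace Pool.Agent.W_68f289_h35

variable {n : ℕ}

section

variable (hn : 1 ≤ n) {N : Subgroup (Hm n)} (hN : N.Normal) (hN1 : N ≠ ⊥) (hNc : HClosed N)

include hn hN hN1 hNc

/-- closedness: `H = H' + (H - H')`, `add_class`, `small_of_C1`, `HClosed.mem_of_small` -/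
lemma Zn.closed {H : ℝ → E n → ℝ} (hH : ContDiff ℝ ((⊤ : ℕ∞) : WithTop ℕ∞) (Function.uncurry H))
    {K : Set (E n)} (hc : IsCompact K) (hKB : K ⊆ Bl n) (hK : ∀ t, ∀ x, x ∉ K → H t x = 0)
    (h : ∀ ε : ℝ, 0 < ε → ∃ H' : ℝ → E n → ℝ, Zn N H' ∧ (∀ t, ∀ x, x ∉ K → H' t x = 0) ∧
      (∀ t ∈ Icc (0 : ℝ) 1, ∀ x, |H t x - H' t x| ≤ ε) ∧
      ∀ t ∈ Icc (0 : ℝ) 1, ∀ x, ‖fderiv ℝ (fun x => H t x - H' t x) x‖ ≤ ε) : Zn N H := by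
  refine ⟨⟨hH, K, hc, hKB, hK⟩, fun ψ hψ => ?_⟩
  refine HClosed.mem_of_small hNc (tm_isHam hψ) hc hKB fun ε hε => ?_
  obtain ⟨H', hZ, hK', h0, h1⟩ := h (ε / 2) (half_pos hε)
  obtain ⟨ψ', hψ'⟩ := hZ.1.exists_flow
  have hDs : ContDiff ℝ ((⊤ : ℕ∞) : WithTop ℕ∞)
      (Function.uncurry fun (t : ℝ) (x : E n) => H t x - H' t x) := hH.sub hZ.1.1
  have hDK : ∀ t : ℝ, ∀ x : E n, x ∉ K → H t x - H' t x = 0 := fun t x hx => by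
    rw [hK t x hx, hK' t x hx, sub_zero]
  obtain ⟨μ, hμ⟩ := Pool.Agent.W_68f289_h35.exists_flow hDs hc hKB hDK
  have e : (fun (t : ℝ) (x : E n) => H' t x + (H t x - H' t x)) = H := by
    funext t x
    ring
  have hη : HIso n (fun (t : ℝ) (x : E n) => H' t x + (H t x - H' t x)) ψ := by
    rw [e]
    exact hψ
  have h2 := add_class hn hN hN1 hNc hψ' hμ hη
  have h3 : tm hη = tm hψ := Subtype.ext (Homeomorph.ext fun x => rfl)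
  rw [h3] at h2
  have h4 : Small K ε (tm hμ) :=
    Small.mono (by linarith) (small_of_C1 hμ hc hDK h0 h1)
  refine ⟨(tm hμ)⁻¹, Small.inv hc h4, ?_⟩
  have h5 : tm hψ * (tm hψ' * tm hμ)⁻¹ * tm hψ' ∈ N := N.mul_mem h2 (hZ.2 ψ' hψ')
  have h6 := hN.conj_mem _ h5 (tm hμ)⁻¹
  have h7 : (tm hμ)⁻¹ * (tm hψ * (tm hψ' * tm hμ)⁻¹ * tm hψ') * (tm hμ)⁻¹⁻¹ ∈ N := h6
  have h8 : tm hψ * (tm hψ' * tm hμ)⁻¹ * tm hψ' * tm hμ = tm hψ := by group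
  rw [inv_inv, mul_assoc, h8] at h7
  exact h7

end

end Pool.Agent.W_68f289_h35
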