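import Pool.Agent.W_68f289_h35.ZnD

/-!
Separated Hamiltonians with time integral zero.
-/

open Set Metric Topology Pool.Agent.W_MP_68f289_gt MeasureTheory Filter
open scoped NNReal ContDiff

namespace Pool.Agent.W_68f289_h35

variable {n : ℕ}

/-- a separated Hamiltonian `a t * b x` with `∫ a = 0` has trivial time-one map: if `φ` is the flow of
the autonomous Hamiltonian `b`, then `φ (∫ a over [0, t]) x` is the flow of `a t * b x` -/
lemma Zn.time {N : Subgroup (Hm n)} {a : ℝ → ℝ} (ha : ContDiff ℝ ((⊤ : ℕ∞) : WithTop ℕ∞) a)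
    (h0 : ∫ t in (0 : ℝ)..1, a t = 0) {b : E n → ℝ} (hb : Ad (fun _ : ℝ => b)) :
    Zn N (fun t x => a t * b x) := by
  obtain ⟨φ, hφ⟩ := hb.exists_flow
  obtain ⟨hbs, K, hc, hKB, hK⟩ := hb
  have hsm : ContDiff ℝ ((⊤ : ℕ∞) : WithTop ℕ∞)
      (Function.uncurry fun (t : ℝ) (x : E n) => a t * b x) := (ha.comp contDiff_fst).mul hbs
  have h3 : ∀ (t : ℝ) (x : E n), x ∉ K → a t * b x = 0 := fun t x hx => by
    have h4 : b x = 0 := hK t x hx
    rw [h4, mul_zero]
  refine ⟨⟨hsm, K, hc, hKB, h3⟩, fun ψ h => ?_⟩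
  set A : ℝ → ℝ := fun t => ∫ s in (0 : ℝ)..t, a s with hA
  have hAd : ∀ t, HasDerivAt A (a t) t := fun t =>
    (ha.continuous.integral_hasStrictDerivAt 0 t).hasDerivAt
  have hadm : Adm n (fun t x => a t * b x) K := ⟨hsm, hc, hKB, h3⟩
  have hbd : Differentiable ℝ b := by
    have h4 : ContDiff ℝ ((⊤ : ℕ∞) : WithTop ℕ∞) b :=
      hbs.comp ((contDiff_const (c := (0 : ℝ))).prodMk contDiff_id)
    exact h4.differentiable (by simp)
  have key : ∀ x, ψ 1 x = x := by
    intro x
    have hα : IC (fun t => XH (fun y => a t * b y)) (fun s => ψ s x) := fun s _ =>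
      (h.der s x).hasDerivWithinAt
    have hβ : IC (fun t => XH (fun y => a t * b y)) (fun s => φ (A s) x) := by
      intro s _
      have h5 : HasDerivAt (fun s => φ (A s) x) (a s • XH b (φ (A s) x)) s :=
        (hφ.der (A s) x).scomp s (hAd s)
      rw [← XH_const_mul (hbd _) (a s)] at h5
      exact h5.hasDerivWithinAt
    have h6 : (fun s => ψ s x) 0 = (fun s => φ (A s) x) 0 := by
      change ψ 0 x = φ (A 0) x
      have h7 : A 0 = 0 := by simp [hA]
      rw [h7, hφ.zero, h.zero]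
    have h8 := hadm.good.unique hα hβ (left_mem_Icc.2 zero_le_one) h6
      (right_mem_Icc.2 zero_le_one)
    change ψ 1 x = φ (A 1) x at h8
    have h9 : A 1 = 0 := h0
    rw [h8, h9, hφ.zero]
  have h10 : tm h = 1 := by
    apply Subtype.ext
    apply Homeomorph.ext
    intro x
    rw [tm_apply, key x]
    rfl
  rw [h10]
  exact N.one_mem

end Pool.Agent.W_68f289_h35
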